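import Pool.Agent.W_30d1b9f_h31.Defs

/-!
# MP_30d1b9_co: the quantifier `Ev` (for all large `D`, all large `k`, all large `x`)

`Ev.thr`: choose `t(D)` and `l(D,k)`, and replace them by running maxima
(`Finset.sup (Finset.range (D+1))` and so on), so that the thresholds are monotone.
-/

namespace Pool.Agent.W_30d1b9f_h31

theorem Ev.imp {P Q : ℕ → ℕ → ℕ → Prop} (hP : Ev P) (h : ∀ D k x, P D k x → Q D k x) : Ev Q := by
  obtain ⟨K, hK⟩ := hP
  refine ⟨K, fun D hD => ?_⟩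
  obtain ⟨t, ht⟩ := hK D hD
  refine ⟨t, fun k hk => ?_⟩
  obtain ⟨l, hl⟩ := ht k hk
  exact ⟨l, fun x hx => h D k x (hl x hx)⟩

theorem Ev.and {P Q : ℕ → ℕ → ℕ → Prop} (hP : Ev P) (hQ : Ev Q) :
    Ev fun D k x => P D k x ∧ Q D k x := by
  obtain ⟨K, hK⟩ := hP
  obtain ⟨K', hK'⟩ := hQ
  refine ⟨max K K', fun D hD => ?_⟩
  obtain ⟨t, ht⟩ := hK D (by omega)
  obtain ⟨t', ht'⟩ := hK' D (by omega)
  refine ⟨max t t', fun k hk => ?_⟩
  obtain ⟨l, hl⟩ := ht k (by omega)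
  obtain ⟨l', hl'⟩ := ht' k (by omega)
  exact ⟨max l l', fun x hx => ⟨hl x (by omega), hl' x (by omega)⟩⟩

/-- finite conjunctions -/
theorem Ev.all {ι : Type*} (F : Finset ι) {Q : ι → ℕ → ℕ → ℕ → Prop} (h : ∀ i ∈ F, Ev (Q i)) :
    Ev fun D k x => ∀ i ∈ F, Q i D k x := by
  classical
  induction F using Finset.induction_on with
  | empty => exact ⟨0, fun D _ => ⟨0, fun k _ => ⟨0, fun x _ i hi => by simp at hi⟩⟩⟩
  | insert a F ha ih =>
    have h1 := Ev.and (h a (Finset.mem_insert_self a F))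
      (ih fun i hi => h i (Finset.mem_insert_of_mem hi))
    refine h1.imp fun D k x hx i hi => ?_
    rcases Finset.mem_insert.1 hi with rfl | hi
    · exact hx.1
    · exact hx.2 i hi

/-- monotone thresholds -/
theorem Ev.thr {Q : ℕ → ℕ → ℕ → Prop} (h : Ev Q) :
    ∃ (K : ℕ) (Θ : ℕ → ℕ) (Λ : ℕ → ℕ → ℕ), Monotone Θ ∧
      (∀ D D' k k', D ≤ D' → k ≤ k' → Λ D k ≤ Λ D' k') ∧
      ∀ D k x, K ≤ D → Θ D ≤ k → Λ D k ≤ x → Q D k x := by
  obtain ⟨K, hK⟩ := h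
  choose! t ht using hK
  choose! l hl using ht
  refine ⟨K, fun D => (Finset.range (D + 1)).sup t,
    fun D k => (Finset.range (D + 1) ×ˢ Finset.range (k + 1)).sup fun p => l p.1 p.2,
    ?_, ?_, ?_⟩
  · intro D D' hD
    exact Finset.sup_mono (Finset.range_subset_range.2 (by omega))
  · intro D D' k k' hD hk
    exact Finset.sup_mono (Finset.product_subset_product
      (Finset.range_subset_range.2 (by omega)) (Finset.range_subset_range.2 (by omega)))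
  · intro D k x hD hk hx
    have h1 : t D ≤ (Finset.range (D + 1)).sup t :=
      Finset.le_sup (f := t) (Finset.mem_range.2 (Nat.lt_succ_self D))
    have h2 : l D k ≤ (Finset.range (D + 1) ×ˢ Finset.range (k + 1)).sup fun p => l p.1 p.2 :=
      Finset.le_sup (f := fun p : ℕ × ℕ => l p.1 p.2) (b := (D, k))
        (Finset.mem_product.2 ⟨Finset.mem_range.2 (Nat.lt_succ_self D),
          Finset.mem_range.2 (Nat.lt_succ_self k)⟩)
    exact hl D hD k (h1.trans hk) x (h2.trans hx)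

theorem Ev.of_thr {Q : ℕ → ℕ → ℕ → Prop} (K : ℕ) (Θ : ℕ → ℕ) (Λ : ℕ → ℕ → ℕ)
    (h : ∀ D k x, K ≤ D → Θ D ≤ k → Λ D k ≤ x → Q D k x) : Ev Q :=
  ⟨K, fun D hD => ⟨Θ D, fun k hk => ⟨Λ D k, fun x hx => h D k x hD hk hx⟩⟩⟩

end Pool.Agent.W_30d1b9f_h31
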