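import Pool.Agent.W_30d1b9f_h31.Api
import Pool.Agent.W_30d1b9f_h31.Evl

/-!
# MP_30d1b9_co: step A1, `w2 ≥ U`

Thresholds (`Ev.of_thr`): `K + N`, `Θ D + km`, `Λ D k + D + k + 4 N + km`. Let `g` be P at the
level `q` with `sM+sR < g c + U`. Let `y` be `g` with `g x0` lowered by one and
`κ' = κ y`, `b' = sM g + sR g + 1 - sU g` (`≤ g c`; it is a true subtraction because
`sM g ≥ g (2c) ≥ N ≥ sU g`).

* If `sL g + sM g ≤ g 0 + κ'`: `z = g` with `x0 ↦ g x0 - 1`, `c ↦ b'`, `0 ↦ sL g + sM g - κ'`.
  `E.low z` gives `PP z` and `noPP` with the window `0` gives `z x0 = g x0`: contradiction.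
* Otherwise: `z = g` with `x0 ↦ g x0 - 1`, `c ↦ b'`,
  `c+1 ↦ g (c+1) - (sL g + sM g - g 0 - κ')`. By `F4` and `E.sum` the stack `c+1` stays
  above `Λ D k`. `E.low z` gives `PP z`, `noPP` with the window `1`.

`κ z = κ y = κ'` by `E.core` (same core).
-/

namespace Pool.Agent.W_30d1b9f_h31

variable {n c e : ℕ} [NeZero n]

theorem A1 (hp : Par n c e) {q : ℕ → ℕ} {κ : (ℕ → ℕ) → ℕ} {km N K : ℕ} {Θ : ℕ → ℕ}
    {Λ : ℕ → ℕ → ℕ} (E : Env n c e q κ km N K Θ Λ) {x0 : ℕ} (hx1 : 1 ≤ x0) (hx2 : x0 < c)
    (hx3 : 1 ≤ q x0) :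
    Ev fun D k x => ∀ g, At n c e q D k x g → PP n c g →
      g c + sU c g ≤ sM c e g + sR c e g := by
  obtain ⟨he, hec, hc, hn⟩ := id hp
  refine Ev.of_thr (K + N) (fun D => Θ D + km) (fun D k => Λ D k + D + k + 4 * N + km) ?_
  intro D k x hD hk hx g hAt hg
  obtain ⟨hCr, hgD, hgk, hgx⟩ := hAt
  by_contra hcon
  push Not at hcon
  have hsp0 : ¬ Sp c e x0 := by unfold Sp; omega
  have hg0 : g x0 = q x0 := hCr x0 (by omega) hsp0
  have hCle : Cle n c e g q := fun v hv hs => (hCr v hv hs).le
  obtain ⟨hsUR, hsL, hsM⟩ := E.sum g hCle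
  have hM2 : g (2 * c) ≤ sM c e g := sm_ge g (by omega) (by omega)
  have hL2 : g (c + e - 1) ≤ sL c e g := sm_ge g (by omega) (by omega)
  have hU2 : g x0 ≤ sU c g := sm_ge g hx1 hx2
  have hF4 := F4 hp hg
  set y := Function.update g x0 (g x0 - 1) with hy
  have hyv : ∀ v, v ≠ x0 → y v = g v := fun v hv => Function.update_of_ne hv _ _
  have hyx : y x0 = g x0 - 1 := Function.update_self _ _ _
  have hyClt : Clt n c e y q := by
    refine ⟨fun v hv hs => ?_, x0, by omega, hsp0, by omega⟩
    by_cases h : v = x0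
    · subst h; omega
    · rw [hyv v h, hCr v hv hs]
  have hbd := E.bd y hyClt
  set κ' := κ y with hκ'
  obtain ⟨b', hb'⟩ : ∃ b', b' + sU c g = sM c e g + sR c e g + 1 :=
    ⟨sM c e g + sR c e g + 1 - sU c g, by omega⟩
  -- the common part: any `z` with the core of `y`, equal to `g` off `0, x0, c, c+1`
  have key : ∀ z : ℕ → ℕ, (∀ v, v ≠ x0 → v ≠ 0 → v ≠ c → v ≠ c + 1 → z v = g v) →
      z x0 = g x0 - 1 → z c = b' → Λ D k ≤ z (c + 1) →
      sL c e z + sM c e g = z 0 + κ' → PP n c z := by
    intro z h1 h2 h3 h4 h5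
    have hzClt : Clt n c e z q := by
      refine ⟨fun v hv hs => ?_, x0, by omega, hsp0, by omega⟩
      by_cases h : v = x0
      · subst h; omega
      · have hs' := hs
        unfold Sp at hs'
        rw [h1 v h (by omega) (by omega) (by omega), hCr v hv hs]
    have hz2c : z (2 * c) = D := by rw [h1 _ (by omega) (by omega) (by omega) (by omega)]; exact hgD
    have hzk : z (c + e - 1) = k := by
      rw [h1 _ (by omega) (by omega) (by omega) (by omega)]; exact hgk
    have hReg : Reg c e K Θ Λ z := by
      refine ⟨by omega, ?_, ?_⟩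
      · rw [hz2c, hzk]; omega
      · rw [hz2c, hzk]; exact h4
    have hcore : κ z = κ' := by
      apply E.core
      intro v hv hs
      by_cases h : v = x0
      · subst h; rw [h2, hyx]
      · have hs' := hs
        unfold Sp at hs'
        rw [h1 v h (by omega) (by omega) (by omega), hyv v h]
    have hMz : sM c e z = sM c e g :=
      sm_congr fun v h6 h7 => h1 v (by omega) (by omega) (by omega) (by omega)
    have hRz : sR c e z = sR c e g :=
      sm_congr fun v h6 h7 => h1 v (by omega) (by omega) (by omega) (by omega)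
    have hUz : sU c z + g x0 = sU c g + z x0 :=
      sm_one hx1 hx2 fun w h6 h7 h8 => h1 w h8 (by omega) (by omega) (by omega)
    have hF : PP n c z ↔ sL c e z + sM c e z = z 0 + κ z ∧
        sM c e z + sR c e z = z c + sU c z := E.low z hzClt hReg
    rw [hF, hcore, hMz, hRz]
    exact ⟨h5, by omega⟩
  rcases Nat.lt_or_ge (g 0 + κ') (sL c e g + sM c e g) with hlt | hge
  · -- window 1
    obtain ⟨δ, hδ⟩ : ∃ δ, g 0 + κ' + δ = sL c e g + sM c e g :=
      ⟨sL c e g + sM c e g - (g 0 + κ'), by omega⟩
    have hx' : Λ D k + D + k + 4 * N + km ≤ x := hx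
    obtain ⟨x', hx''⟩ : ∃ x', x' + δ = g (c + 1) := ⟨g (c + 1) - δ, by omega⟩
    set z := Function.update (Function.update y c b') (c + 1) x' with hz
    have z1 : ∀ v, v ≠ x0 → v ≠ c → v ≠ c + 1 → z v = g v := by
      intro v h1 h2 h3
      rw [hz, Function.update_of_ne h3, Function.update_of_ne h2, hyv v h1]
    have z2 : z x0 = g x0 - 1 := by
      rw [hz, Function.update_of_ne (by omega), Function.update_of_ne (by omega), hyx]
    have z3 : z c = b' := by
      rw [hz, Function.update_of_ne (by omega), Function.update_self]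
    have z4 : z (c + 1) = x' := by
      rw [hz, Function.update_self]
    have z0 : z 0 = g 0 := z1 0 (by omega) (by omega) (by omega)
    have hLz : sL c e z + g (c + 1) = sL c e g + z (c + 1) :=
      sm_one (by omega) (by omega) fun w h6 h7 h8 => z1 w (by omega) (by omega) h8
    have hPz : PP n c z := key z (fun v h1 _ h3 h4 => z1 v h1 h3 h4) z2 z3 (by omega) (by omega)
    have h9 := noPP (by omega) hg hPz (fun v hv => by
      by_cases h1 : v = x0
      · subst h1; omega
      · by_cases h2 : v = c
        · subst h2; omega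
        · by_cases h3 : v = c + 1
          · subst h3; omega
          · rw [z1 v h1 h2 h3]) 1 (by omega) (fun v hv hW => by
      unfold InW at hW
      exact z1 v (by omega) (by omega) (by omega)) x0 (by omega)
    omega
  · -- window 0
    obtain ⟨a', ha'⟩ : ∃ a', a' + κ' = sL c e g + sM c e g :=
      ⟨sL c e g + sM c e g - κ', by omega⟩
    set z := Function.update (Function.update y c b') 0 a' with hz
    have z1 : ∀ v, v ≠ x0 → v ≠ c → v ≠ 0 → z v = g v := by
      intro v h1 h2 h3
      rw [hz, Function.update_of_ne h3, Function.update_of_ne h2, hyv v h1]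
    have z2 : z x0 = g x0 - 1 := by
      rw [hz, Function.update_of_ne (by omega), Function.update_of_ne (by omega), hyx]
    have z3 : z c = b' := by
      rw [hz, Function.update_of_ne (by omega), Function.update_self]
    have z4 : z 0 = a' := by
      rw [hz, Function.update_self]
    have zx : z (c + 1) = g (c + 1) := z1 _ (by omega) (by omega) (by omega)
    have hLz : sL c e z = sL c e g :=
      sm_congr fun w h6 h7 => z1 w (by omega) (by omega) (by omega)
    have hPz : PP n c z := key z (fun v h1 h2 h3 _ => z1 v h1 h3 h2) z2 z3 (by omega) (by omega)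
    have h9 := noPP (by omega) hg hPz (fun v hv => by
      by_cases h1 : v = x0
      · subst h1; omega
      · by_cases h2 : v = c
        · subst h2; omega
        · by_cases h3 : v = 0
          · subst h3; omega
          · rw [z1 v h1 h2 h3]) 0 (by omega) (fun v hv hW => by
      unfold InW at hW
      exact z1 v (by omega) (by omega) (by omega)) x0 (by omega)
    omega

end Pool.Agent.W_30d1b9f_h31
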