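import Pool.Agent.W_30d1b9f_h31.H

/-!
# MP_30d1b9_co: step A2, `w2 ≤ U`

Take thresholds `K1, Θ1, Λ1` for `H hp E Θ` (`Ev.thr`). New thresholds: `max K1 (K + 2 N)`,
`max (Θ1 D) (Θ D + km)`, `max (Λ1 D k) (Λ D k + km)`. Let `g` be P at the level `q`
and `t = sM g + sR g - g c - U g ≥ 1`. F3: `D ≤ g c + U g`, so the sum of `g` over
`c+e..2c+e-1` without the stack `2c` is `≥ t ≥ 1`: there is `v0 ∈ [c+e, n)`, `v0 ≠ 2c`, with
`g v0 ≥ 1` (`sm_split`, `sm_pos`). Let `ε = 1` if `v0 < 2c`, else `0`; `t ≤ 2 N`. Let `z` be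
`g` with `v0 ↦ g v0 - 1`, `2c ↦ D - (t-1)`, `κ' = κ z` (`Clt z q`), and in addition

* if `sL g + sM g ≤ g 0 + κ' + (t-1) + ε`: `0 ↦ sL g + sM g - (t-1) - ε - κ'`
  (window `v0` if `v0 < 2c`, window `2c` otherwise);
* otherwise: `c+e-1 ↦ k - (sL g + sM g - g 0 - κ' - (t-1) - ε)` (window `c+e-1`); by `H` the new
  value is `≥ Θ D`.

`E.low z` gives `PP z`; `noPP` gives a contradiction (`z v0 ≠ g v0`).
-/

namespace Pool.Agent.W_30d1b9f_h31

variable {n c e : ℕ} [NeZero n]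

theorem A2_key (hp : Par n c e) {q : ℕ → ℕ} {κ : (ℕ → ℕ) → ℕ} {km N K : ℕ} {Θ : ℕ → ℕ}
    {Λ : ℕ → ℕ → ℕ} (E : Env n c e q κ km N K Θ Λ) {g z : ℕ → ℕ} {v0 s : ℕ} (hg : PP n c g)
    (hv0 : v0 < n) (hlt : z v0 < g v0) (hle : ∀ v < n, z v ≤ g v) (hs : s < n)
    (hW : ∀ v < n, ¬ InW n c s v → z v = g v) (hC : Clt n c e z q) (hR : Reg c e K Θ Λ z)
    (h1 : sL c e z + sM c e z = z 0 + κ z) (h2 : sM c e z + sR c e z = z c + sU c z) : False := by
  have hz : PP n c z := (E.low z hC hR).2 ⟨h1, h2⟩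
  obtain ⟨he, hec, hc, hn⟩ := hp
  have h3 := noPP (by omega) hg hz hle s hs hW v0 hv0
  omega

theorem A2_core (hp : Par n c e) {q : ℕ → ℕ} {κ : (ℕ → ℕ) → ℕ} {km N K : ℕ} {Θ : ℕ → ℕ}
    {Λ : ℕ → ℕ → ℕ} (E : Env n c e q κ km N K Θ Λ) {g : ℕ → ℕ} {v0 ε t : ℕ}
    (hCr : Cr n c e g q) (hg : PP n c g) (hv1 : c + e ≤ v0) (hv2 : v0 < n) (hgv : 1 ≤ g v0)
    (hε : (v0 < 2 * c ∧ ε = 1) ∨ (2 * c < v0 ∧ ε = 0)) (ht1 : 1 ≤ t) (ht2 : t ≤ 2 * N + 1)
    (ht : sM c e g + sR c e g = g c + sU c g + t) (hDK : K + 2 * N ≤ g (2 * c))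
    (hk : Θ (g (2 * c)) + km ≤ g (c + e - 1))
    (hx : Λ (g (2 * c)) (g (c + e - 1)) ≤ g (c + 1))
    (hH : sL c e g + sM c e g + Θ (g (2 * c)) ≤ g 0 + g (c + e - 1)) : False := by
  have hp' := hp
  obtain ⟨he, hec, hc, hn⟩ := hp'
  have hsp : ¬ Sp c e v0 := by unfold Sp; omega
  have hv3 : v0 ≠ 2 * c := by omega
  set f1 : ℕ → ℕ := Function.update g v0 (g v0 - 1) with hf1
  set z1 : ℕ → ℕ := Function.update f1 (2 * c) (g (2 * c) - (t - 1)) with hz1
  have hf1v : f1 v0 = g v0 - 1 := Function.update_self _ _ _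
  have hf1o : ∀ v, v ≠ v0 → f1 v = g v := fun v hv => Function.update_of_ne hv _ _
  have hz1v : z1 v0 = g v0 - 1 := by rw [hz1, Function.update_of_ne hv3, hf1v]
  have hz1D : z1 (2 * c) = g (2 * c) - (t - 1) := Function.update_self _ _ _
  have hz1o : ∀ v, v ≠ v0 → v ≠ 2 * c → z1 v = g v := fun v h1 h2 => by
    rw [hz1, Function.update_of_ne h2, hf1o v h1]
  -- sums of z1
  have hU1 : sU c z1 = sU c g := by
    unfold sU
    rw [hz1, sm_upd_out _ _ (by omega), hf1, sm_upd_out _ _ (by omega)]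
  have hL1 : sL c e z1 = sL c e g := by
    unfold sL
    rw [hz1, sm_upd_out _ _ (by omega), hf1, sm_upd_out _ _ (by omega)]
  have hMf : sM c e f1 + ε = sM c e g := by
    unfold sM
    rcases hε with ⟨h1, h2⟩ | ⟨h1, h2⟩
    · have h3 := sm_upd_in (a := c + e) (b := 2 * c + 1) (v := v0) g (g v0 - 1) hv1 (by omega)
      rw [← hf1] at h3
      omega
    · rw [hf1, sm_upd_out _ _ (by omega)]
      omega
  have hRf : sR c e f1 + 1 = sR c e g + ε := by
    unfold sR
    rcases hε with ⟨h1, h2⟩ | ⟨h1, h2⟩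
    · rw [hf1, sm_upd_out _ _ (by omega)]
      omega
    · have h3 := sm_upd_in (a := 2 * c + 1) (b := 2 * c + e) (v := v0) g (g v0 - 1) (by omega)
        (by omega)
      rw [← hf1] at h3
      omega
  have hR1 : sR c e z1 + 1 = sR c e g + ε := by
    rw [← hRf]
    unfold sR
    rw [hz1, sm_upd_out _ _ (by omega)]
  have hM1 : sM c e z1 + (t - 1) + ε = sM c e g := by
    have h3 := sm_upd_in (a := c + e) (b := 2 * c + 1) (v := 2 * c) f1
      (g (2 * c) - (t - 1)) (by omega) (by omega)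
    rw [← hz1, hf1o _ (Ne.symm hv3)] at h3
    unfold sM at hMf ⊢
    omega
  have hLk : g (c + e - 1) ≤ sL c e g := sm_ge g (by omega) (by omega)
  -- the core of z1
  have hC1 : Clt n c e z1 q := by
    refine ⟨fun v hv hs => ?_, v0, hv2, hsp, ?_⟩
    · have h1 := hCr v hv hs
      rcases eq_or_ne v v0 with rfl | h2
      · rw [hz1v]; omega
      · rw [hz1o v h2 (fun h3 => hs (by unfold Sp; omega))]
        omega
    · have h1 := hCr v0 hv2 hsp
      rw [hz1v]
      omega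
  have hκ := E.bd z1 hC1
  have hmonT : Θ (g (2 * c) - (t - 1)) ≤ Θ (g (2 * c)) := E.monT (Nat.sub_le _ _)
  rcases Nat.lt_or_ge (g 0 + κ z1 + (t - 1) + ε) (sL c e g + sM c e g) with hcase | hcase
  · -- lower the stack c+e-1
    obtain ⟨s, hs⟩ : ∃ s, s + (g 0 + κ z1 + (t - 1) + ε) = sL c e g + sM c e g :=
      ⟨_, Nat.sub_add_cancel hcase.le⟩
    set z : ℕ → ℕ := Function.update z1 (c + e - 1) (g (c + e - 1) - s) with hz
    have hzk : z (c + e - 1) = g (c + e - 1) - s := Function.update_self _ _ _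
    have hzo : ∀ v, v ≠ c + e - 1 → z v = z1 v := fun v hv => Function.update_of_ne hv _ _
    have hcr : Cr n c e z z1 := fun v _ hs' => hzo v (fun h3 => hs' (by unfold Sp; omega))
    have hκz : κ z = κ z1 := E.core _ _ hcr
    have hzv0 : z v0 = g v0 - 1 := by rw [hzo _ (by omega), hz1v]
    have hzD : z (2 * c) = g (2 * c) - (t - 1) := by rw [hzo _ (by omega), hz1D]
    refine A2_key hp E (z := z) (v0 := v0) (s := c + e - 1) hg hv2 (by omega) ?_ (by omega) ?_
      ?_ ?_ ?_ ?_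
    · intro v hv
      rcases eq_or_ne v (c + e - 1) with rfl | h1
      · omega
      rcases eq_or_ne v v0 with rfl | h2
      · omega
      rcases eq_or_ne v (2 * c) with rfl | h3
      · omega
      · rw [hzo v h1, hz1o v h2 h3]
    · intro v hv hW
      unfold InW at hW
      rw [hzo v (by omega), hz1o v (by omega) (by omega)]
    · refine ⟨fun v hv hs' => ?_, v0, hv2, hsp, ?_⟩
      · rw [hcr v hv hs']
        exact hC1.1 v hv hs'
      · have h1 := hCr v0 hv2 hsp
        omega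
    · refine ⟨by omega, ?_, ?_⟩
      · rw [hzD, hzk]
        omega
      · rw [hzD, hzk, hzo _ (by omega), hz1o _ (by omega) (by omega)]
        exact (E.monL _ _ _ _ (Nat.sub_le _ _) (Nat.sub_le _ _)).trans hx
    · have h1 : sL c e z + s = sL c e g := by
        have h3 := sm_upd_in (a := c + 1) (b := c + e) (v := c + e - 1) z1
          (g (c + e - 1) - s) (by omega) (by omega)
        rw [← hz, hz1o _ (by omega) (by omega)] at h3
        unfold sL at hL1 ⊢
        omega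
      have h2 : sM c e z = sM c e z1 := by
        unfold sM
        rw [hz, sm_upd_out _ _ (by omega)]
      have h4 : z 0 = g 0 := by rw [hzo _ (by omega), hz1o _ (by omega) (by omega)]
      omega
    · have h2 : sM c e z = sM c e z1 := by
        unfold sM
        rw [hz, sm_upd_out _ _ (by omega)]
      have h3 : sR c e z = sR c e z1 := by
        unfold sR
        rw [hz, sm_upd_out _ _ (by omega)]
      have h4 : sU c z = sU c z1 := by
        unfold sU
        rw [hz, sm_upd_out _ _ (by omega)]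
      have h5 : z c = g c := by rw [hzo _ (by omega), hz1o _ (by omega) (by omega)]
      omega
  · -- lower the stack 0
    set z : ℕ → ℕ := Function.update z1 0
      (sL c e g + sM c e g - (t - 1) - ε - κ z1) with hz
    have hz0 : z 0 = sL c e g + sM c e g - (t - 1) - ε - κ z1 := Function.update_self _ _ _
    have hzo : ∀ v, v ≠ 0 → z v = z1 v := fun v hv => Function.update_of_ne hv _ _
    have hcr : Cr n c e z z1 := fun v _ hs' => hzo v (fun h3 => hs' (by unfold Sp; omega))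
    have hκz : κ z = κ z1 := E.core _ _ hcr
    have hzv0 : z v0 = g v0 - 1 := by rw [hzo _ (by omega), hz1v]
    have hzD : z (2 * c) = g (2 * c) - (t - 1) := by rw [hzo _ (by omega), hz1D]
    obtain ⟨s0, hs0n, hs0v, hs0D, hs00⟩ : ∃ s0 < n, InW n c s0 v0 ∧ InW n c s0 (2 * c) ∧
        InW n c s0 0 := by
      unfold InW
      rcases hε with ⟨h1, h2⟩ | ⟨h1, h2⟩
      · exact ⟨v0, hv2, by omega, by omega, by omega⟩
      · exact ⟨2 * c, by omega, by omega, by omega, by omega⟩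
    refine A2_key hp E (z := z) (v0 := v0) (s := s0) hg hv2 (by omega) ?_ hs0n ?_
      ?_ ?_ ?_ ?_
    · intro v hv
      rcases eq_or_ne v 0 with rfl | h1
      · omega
      rcases eq_or_ne v v0 with rfl | h2
      · omega
      rcases eq_or_ne v (2 * c) with rfl | h3
      · omega
      · rw [hzo v h1, hz1o v h2 h3]
    · intro v hv hW
      have h1 : v ≠ 0 := fun h => hW (h ▸ hs00)
      have h2 : v ≠ v0 := fun h => hW (h ▸ hs0v)
      have h3 : v ≠ 2 * c := fun h => hW (h ▸ hs0D)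
      rw [hzo v h1, hz1o v h2 h3]
    · refine ⟨fun v hv hs' => ?_, v0, hv2, hsp, ?_⟩
      · rw [hcr v hv hs']
        exact hC1.1 v hv hs'
      · have h1 := hCr v0 hv2 hsp
        omega
    · have h1 : z (c + e - 1) = g (c + e - 1) := by
        rw [hzo _ (by omega), hz1o _ (by omega) (by omega)]
      refine ⟨by omega, ?_, ?_⟩
      · rw [hzD, h1]
        omega
      · rw [hzD, h1, hzo _ (by omega), hz1o _ (by omega) (by omega)]
        exact (E.monL _ _ _ _ (Nat.sub_le _ _) le_rfl).trans hx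
    · have h1 : sL c e z = sL c e z1 := by
        unfold sL
        rw [hz, sm_upd_out _ _ (by omega)]
      have h2 : sM c e z = sM c e z1 := by
        unfold sM
        rw [hz, sm_upd_out _ _ (by omega)]
      omega
    · have h2 : sM c e z = sM c e z1 := by
        unfold sM
        rw [hz, sm_upd_out _ _ (by omega)]
      have h3 : sR c e z = sR c e z1 := by
        unfold sR
        rw [hz, sm_upd_out _ _ (by omega)]
      have h4 : sU c z = sU c z1 := by
        unfold sU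
        rw [hz, sm_upd_out _ _ (by omega)]
      have h5 : z c = g c := by rw [hzo _ (by omega), hz1o _ (by omega) (by omega)]
      omega

theorem A2 (hp : Par n c e) {q : ℕ → ℕ} {κ : (ℕ → ℕ) → ℕ} {km N K : ℕ} {Θ : ℕ → ℕ}
    {Λ : ℕ → ℕ → ℕ} (E : Env n c e q κ km N K Θ Λ) :
    Ev fun D k x => ∀ g, At n c e q D k x g → PP n c g →
      sM c e g + sR c e g ≤ g c + sU c g := by
  obtain ⟨K1, Θ1, Λ1, -, -, hH⟩ := (H hp E Θ).thr
  refine Ev.of_thr (max K1 (K + 2 * N)) (fun D => max (Θ1 D) (Θ D + km))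
    (fun D k => max (Λ1 D k) (Λ D k + km)) ?_
  intro D k x hD hk hx g hAt hg
  by_contra hcon
  have hlt : g c + sU c g < sM c e g + sR c e g := by omega
  have hH' := hH D k x (le_trans (le_max_left _ _) hD) (le_trans (le_max_left _ _) hk)
    (le_trans (le_max_left _ _) hx) g hAt hg hlt.le
  have hD2 : K + 2 * N ≤ D := le_trans (le_max_right _ _) hD
  have hk2 : Θ D + km ≤ k := le_trans (le_max_right _ _) hk
  have hx2 : Λ D k + km ≤ x := le_trans (le_max_right _ _) hx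
  obtain ⟨hCr, hgD, hgk, hgx⟩ := hAt
  subst hgD hgk hgx
  have hF3 := F3 hp hg
  obtain ⟨hN1, hN2, hN3⟩ := E.sum g fun v hv hs => (hCr v hv hs).le
  have hp' := hp
  obtain ⟨he, hec, hc, hn⟩ := hp'
  have hMs : sM c e g = sm (c + e) (2 * c) g + g (2 * c) := sm_succ g (by omega)
  obtain ⟨t, ht⟩ : ∃ t, sM c e g + sR c e g = g c + sU c g + t :=
    ⟨_, (Nat.add_sub_cancel' hlt.le).symm⟩
  have key : ∃ v0 ε, c + e ≤ v0 ∧ v0 < n ∧ 1 ≤ g v0 ∧
      ((v0 < 2 * c ∧ ε = 1) ∨ (2 * c < v0 ∧ ε = 0)) := by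
    rcases Nat.eq_zero_or_pos (sm (c + e) (2 * c) g) with h0 | h0
    · have h1 : 0 < sR c e g := by omega
      obtain ⟨v, h2, h3, h4⟩ := sm_pos h1
      exact ⟨v, 0, by omega, by omega, h4, Or.inr ⟨by omega, rfl⟩⟩
    · obtain ⟨v, h2, h3, h4⟩ := sm_pos h0
      exact ⟨v, 1, by omega, by omega, h4, Or.inl ⟨by omega, rfl⟩⟩
  obtain ⟨v0, ε, hv1, hv2, hgv, hε⟩ := key
  exact A2_core hp E (v0 := v0) (ε := ε) (t := t) hCr hg hv1 hv2 hgv hε (by omega) (by omega) ht
    hD2 hk2 (by omega) hH'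

end Pool.Agent.W_30d1b9f_h31
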