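import Pool.Agent.W_30d1b9f_h31.Defs

/-!
# MP_30d1b9_co: sums, moves, bounds for P-positions
-/

namespace Pool.Agent.W_30d1b9f_h31

open Pool.Agent.W_30d1b9_h50 Pool.Agent.W_30d1b9s_h71

section sums

variable {a b v : ℕ} {f g : ℕ → ℕ}

theorem sm_congr (h : ∀ v, a ≤ v → v < b → f v = g v) : sm a b f = sm a b g :=
  Finset.sum_congr rfl fun v hv => h v (Finset.mem_Ico.1 hv).1 (Finset.mem_Ico.1 hv).2

theorem sm_le (h : ∀ v, a ≤ v → v < b → f v ≤ g v) : sm a b f ≤ sm a b g :=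
  Finset.sum_le_sum fun v hv => h v (Finset.mem_Ico.1 hv).1 (Finset.mem_Ico.1 hv).2

theorem sm_lt (h : ∀ v, a ≤ v → v < b → f v ≤ g v) (ha : a ≤ v) (hb : v < b) (hv : f v < g v) :
    sm a b f < sm a b g :=
  Finset.sum_lt_sum (fun v hv => h v (Finset.mem_Ico.1 hv).1 (Finset.mem_Ico.1 hv).2)
    ⟨v, Finset.mem_Ico.2 ⟨ha, hb⟩, hv⟩

theorem sm_one (ha : a ≤ v) (hb : v < b) (h : ∀ w, a ≤ w → w < b → w ≠ v → f w = g w) :
    sm a b f + g v = sm a b g + f v := by
  unfold sm
  rw [← Finset.add_sum_erase _ f (Finset.mem_Ico.2 ⟨ha, hb⟩),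
    ← Finset.add_sum_erase _ g (Finset.mem_Ico.2 ⟨ha, hb⟩), Finset.sum_congr rfl fun w hw => ?_]
  · ring
  · rw [Finset.mem_erase, Finset.mem_Ico] at hw
    exact h w hw.2.1 hw.2.2 hw.1

theorem sm_ge (f : ℕ → ℕ) (ha : a ≤ v) (hb : v < b) : f v ≤ sm a b f :=
  Finset.single_le_sum (f := f) (fun _ _ => Nat.zero_le _) (Finset.mem_Ico.2 ⟨ha, hb⟩)

theorem sm_upd_in (f : ℕ → ℕ) (y : ℕ) (ha : a ≤ v) (hb : v < b) :
    sm a b (Function.update f v y) + f v = sm a b f + y := by
  have h := sm_one (f := Function.update f v y) (g := f) ha hb fun w _ _ hw =>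
    Function.update_of_ne hw _ _
  rw [Function.update_self] at h
  exact h

theorem sm_upd_out (f : ℕ → ℕ) (y : ℕ) (h : v < a ∨ b ≤ v) :
    sm a b (Function.update f v y) = sm a b f :=
  sm_congr fun w h1 h2 => Function.update_of_ne (by omega) _ _

theorem sm_eq_of (h : ∀ v, a ≤ v → v < b → f v ≤ g v) (hs : sm a b f = sm a b g) :
    ∀ v, a ≤ v → v < b → f v = g v := by
  intro v h1 h2
  by_contra hne
  have := sm_lt h h1 h2 (lt_of_le_of_ne (h v h1 h2) hne)
  omega

theorem sm_split (f : ℕ → ℕ) {m : ℕ} (h1 : a ≤ m) (h2 : m ≤ b) :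
    sm a b f = sm a m f + sm m b f :=
  (Finset.sum_Ico_consecutive f h1 h2).symm

theorem sm_self (f : ℕ → ℕ) : sm a a f = 0 := by
  unfold sm
  rw [Finset.Ico_self, Finset.sum_empty]

theorem sm_succ (f : ℕ → ℕ) (h : a ≤ b) : sm a (b + 1) f = sm a b f + f b :=
  Finset.sum_Ico_succ_top h f

theorem sm_head (f : ℕ → ℕ) (h : a < b) : sm a b f = f a + sm (a + 1) b f :=
  Finset.sum_eq_sum_Ico_succ_bot h f

theorem sm_const (T : ℕ) (h : ∀ v, a ≤ v → v < b → f v = T) : sm a b f = (b - a) * T := by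
  unfold sm
  rw [Finset.sum_congr rfl fun v hv => h v (Finset.mem_Ico.1 hv).1 (Finset.mem_Ico.1 hv).2,
    Finset.sum_const, Nat.card_Ico, smul_eq_mul]

/-- if the sum is positive, some entry is positive -/
theorem sm_pos (h : 0 < sm a b f) : ∃ v, a ≤ v ∧ v < b ∧ 0 < f v := by
  by_contra hcon
  push Not at hcon
  have : sm a b f = 0 := Finset.sum_eq_zero fun v hv => by
    have := hcon v (Finset.mem_Ico.1 hv).1 (Finset.mem_Ico.1 hv).2
    omega
  omega

end sums

variable {n c e : ℕ} [NeZero n]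

theorem inW_iff (hc : c + 1 ≤ n) {s v : ℕ} (hs : s < n) (x : ZMod n) (hx : x.val = v) :
    x ∈ window n (c + 1) (s : ZMod n) ↔ InW n c s v := by
  have h1 := not_mem_window (n := n) (k := c + 1) (g := n - (c + 1)) (by omega) (s : ZMod n) x
  rw [val_cast hs, hx] at h1
  have hv : v < n := hx ▸ ZMod.val_lt x
  unfold InW
  constructor
  · intro h
    by_contra hcon
    exact h1.2 (by omega) h
  · intro h
    by_contra hcon
    have := h1.1 hcon
    omega

theorem PP_congr {f g : ℕ → ℕ} (h : ∀ v < n, f v = g v) (hf : PP n c f) : PP n c g := by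
  have e1 : (fun x : ZMod n => g x.val) = fun x => f x.val :=
    funext fun x => (h _ (ZMod.val_lt x)).symm
  unfold PP
  rw [e1]
  exact hf

/-- No move from a P-position to a P-position. -/
theorem noPP {f g : ℕ → ℕ} (hc : c + 1 ≤ n) (hf : PP n c f) (hg : PP n c g)
    (hle : ∀ v < n, g v ≤ f v) (s : ℕ) (hs : s < n) (hW : ∀ v < n, ¬ InW n c s v → g v = f v) :
    ∀ v < n, g v = f v := by
  by_contra hcon
  push Not at hcon
  obtain ⟨v, hv, hne⟩ := hcon
  refine (isP_iff _).1 hf _ ⟨(s : ZMod n), fun x hx => ?_, fun x => ?_, fun h => ?_⟩ hg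
  · rw [inW_iff hc hs x rfl] at hx
    exact hW _ (ZMod.val_lt x) hx
  · exact hle _ (ZMod.val_lt x)
  · have h1 := congrFun h (v : ZMod n)
    beta_reduce at h1
    rw [val_cast hv] at h1
    exact hne h1

/-- Every N-position has a P-option. -/
theorem exP {f : ℕ → ℕ} (hc : c + 1 ≤ n) (hf : ¬ PP n c f) :
    ∃ (g : ℕ → ℕ) (s : ℕ), s < n ∧ PP n c g ∧ (∀ v < n, g v ≤ f v) ∧
      (∀ v < n, ¬ InW n c s v → g v = f v) ∧ ∃ v < n, g v < f v := by
  unfold PP at hf
  rw [isP_iff] at hf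
  push Not at hf
  obtain ⟨q, ⟨i, h1, h2, h3⟩, hq⟩ := hf
  obtain ⟨g, hg⟩ : ∃ g : ℕ → ℕ, ∀ v, g v = q (v : ZMod n) := ⟨_, fun _ => rfl⟩
  have hqg : ∀ x : ZMod n, q x = g x.val := fun x => by rw [hg, ZMod.natCast_zmod_val]
  have hle : ∀ v < n, g v ≤ f v := fun v hv => by
    have := h2 (v : ZMod n)
    beta_reduce at this
    rw [val_cast hv] at this
    rw [hg]
    exact this
  refine ⟨g, i.val, ZMod.val_lt i, ?_, hle, fun v hv hW => ?_, ?_⟩
  · have e1 : (fun x : ZMod n => g x.val) = q := funext fun x => (hqg x).symm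
    unfold PP
    rw [e1]
    exact hq
  · have h4 := h1 (v : ZMod n) fun h => hW
      ((inW_iff hc (ZMod.val_lt i) (v : ZMod n) (val_cast hv)).1 (by
        rw [ZMod.natCast_zmod_val]
        exact h))
    beta_reduce at h4
    rw [val_cast hv] at h4
    rw [hg]
    exact h4
  · by_contra hcon
    push Not at hcon
    apply h3
    funext x
    rw [hqg]
    exact le_antisymm (hle _ (ZMod.val_lt x)) (hcon _ (ZMod.val_lt x))

theorem bound (hc : c + 1 ≤ n) {f : ℕ → ℕ} (hf : PP n c f) (i0 : ℕ) (hi0 : i0 < n)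
    (Rp : ℕ → Prop) [DecidablePred Rp] (hR0 : ¬ Rp i0)
    (hR : ∀ s < n, ¬ InW n c s i0 → ∃ s' < n, InW n c s' i0 ∧
      ∀ v < n, Rp v → InW n c s v → InW n c s' v) :
    f i0 ≤ ∑ v ∈ (Finset.range n).filter (fun v => v ≠ i0 ∧ ¬ Rp v), f v := by
  have h := le_of_isP (n := n) (k := c + 1) (by omega) (i0 : ZMod n)
    (Finset.univ.filter fun x : ZMod n => Rp x.val)
    (by rw [Finset.mem_filter, val_cast hi0]; exact fun h => hR0 h.2)
    (fun w hw => by
      have e1 : ((w.val : ℕ) : ZMod n) = w := ZMod.natCast_zmod_val w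
      rw [← e1, inW_iff hc (ZMod.val_lt w) _ (val_cast hi0)] at hw
      obtain ⟨s', hs', h1, h2⟩ := hR w.val (ZMod.val_lt w) hw
      refine ⟨(s' : ZMod n), (inW_iff hc hs' _ (val_cast hi0)).2 h1, fun j hj hjw => ?_⟩
      rw [← e1, inW_iff hc (ZMod.val_lt w) _ rfl] at hjw
      exact (inW_iff hc hs' _ rfl).2 (h2 _ (ZMod.val_lt j) (Finset.mem_filter.1 hj).2 hjw))
    _ _ le_rfl hf
  beta_reduce at h
  rw [val_cast hi0] at h
  refine h.trans (le_of_eq ?_)
  rw [← sum_val (fun x : ZMod n => f x.val) f (fun _ => rfl) (fun v => v ≠ i0 ∧ ¬ Rp v)]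
  refine Finset.sum_congr ?_ fun _ _ => rfl
  ext j
  simp only [Finset.mem_filter, Finset.mem_univ, true_and]
  have : j = (i0 : ZMod n) ↔ j.val = i0 := by
    constructor
    · rintro rfl
      exact val_cast hi0
    · rintro rfl
      exact (ZMod.natCast_zmod_val j).symm
  rw [ne_eq, this]

theorem F1 (hp : Par n c e) {g : ℕ → ℕ} (hg : PP n c g) : g 0 ≤ sL c e g + sM c e g := by
  obtain ⟨he, hec, hc, hn⟩ := hp
  have h := bound (by omega) hg 0 (by omega) (fun v => v ≠ 0 ∧ (v ≤ c ∨ 2 * c < v)) (by omega)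
    (fun s hs hs0 => by
      unfold InW at *
      rcases Nat.lt_or_ge c s with h1 | h1
      · exact ⟨c + e, by omega, by omega, fun v hv h2 h3 => by omega⟩
      · exact ⟨0, by omega, by omega, fun v hv h2 h3 => by omega⟩)
  refine h.trans ?_
  unfold sL sM sm
  refine sum_union_le g _ _ _ fun v hv => ?_
  rw [Finset.mem_filter, Finset.mem_range] at hv
  rw [Finset.mem_Ico, Finset.mem_Ico]
  omega

theorem F2 (hp : Par n c e) {g : ℕ → ℕ} (hg : PP n c g) : g c ≤ sM c e g + sR c e g := by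
  obtain ⟨he, hec, hc, hn⟩ := hp
  have h := bound (by omega) hg c (by omega) (fun v => v ≠ c ∧ v < c + e) (by omega)
    (fun s hs hs0 => by
      unfold InW at *
      rcases Nat.lt_or_ge (c + e - 1) s with h1 | h1
      · exact ⟨0, by omega, by omega, fun v hv h2 h3 => by omega⟩
      · exact ⟨c, by omega, by omega, fun v hv h2 h3 => by omega⟩)
  refine h.trans ?_
  unfold sM sR sm
  refine sum_union_le g _ _ _ fun v hv => ?_
  rw [Finset.mem_filter, Finset.mem_range] at hv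
  rw [Finset.mem_Ico, Finset.mem_Ico]
  omega

theorem F3 (hp : Par n c e) {g : ℕ → ℕ} (hg : PP n c g) : g (2 * c) ≤ g c + sU c g := by
  obtain ⟨he, hec, hc, hn⟩ := hp
  have h := bound (by omega) hg (2 * c) (by omega)
    (fun v => v ≠ 2 * c ∧ (v = 0 ∨ c < v)) (by omega)
    (fun s hs hs0 => by
      unfold InW at *
      rcases Nat.lt_or_ge c s with h1 | h1
      · exact ⟨2 * c, by omega, by omega, fun v hv h2 h3 => by omega⟩
      rcases Nat.eq_zero_or_pos s with h4 | h4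
      · exact ⟨2 * c, by omega, by omega, fun v hv h2 h3 => by omega⟩
      · exact ⟨c, by omega, by omega, fun v hv h2 h3 => by omega⟩)
  refine h.trans ?_
  have h5 : g c + sU c g = sm 1 (c + 1) g := by
    rw [sm_succ g (by omega : 1 ≤ c), add_comm]
    rfl
  rw [h5]
  refine Finset.sum_le_sum_of_subset fun v hv => ?_
  rw [Finset.mem_filter, Finset.mem_range] at hv
  rw [Finset.mem_Ico]
  omega

theorem F4 (hp : Par n c e) {g : ℕ → ℕ} (hg : PP n c g) :
    g (c + 1) ≤ g 0 + sU c g + sR c e g := by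
  obtain ⟨he, hec, hc, hn⟩ := hp
  have h := bound (by omega) hg (c + 1) (by omega)
    (fun v => v ≠ c + 1 ∧ c ≤ v ∧ v ≤ 2 * c) (by omega)
    (fun s hs hs0 => by
      unfold InW at *
      rcases Nat.lt_or_ge c s with h1 | h1
      · exact ⟨c, by omega, by omega, fun v hv h2 h3 => by omega⟩
      · exact ⟨1, by omega, by omega, fun v hv h2 h3 => by omega⟩)
  refine h.trans ?_
  have h5 : g 0 + sU c g = sm 0 c g := (sm_head g (by omega)).symm
  rw [h5]
  unfold sR sm
  refine sum_union_le g _ _ _ fun v hv => ?_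
  rw [Finset.mem_filter, Finset.mem_range] at hv
  rw [Finset.mem_Ico, Finset.mem_Ico]
  omega

end Pool.Agent.W_30d1b9f_h31
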