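import Pool.Agent.W_30d1b9f_h31.Api

/-!
# MP_30d1b9_co: level zero

`zeroPP` is the mirror image of `Pool.Agent.W_30d1b9s_h71.zero_isP`: the reflection
`v ↦ c - v` (mod `n`) exchanges `0` and `c`, reverses `1..c-1`, sends `c+i` (`l_i`) to
`2c+e-i` (`r_{e-i}`) and `c+e+m` (`M_m`) to `2c-m` (`M_{d-m}`), so the condition
`sum l ≤ r_1` becomes `sum r ≤ l_{e-1} = g (c+e-1)`. (A reflection lemma for `IsP` is needed:
`IsP n k p → IsP n k (fun x => p (a - x))`, same proof as `isP_rot`.)

`base`: if `q = 0` on `1..c-1` then `S n c e q 0`: take `K = 0`, `Θ = sum of q over r`,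
`Λ = 0`. If `w1 = w2 = 0` use `zeroPP`. If `g` is P, then `g 0 ≤ sL+sM` (F1), `g c ≤ sM+sR`
(F2), and if one of them is strict then `g` is an option (window `0`) of the P-position with
`g 0, g c` replaced by `sL+sM`, `sM+sR`: contradiction to `noPP`.
-/

namespace Pool.Agent.W_30d1b9f_h31

open Pool.Agent.W_30d1b9_h50 Pool.Agent.W_30d1b9s_h71

variable {n c e : ℕ} [NeZero n]

omit [NeZero n] in
private theorem Base_move {k : ℕ} {p q : ZMod n → ℕ} (a : ZMod n)
    (h : Move n k (fun x => p (a - x)) q) : Move n k p fun x => q (a - x) := by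
  obtain ⟨i, h1, h2, h3⟩ := h
  refine ⟨a - i - ((k - 1 : ℕ) : ZMod n), fun j hj => ?_, fun j => ?_, fun he => ?_⟩
  · have h4 : a - j ∉ window n k i := by
      rintro ⟨t, ht, hjt⟩
      refine hj ⟨k - 1 - t, by omega, ?_⟩
      have h5 : j = a - (i + (t : ZMod n)) := by
        rw [← hjt]
        ring
      have h6 : ((k - 1 - t : ℕ) : ZMod n) = ((k - 1 : ℕ) : ZMod n) - (t : ZMod n) := by
        rw [Nat.cast_sub (by omega)]
      rw [h5, h6]
      ring
    have h5 : q (a - j) = p (a - (a - j)) := h1 _ h4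
    rw [sub_sub_cancel] at h5
    exact h5
  · have h5 : q (a - j) ≤ p (a - (a - j)) := h2 (a - j)
    rw [sub_sub_cancel] at h5
    exact h5
  · apply h3
    funext x
    have h4 := congrFun he (a - x)
    beta_reduce at h4
    rw [sub_sub_cancel] at h4
    exact h4

private theorem Base_refl {k : ℕ} (N : ℕ) : ∀ (p : ZMod n → ℕ) (a : ZMod n), ∑ i, p i ≤ N →
    IsP n k p → IsP n k fun x => p (a - x) := by
  induction N with
  | zero =>
    intro p a hN hp
    rw [isP_iff]
    intro q hq _
    have h1 := (Base_move a hq).lt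
    omega
  | succ N ih =>
    intro p a hN hp
    rw [isP_iff]
    intro q hq hqP
    have h1 := Base_move a hq
    have h2 := h1.lt
    have h3 : ∑ x, q (a - x) = ∑ x, q x :=
      Fintype.sum_equiv (Equiv.subLeft a) _ _ fun x => rfl
    have h4 := ih q a (by rw [h3] at h2; omega) hqP
    exact (isP_iff _).1 hp _ h1 h4

private theorem Base_val {a : ℕ} (ha : a < n) (x : ZMod n) :
    ((a : ZMod n) - x).val = if x.val ≤ a then a - x.val else a + n - x.val := by
  have hx : x.val < n := ZMod.val_lt x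
  have h1 : (x.val : ZMod n) = x := ZMod.natCast_zmod_val x
  split_ifs with h
  · have h2 : ((a : ZMod n) - x) = ((a - x.val : ℕ) : ZMod n) := by
      rw [Nat.cast_sub h, h1]
    rw [h2, val_cast (by omega)]
  · have h2 : ((a : ZMod n) - x) = ((a + n - x.val : ℕ) : ZMod n) := by
      rw [Nat.cast_sub (by omega), h1, Nat.cast_add, ZMod.natCast_self, add_zero]
    rw [h2, val_cast (by omega)]

private theorem Base_sum {a b m : ℕ} (f g : ℕ → ℕ) (hb : b ≤ m + 1)
    (h : ∀ v, a ≤ v → v < b → f v = g (m - v)) :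
    ∑ v ∈ Finset.Ico a b, f v = ∑ v ∈ Finset.Ico (m + 1 - b) (m + 1 - a), g v := by
  rw [← Finset.sum_Ico_reflect g a hb]
  exact Finset.sum_congr rfl fun v hv => h v (Finset.mem_Ico.1 hv).1 (Finset.mem_Ico.1 hv).2

theorem zeroPP (hp : Par n c e) (g : ℕ → ℕ) (hz : ∀ v, 1 ≤ v → v < c → g v = 0)
    (ha : g 0 = sL c e g + sM c e g) (hb : g c = sM c e g + sR c e g)
    (hr : sR c e g ≤ g (c + e - 1)) : PP n c g := by
  obtain ⟨he, hec, hc, hn⟩ := hp
  obtain ⟨f, hf⟩ : ∃ f : ℕ → ℕ, ∀ v, f v = if v ≤ c then g (c - v) else g (c + n - v) :=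
    ⟨_, fun _ => rfl⟩
  have hf1 : ∀ v, v ≤ c → f v = g (c - v) := fun v hv => by rw [hf, if_pos hv]
  have hf2 : ∀ v, c < v → f v = g (c + n - v) := fun v hv => by rw [hf, if_neg (by omega)]
  have sl : ∑ v ∈ Finset.Ico (c + 1) (c + e), f v = sR c e g := by
    rw [Base_sum (m := c + n) f g (by omega) fun v h1 h2 => hf2 v (by omega)]
    have e1 : c + n + 1 - (c + e) = 2 * c + 1 := by omega
    have e2 : c + n + 1 - (c + 1) = 2 * c + e := by omega
    rw [e1, e2]
    rfl
  have sm' : ∑ v ∈ Finset.Ico (c + e) (2 * c + 1), f v = sM c e g := by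
    rw [Base_sum (m := c + n) f g (by omega) fun v h1 h2 => hf2 v (by omega)]
    have e1 : c + n + 1 - (2 * c + 1) = c + e := by omega
    have e2 : c + n + 1 - (c + e) = 2 * c + 1 := by omega
    rw [e1, e2]
    rfl
  have sr : ∑ v ∈ Finset.Ico (2 * c + 1) (2 * c + e), f v = sL c e g := by
    rw [Base_sum (m := c + n) f g (by omega) fun v h1 h2 => hf2 v (by omega)]
    have e1 : c + n + 1 - (2 * c + e) = c + 1 := by omega
    have e2 : c + n + 1 - (2 * c + 1) = c + e := by omega
    rw [e1, e2]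
    rfl
  have key := zero_isP (n := n) (c := c) (e := e) (by omega) (by omega) hn f
    (fun v h1 h2 => by rw [hf1 v (by omega)]; exact hz _ (by omega) (by omega))
    (by rw [hf1 0 (by omega), Nat.sub_zero, hb, sm', sl])
    (by rw [hf1 c le_rfl, Nat.sub_self, ha, sm', sr, add_comm])
    (by
      rw [sl, hf2 (2 * c + 1) (by omega)]
      have e1 : c + n - (2 * c + 1) = c + e - 1 := by omega
      rw [e1]
      exact hr)
  have h1 := Base_refl _ _ (c : ZMod n) le_rfl key
  unfold PP
  have e1 : (fun x : ZMod n => g x.val) = fun x => f ((c : ZMod n) - x).val := by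
    funext x
    have hx : x.val < n := ZMod.val_lt x
    rw [Base_val (by omega) x]
    split_ifs with h
    · rw [hf1 _ (by omega)]
      congr 1
      omega
    · rw [hf2 _ (by omega)]
      congr 1
      omega
  rw [e1]
  exact h1

theorem base (hp : Par n c e) (q : ℕ → ℕ) (hq : ∀ v, 1 ≤ v → v < c → q v = 0) :
    S n c e q 0 := by
  have hp' := hp
  obtain ⟨he, hec, hc, hn⟩ := hp
  refine ⟨0, fun D _ => ⟨sR c e q, fun k hk => ⟨0, fun x _ g hg => ?_⟩⟩⟩
  obtain ⟨hcr, hD, hgk, hgx⟩ := hg
  have hz : ∀ v, 1 ≤ v → v < c → g v = 0 := fun v h1 h2 => by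
    rw [hcr v (by omega) (by unfold Sp; omega)]
    exact hq v h1 h2
  have hU : sU c g = 0 := Finset.sum_eq_zero fun v hv =>
    hz v (Finset.mem_Ico.1 hv).1 (Finset.mem_Ico.1 hv).2
  have hR : sR c e g = sR c e q := sm_congr fun v h1 h2 =>
    hcr v (by omega) (by unfold Sp; omega)
  have hRk : sR c e g ≤ g (c + e - 1) := by
    rw [hR, hgk]
    exact hk
  unfold Fact
  rw [hU, add_zero, add_zero]
  constructor
  · intro hP
    obtain ⟨f, hf⟩ : ∃ f : ℕ → ℕ, f = Function.update
        (Function.update g 0 (sL c e g + sM c e g)) c (sM c e g + sR c e g) := ⟨_, rfl⟩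
    have f0 : f 0 = sL c e g + sM c e g := by
      rw [hf, Function.update_of_ne (by omega), Function.update_self]
    have fc : f c = sM c e g + sR c e g := by
      rw [hf, Function.update_self]
    have fo : ∀ v, v ≠ 0 → v ≠ c → f v = g v := fun v h1 h2 => by
      rw [hf, Function.update_of_ne h2, Function.update_of_ne h1]
    have eL : sL c e f = sL c e g := sm_congr fun v h1 h2 => fo v (by omega) (by omega)
    have eM : sM c e f = sM c e g := sm_congr fun v h1 h2 => fo v (by omega) (by omega)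
    have eR : sR c e f = sR c e g := sm_congr fun v h1 h2 => fo v (by omega) (by omega)
    have hfP : PP n c f := zeroPP hp' f
      (fun v h1 h2 => by rw [fo v (by omega) (by omega)]; exact hz v h1 h2)
      (by rw [f0, eL, eM]) (by rw [fc, eM, eR])
      (by rw [eR, fo (c + e - 1) (by omega) (by omega)]; exact hRk)
    have h1 := F1 hp' hP
    have h2 := F2 hp' hP
    have h3 := noPP (by omega) hfP hP
      (fun v _ => by
        by_cases hv0 : v = 0
        · rw [hv0, f0]
          exact h1
        by_cases hvc : v = c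
        · rw [hvc, fc]
          exact h2
        exact (fo v hv0 hvc).symm.le)
      0 (by omega)
      (fun v _ hW => by
        unfold InW at hW
        exact (fo v (by omega) (by omega)).symm)
    exact ⟨by rw [← f0]; exact (h3 0 (by omega)).symm, by rw [← fc]; exact (h3 c (by omega)).symm⟩
  · rintro ⟨h1, h2⟩
    exact zeroPP hp' g hz h1.symm h2.symm hRk

end Pool.Agent.W_30d1b9f_h31
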