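import Pool.Agent.W_30d1b9f_h31.Api
import Pool.Agent.W_30d1b9f_h31.Evl

/-!
# MP_30d1b9_co: the constant `κ` of the level `q`

Take common thresholds for `h12`, `hex`, `hinc` (`Ev.and`, `Ev.thr`). For `D, k, x` above the
thresholds the P-position of `hex` has `w2 = U` (`h12`), it is unique up to the stacks `≥ n`
(two P-positions at the same `D, k, x` have the same stack `c`, and then the same stack `0` by
`noPP` with the window `0`), and `w1 = sL + sM - g 0` (F1) is a natural number `W D k x`.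

* `W D k (x+1) ≤ W D k x` (`hinc`; `sL` grows by one): constant for `x ≥ Λ'(D,k)`, `= W1 D k`.
* `W1 D (k+1) ≤ W1 D k`: otherwise take the P-position `g` at `(D, k+1, x)`, `x` large, and
  `z = g` with `c+e-1 ↦ k`, `c+1 ↦ x - (W1 D (k+1) - 1 - W1 D k)`: it has the stack `0` and the
  stack `c` of the P-position at its level, so it is P (`PP_congr`), and it is an option of
  `g` (window `e-1`... all changes in `c+1..c+e-1`): `noPP`. So `W1 D k = W2 D` for `k` large.
* `W2 (D+1) ≤ W2 D`: the same with `2c ↦ D`, `c ↦ g c - 1`, `c+1 ↦ x - (W2 (D+1) - 1 - W2 D)`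
  (window `c`). So `W2 D = κ'` for `D` large.

`S n c e q κ'`: if `PP g` then `w2 = U` and `w1 = κ'` by uniqueness; if `w1 = κ'`, `w2 = U` then
`g` has the same stacks `0` and `c` as the P-position at `(D, k, x)`.
-/

namespace Pool.Agent.W_30d1b9f_h31

variable {n c e : ℕ} [NeZero n]

/-- nonincreasing sequences of natural numbers are eventually constant -/
theorem ev_const {F : ℕ → ℕ} {l : ℕ} (h : ∀ x, l ≤ x → F (x + 1) ≤ F x) :
    ∃ l' v, l ≤ l' ∧ ∀ x, l' ≤ x → F x = v := by
  have hmono : ∀ a, l ≤ a → ∀ d, F (a + d) ≤ F a := by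
    intro a ha d
    induction d with
    | zero => exact le_rfl
    | succ d ih => exact (h (a + d) (by omega)).trans ih
  have hne : ∃ v, ∃ x, l ≤ x ∧ F x = v := ⟨F l, l, le_rfl, rfl⟩
  classical
  obtain ⟨x0, hx0, hv⟩ := Nat.find_spec hne
  refine ⟨x0, Nat.find hne, hx0, fun x hx => ?_⟩
  refine le_antisymm ?_ (Nat.find_min' hne ⟨x, hx0.trans hx, rfl⟩)
  have := hmono x0 hx0 (x - x0)
  rw [Nat.add_sub_cancel' hx, hv] at this
  exact this

theorem Const_sums (hp : Par n c e) {q g : ℕ → ℕ} {D k x : ℕ} (h : At n c e q D k x g) :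
    sU c g = sU c q ∧ sR c e g = sR c e q ∧ sM c e g + q (2 * c) = sM c e q + D ∧
      sL c e g + q (c + 1) + q (c + e - 1) = sL c e q + x + k := by
  obtain ⟨he, hec, hc, hn⟩ := hp
  obtain ⟨hC, hD, hk, hx⟩ := h
  refine ⟨?_, ?_, ?_, ?_⟩
  · exact sm_congr fun v h1 h2 => hC v (by omega) (by unfold Sp; omega)
  · exact sm_congr fun v h1 h2 => hC v (by omega) (by unfold Sp; omega)
  · have := sm_one (a := c + e) (b := 2 * c + 1) (v := 2 * c) (f := g) (g := q) (by omega)
      (by omega) fun w h1 h2 h3 => hC w (by omega) (by unfold Sp; omega)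
    rw [hD] at this
    exact this
  · have h1 : ∀ f : ℕ → ℕ, sL c e f = f (c + 1) + sm (c + 1 + 1) (c + e - 1) f + f (c + e - 1) := by
      intro f
      unfold sL
      rw [sm_head f (by omega : c + 1 < c + e)]
      have h2 : c + e = (c + e - 1) + 1 := by omega
      have h3 : sm (c + 1 + 1) (c + e) f = sm (c + 1 + 1) ((c + e - 1) + 1) f := by rw [← h2]
      rw [h3, sm_succ f (by omega : c + 1 + 1 ≤ c + e - 1)]
      omega
    have h4 : sm (c + 1 + 1) (c + e - 1) g = sm (c + 1 + 1) (c + e - 1) q :=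
      sm_congr fun v h1 h2 => hC v (by omega) (by unfold Sp; omega)
    rw [h1 g, h1 q, h4, hx, hk]
    ring

omit [NeZero n] in
theorem Const_core {q g h : ℕ → ℕ} {D k x D' k' x' : ℕ} (hg : At n c e q D k x g)
    (hh : At n c e q D' k' x' h) : ∀ v < n, ¬ Sp c e v → g v = h v := fun v hv hs =>
  (hg.1 v hv hs).trans (hh.1 v hv hs).symm

theorem const (hp : Par n c e) {q : ℕ → ℕ} {K : ℕ} {Θ : ℕ → ℕ}
    {Λ : ℕ → ℕ → ℕ} (h12 : A12 n c e q K Θ Λ) (hT : Monotone Θ)
    (hL : ∀ D D' k k', D ≤ D' → k ≤ k' → Λ D k ≤ Λ D' k')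
    (hex : Ev fun D k x => ∃ g, At n c e q D k x g ∧ PP n c g)
    (hinc : Ev fun D k x => ∀ g h, At n c e q D k (x + 1) g → PP n c g →
      At n c e q D k x h → PP n c h → h 0 + 1 ≤ g 0) :
    ∃ κ', S n c e q κ' := by
  have hev : Ev fun D k x => ∀ g, At n c e q D k x g → PP n c g →
      sM c e g + sR c e g = g c + sU c g :=
    Ev.of_thr K Θ Λ fun D k x h1 h2 h3 g hg hP => h12 g hg.1
      ⟨by rw [hg.2.1]; exact h1, by rw [hg.2.1, hg.2.2.1]; exact h2,
        by rw [hg.2.1, hg.2.2.1, hg.2.2.2]; exact h3⟩ hP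
  obtain ⟨K1, T1, L1, -, -, hQ⟩ := Ev.thr (hex.and (hinc.and hev))
  have hp' := hp
  obtain ⟨he, hec, hc, hn⟩ := hp'
  -- the chosen P-positions
  have hG : ∀ D k x, ∃ g : ℕ → ℕ, K1 ≤ D → T1 D ≤ k → L1 D k ≤ x →
      At n c e q D k x g ∧ PP n c g := by
    intro D k x
    by_cases h : K1 ≤ D ∧ T1 D ≤ k ∧ L1 D k ≤ x
    · obtain ⟨g, hg⟩ := (hQ D k x h.1 h.2.1 h.2.2).1
      exact ⟨g, fun _ _ _ => hg⟩
    · exact ⟨fun _ => 0, fun h1 h2 h3 => absurd ⟨h1, h2, h3⟩ h⟩
  choose G hG using hG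
  obtain ⟨W, hW⟩ : ∃ W : ℕ → ℕ → ℕ → ℕ, ∀ D k x,
      W D k x = sL c e (G D k x) + sM c e (G D k x) - (G D k x) 0 := ⟨_, fun _ _ _ => rfl⟩
  have hW' : ∀ D k x, K1 ≤ D → T1 D ≤ k → L1 D k ≤ x →
      sL c e (G D k x) + sM c e (G D k x) = (G D k x) 0 + W D k x := by
    intro D k x h1 h2 h3
    have := F1 hp (hG D k x h1 h2 h3).2
    have := hW D k x
    omega
  have h2nd : ∀ D k x, K1 ≤ D → T1 D ≤ k → L1 D k ≤ x → ∀ g, At n c e q D k x g → PP n c g →
      sM c e g + sR c e g = g c + sU c g := fun D k x h1 h2 h3 => (hQ D k x h1 h2 h3).2.2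
  -- step 1
  have st1 : ∀ D k x, K1 ≤ D → T1 D ≤ k → L1 D k ≤ x → W D k (x + 1) ≤ W D k x := by
    intro D k x h1 h2 h3
    obtain ⟨a1, a2⟩ := hG D k x h1 h2 h3
    obtain ⟨b1, b2⟩ := hG D k (x + 1) h1 h2 (by omega)
    have h4 := (hQ D k x h1 h2 h3).2.1 _ _ b1 b2 a1 a2
    have h5 := hW' D k x h1 h2 h3
    have h6 := hW' D k (x + 1) h1 h2 (by omega)
    obtain ⟨-, -, s3, s4⟩ := Const_sums hp a1
    obtain ⟨-, -, t3, t4⟩ := Const_sums hp b1
    omega
  have hc1 : ∀ D k, ∃ l' v, K1 ≤ D → T1 D ≤ k → L1 D k ≤ l' ∧ ∀ x, l' ≤ x → W D k x = v := by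
    intro D k
    by_cases h : K1 ≤ D ∧ T1 D ≤ k
    · obtain ⟨l', v, h1, h2⟩ := ev_const (F := W D k) (l := L1 D k)
        fun x hx => st1 D k x h.1 h.2 hx
      exact ⟨l', v, fun _ _ => ⟨h1, h2⟩⟩
    · exact ⟨0, 0, fun h1 h2 => absurd ⟨h1, h2⟩ h⟩
  choose L2 W1 hc1 using hc1
  -- comparison of two P-positions
  have key : ∀ D k x D' k' x', K1 ≤ D → T1 D ≤ k → L1 D k ≤ x → K1 ≤ D' → T1 D' ≤ k' →
      L1 D' k' ≤ x' → D + W D' k' x' + k + x = D' + W D k x + k' + x' →
      D ≤ D' → k ≤ k' → x ≤ x' → (D = D' ∨ k = k') → D = D' ∧ k = k' := by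
    intro D k x D' k' x' h1 h2 h3 h1' h2' h3' hEq hDD hkk hxx hor
    obtain ⟨a1, a2⟩ := hG D k x h1 h2 h3
    obtain ⟨b1, b2⟩ := hG D' k' x' h1' h2' h3'
    have h5 := hW' D k x h1 h2 h3
    have h6 := hW' D' k' x' h1' h2' h3'
    have h7 := h2nd D k x h1 h2 h3 _ a1 a2
    have h8 := h2nd D' k' x' h1' h2' h3' _ b1 b2
    obtain ⟨s1, s2, s3, s4⟩ := Const_sums hp a1
    obtain ⟨t1, t2, t3, t4⟩ := Const_sums hp b1
    have hcore := Const_core a1 b1
    have e0 : (G D k x) 0 = (G D' k' x') 0 := by omega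
    have ec : (G D k x) c + (D' - D) = (G D' k' x') c := by omega
    have hle : ∀ v < n, (G D k x) v ≤ (G D' k' x') v := by
      intro v hv
      by_cases hs : Sp c e v
      · rcases hs with h | h | h | h | h
        · rw [h, e0]
        · rw [h]; omega
        · rw [h, a1.2.2.2, b1.2.2.2]; exact hxx
        · rw [h, a1.2.2.1, b1.2.2.1]; exact hkk
        · rw [h, a1.2.1, b1.2.1]; exact hDD
      · exact (hcore v hv hs).le
    rcases hor with hD | hk
    · -- same D, window c + 1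
      have h9 := noPP (n := n) (c := c) (by omega) b2 a2 hle (c + 1) (by omega) (by
        intro v hv hw
        by_cases hs : Sp c e v
        · rcases hs with h | h | h | h | h
          · rw [h, e0]
          · rw [h]; omega
          · exact absurd (by unfold InW; omega) hw
          · exact absurd (by unfold InW; omega) hw
          · rw [h, a1.2.1, b1.2.1]; exact hD
        · exact hcore v hv hs)
      have h10 := h9 (c + e - 1) (by omega)
      rw [a1.2.2.1, b1.2.2.1] at h10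
      exact ⟨hD, h10⟩
    · have h9 := noPP (n := n) (c := c) (by omega) b2 a2 hle c (by omega) (by
        intro v hv hw
        by_cases hs : Sp c e v
        · rcases hs with h | h | h | h | h
          · rw [h, e0]
          · exact absurd (by unfold InW; omega) hw
          · exact absurd (by unfold InW; omega) hw
          · rw [h, a1.2.2.1, b1.2.2.1]; exact hk
          · exact absurd (by unfold InW; omega) hw
        · exact hcore v hv hs)
      have h10 := h9 (2 * c) (by omega)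
      rw [a1.2.1, b1.2.1] at h10
      exact ⟨h10, hk⟩
  -- step 2
  have st2 : ∀ D k, K1 ≤ D → T1 D ≤ k → W1 D (k + 1) ≤ W1 D k := by
    intro D k h1 h2
    by_contra hcon
    obtain ⟨a1, a2⟩ := hc1 D k h1 h2
    obtain ⟨b1, b2⟩ := hc1 D (k + 1) h1 (by omega)
    obtain ⟨d, hd⟩ : ∃ d, W1 D (k + 1) = W1 D k + 1 + d := ⟨W1 D (k + 1) - W1 D k - 1, by omega⟩
    obtain ⟨y, hy⟩ : ∃ y, y = max (L2 D k) (L2 D (k + 1)) := ⟨_, rfl⟩
    have hy1 : L2 D k ≤ y := by rw [hy]; exact le_max_left _ _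
    have hy2 : L2 D (k + 1) ≤ y := by rw [hy]; exact le_max_right _ _
    have e1 := a2 y hy1
    have e2 := b2 (y + d) (by omega)
    have := key D k y D (k + 1) (y + d) h1 h2 (by omega) h1 (by omega) (by omega) (by omega)
      le_rfl (by omega) (by omega) (Or.inl rfl)
    omega
  have hc2 : ∀ D, ∃ t' v, K1 ≤ D → T1 D ≤ t' ∧ ∀ k, t' ≤ k → W1 D k = v := by
    intro D
    by_cases h : K1 ≤ D
    · obtain ⟨t', v, h1, h2⟩ := ev_const (F := W1 D) (l := T1 D) fun k hk => st2 D k h hk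
      exact ⟨t', v, fun _ => ⟨h1, h2⟩⟩
    · exact ⟨0, 0, fun h1 => absurd h1 h⟩
  choose T2 W2 hc2 using hc2
  -- step 3
  have st3 : ∀ D, K1 ≤ D → W2 (D + 1) ≤ W2 D := by
    intro D h1
    by_contra hcon
    obtain ⟨a1, a2⟩ := hc2 D h1
    obtain ⟨b1, b2⟩ := hc2 (D + 1) (by omega)
    obtain ⟨d, hd⟩ : ∃ d, W2 (D + 1) = W2 D + 1 + d := ⟨W2 (D + 1) - W2 D - 1, by omega⟩
    obtain ⟨k, hk⟩ : ∃ k, k = max (T2 D) (T2 (D + 1)) := ⟨_, rfl⟩
    have hk1 : T2 D ≤ k := by rw [hk]; exact le_max_left _ _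
    have hk2 : T2 (D + 1) ≤ k := by rw [hk]; exact le_max_right _ _
    have e1 := a2 k hk1
    have e2 := b2 k hk2
    obtain ⟨c1, c2⟩ := hc1 D k h1 (by omega)
    obtain ⟨d1, d2⟩ := hc1 (D + 1) k (by omega) (by omega)
    obtain ⟨y, hy⟩ : ∃ y, y = max (L2 D k) (L2 (D + 1) k) := ⟨_, rfl⟩
    have hy1 : L2 D k ≤ y := by rw [hy]; exact le_max_left _ _
    have hy2 : L2 (D + 1) k ≤ y := by rw [hy]; exact le_max_right _ _
    have e3 := c2 y hy1
    have e4 := d2 (y + d) (by omega)
    have := key D k y (D + 1) k (y + d) h1 (by omega) (by omega) (by omega) (by omega) (by omega)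
      (by omega) (by omega) le_rfl (by omega) (Or.inr rfl)
    omega
  obtain ⟨K3, κ', hK3, hκ⟩ := ev_const (F := W2) (l := K1) st3
  refine ⟨κ', K3, fun D hD => ⟨T2 D, fun k hk => ⟨L2 D k, fun x hx => ?_⟩⟩⟩
  intro g hg
  obtain ⟨a1, a2⟩ := hc2 D (by omega)
  obtain ⟨b1, b2⟩ := hc1 D k (by omega) (by omega)
  have hval : W D k x = κ' := by rw [b2 x hx, a2 k hk, hκ D hD]
  have g1 : K1 ≤ D := by omega
  have g2 : T1 D ≤ k := by omega
  have g3 : L1 D k ≤ x := by omega
  obtain ⟨p1, p2⟩ := hG D k x g1 g2 g3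
  have h5 := hW' D k x g1 g2 g3
  have h7 := h2nd D k x g1 g2 g3 _ p1 p2
  obtain ⟨s1, s2, s3, s4⟩ := Const_sums hp p1
  obtain ⟨t1, t2, t3, t4⟩ := Const_sums hp hg
  have hcore := Const_core p1 hg
  have hall : ∀ {f h : ℕ → ℕ}, At n c e q D k x f → At n c e q D k x h → f 0 = h 0 →
      f c = h c → ∀ v < n, f v = h v := by
    intro f h hf hh e0 ec v hv
    by_cases hs : Sp c e v
    · rcases hs with h' | h' | h' | h' | h'
      · rw [h', e0]
      · rw [h', ec]
      · rw [h', hf.2.2.2, hh.2.2.2]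
      · rw [h', hf.2.2.1, hh.2.2.1]
      · rw [h', hf.2.1, hh.2.1]
    · exact Const_core hf hh v hv hs
  constructor
  · intro hP
    have h8 := h2nd D k x g1 g2 g3 g hg hP
    refine ⟨?_, h8⟩
    have ec : g c = (G D k x) c := by omega
    have e0 : g 0 = (G D k x) 0 := by
      rcases le_total (g 0) ((G D k x) 0) with hle | hle
      · refine noPP (n := n) (c := c) (by omega) p2 hP ?_ 0 (by omega) ?_ 0 (by omega)
        · intro v hv
          by_cases hv0 : v = 0
          · rw [hv0]; exact hle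
          · by_cases hs : Sp c e v
            · rcases hs with h' | h' | h' | h' | h'
              · exact absurd h' hv0
              · rw [h', ec]
              · rw [h', hg.2.2.2, p1.2.2.2]
              · rw [h', hg.2.2.1, p1.2.2.1]
              · rw [h', hg.2.1, p1.2.1]
            · exact (hcore v hv hs).ge
        · intro v hv hw
          by_cases hs : Sp c e v
          · rcases hs with h' | h' | h' | h' | h'
            · exact absurd (by unfold InW; omega) hw
            · rw [h', ec]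
            · rw [h', hg.2.2.2, p1.2.2.2]
            · rw [h', hg.2.2.1, p1.2.2.1]
            · rw [h', hg.2.1, p1.2.1]
          · exact (hcore v hv hs).symm
      · refine (noPP (n := n) (c := c) (by omega) hP p2 ?_ 0 (by omega) ?_ 0 (by omega)).symm
        · intro v hv
          by_cases hv0 : v = 0
          · rw [hv0]; exact hle
          · by_cases hs : Sp c e v
            · rcases hs with h' | h' | h' | h' | h'
              · exact absurd h' hv0
              · rw [h', ec]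
              · rw [h', hg.2.2.2, p1.2.2.2]
              · rw [h', hg.2.2.1, p1.2.2.1]
              · rw [h', hg.2.1, p1.2.1]
            · exact (hcore v hv hs).le
        · intro v hv hw
          by_cases hs : Sp c e v
          · rcases hs with h' | h' | h' | h' | h'
            · exact absurd (by unfold InW; omega) hw
            · rw [h', ec]
            · rw [h', hg.2.2.2, p1.2.2.2]
            · rw [h', hg.2.2.1, p1.2.2.1]
            · rw [h', hg.2.1, p1.2.1]
          · exact hcore v hv hs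
    omega
  · rintro ⟨q1, q2⟩
    exact PP_congr (hall p1 hg (by omega) (by omega)) p2

end Pool.Agent.W_30d1b9f_h31
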