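import Pool.Agent.W_30d1b9s_h71.Half

/-!
# MP_30d1b9_co, Circular Nim `CN(2c+e, c+1)`, `e < c < 2e`: definitions

Stacks: `0` (`a`), `1..c-1` (`u`), `c` (`b`), `c+1..c+e-1` (`l`), `c+e..2c` (`M`),
`2c+1..2c+e-1` (`r`). Three special outer stacks: `x = c+1`, `k = c+e-1`, `D = 2c`.
The core of a position: all stacks except `0, c, c+1, c+e-1, 2c`.
-/

namespace Pool.Agent.W_30d1b9f_h31

open Pool.Agent.W_30d1b9_h50

/-- the parameters: `n = 2c+e`, `3 ≤ e < c < 2e` -/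
structure Par (n c e : ℕ) : Prop where
  he : 3 ≤ e
  hec : e < c
  hc : c < 2 * e
  hn : n = 2 * c + e

/-- the position with the stacks `f 0, ..., f (n-1)` is a P-position of `CN(n, c+1)` -/
def PP (n c : ℕ) [NeZero n] (f : ℕ → ℕ) : Prop := IsP n (c + 1) fun x : ZMod n => f x.val

/-- the stack `v < n` is in the window `s, ..., s+c` (mod `n`) -/
def InW (n c s v : ℕ) : Prop := (s ≤ v ∧ v ≤ s + c) ∨ v + n ≤ s + c

/-- sums over an interval -/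
def sm (a b : ℕ) (f : ℕ → ℕ) : ℕ := ∑ v ∈ Finset.Ico a b, f v

def sU (c : ℕ) (f : ℕ → ℕ) : ℕ := sm 1 c f

def sL (c e : ℕ) (f : ℕ → ℕ) : ℕ := sm (c + 1) (c + e) f

def sM (c e : ℕ) (f : ℕ → ℕ) : ℕ := sm (c + e) (2 * c + 1) f

def sR (c e : ℕ) (f : ℕ → ℕ) : ℕ := sm (2 * c + 1) (2 * c + e) f

/-- the special stacks (not in the core) -/
def Sp (c e v : ℕ) : Prop := v = 0 ∨ v = c ∨ v = c + 1 ∨ v = c + e - 1 ∨ v = 2 * c

/-- same core -/
def Cr (n c e : ℕ) (g q : ℕ → ℕ) : Prop := ∀ v < n, ¬ Sp c e v → g v = q v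

/-- core of `g` at most core of `q` -/
def Cle (n c e : ℕ) (g q : ℕ → ℕ) : Prop := ∀ v < n, ¬ Sp c e v → g v ≤ q v

/-- core of `g` strictly below the core of `q` -/
def Clt (n c e : ℕ) (g q : ℕ → ℕ) : Prop :=
  Cle n c e g q ∧ ∃ v < n, ¬ Sp c e v ∧ g v < q v

/-- `g` has the core of `q` and the special stacks `D, k, x` -/
def At (n c e : ℕ) (q : ℕ → ℕ) (D k x : ℕ) (g : ℕ → ℕ) : Prop :=
  Cr n c e g q ∧ g (2 * c) = D ∧ g (c + e - 1) = k ∧ g (c + 1) = x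

/-- `g` is a P-position iff `w1 = κ` and `w2 = U` -/
def Fact (n c e : ℕ) [NeZero n] (κ : ℕ) (g : ℕ → ℕ) : Prop :=
  PP n c g ↔ sL c e g + sM c e g = g 0 + κ ∧ sM c e g + sR c e g = g c + sU c g

/-- for all large `D`, for all large `k`, for all large `x` -/
def Ev (Q : ℕ → ℕ → ℕ → Prop) : Prop :=
  ∃ K, ∀ D, K ≤ D → ∃ t, ∀ k, t ≤ k → ∃ l, ∀ x, l ≤ x → Q D k x

/-- the main statement for the core of `q` -/
def S (n c e : ℕ) [NeZero n] (q : ℕ → ℕ) (κ : ℕ) : Prop :=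
  Ev fun D k x => ∀ g, At n c e q D k x g → Fact n c e κ g

/-- `g` is in the stable region given by the thresholds `K, Θ, Λ` -/
def Reg (c e : ℕ) (K : ℕ) (Θ : ℕ → ℕ) (Λ : ℕ → ℕ → ℕ) (g : ℕ → ℕ) : Prop :=
  K ≤ g (2 * c) ∧ Θ (g (2 * c)) ≤ g (c + e - 1) ∧
    Λ (g (2 * c)) (g (c + e - 1)) ≤ g (c + 1)

/-- The environment: everything known about the levels below the core of `q`, with uniform
thresholds. -/
structure Env (n c e : ℕ) [NeZero n] (q : ℕ → ℕ) (κ : (ℕ → ℕ) → ℕ) (km N K : ℕ) (Θ : ℕ → ℕ)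
    (Λ : ℕ → ℕ → ℕ) : Prop where
  /-- `q` is flat -/
  flat : ∀ v, e ≤ v → v < c → q v = 0
  /-- `κ` depends on the core only -/
  core : ∀ g g', Cr n c e g g' → κ g = κ g'
  /-- `κ` is bounded on the lower levels -/
  bd : ∀ g, Clt n c e g q → κ g ≤ km
  /-- `N` bounds the core sums -/
  sum : ∀ g, Cle n c e g q → sU c g + sR c e g ≤ N ∧
    sL c e g ≤ g (c + 1) + g (c + e - 1) + N ∧ sM c e g ≤ g (2 * c) + N
  monT : Monotone Θ
  monL : ∀ D D' k k', D ≤ D' → k ≤ k' → Λ D k ≤ Λ D' k'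
  /-- the lower levels are known -/
  low : ∀ g, Clt n c e g q → Reg c e K Θ Λ g → Fact n c e (κ g) g
  /-- `κ` does not increase when tokens are added to `l` or `M` -/
  mono : ∀ g g', Clt n c e g q → Cle n c e g' g →
    (∀ v < n, ¬ Sp c e v → g' v ≠ g v → c < v ∧ v < 2 * c) → κ g ≤ κ g'

/-- A1 and A2 for the core of `q` itself, in the stable region -/
def A12 (n c e : ℕ) [NeZero n] (q : ℕ → ℕ) (K : ℕ) (Θ : ℕ → ℕ) (Λ : ℕ → ℕ → ℕ) : Prop :=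
  ∀ g, Cr n c e g q → Reg c e K Θ Λ g → PP n c g → sM c e g + sR c e g = g c + sU c g

end Pool.Agent.W_30d1b9f_h31
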