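import Pool.Agent.W_30d1b9f_h31.Kill
import Pool.Agent.W_30d1b9f_h31.Evl

/-!
# MP_30d1b9_co: existence of a P-position at the level `q` for all large `D, k, x`

`exist1`: if `g` is P take `z = g`. Otherwise `exP` gives a P-position `z ≤ g` and a window
`s < n`. By F1, F2 for `z`: the number of tokens removed from `l, M` is `≤ lo` (if `z 0 = g 0`)
and from `M, r` is `≤ U g ≤ N` (if `z c = g c`); so all special stacks stay in `Reg`.

* `s = 0`: `l, M, r` unchanged. If `u` changed: `Clt z q`, `E.low z`:
  `sM g + sR g = z c + sU z < g c + sU g`: contradiction. Otherwise `Cr z q` and `h12 z`: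
  `z c = g c`: only `0` changed.
* `1 ≤ s ≤ e-1` (`{u_{≥s}, b, l_{≤s}}`): `z 0 = g 0`, `M, r` unchanged. By `E.low z` (if
  `Clt z q`) or `h12 z`: `sM g + sR g = z c + sU z`, so `z c = g c`, `u` unchanged: `killL`
  (`sL z < sL g` because something changed).
* `e ≤ s ≤ c` (`{u_{≥s} (zero), b, l, M_..}`): `z 0 = g 0`, `u, r` unchanged, `w2 z = U`, `killL`.
* `c < s < c+e` (`{l_.., M, r_..}`): `z 0 = g 0`, `z c = g c`, `u` unchanged:
  `sM z + sR z = g c + sU g = sM g + sR g`, so `M, r` unchanged: `killL`.
* `c+e ≤ s`: `z c = g c`, `l` unchanged. If `Clt z q`: `E.low z`: `sM z + sR z = g c + sU z`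
  so `δ = g - z` (on `u, M, r`) is `Rem` (note `1 ≤ sU δ`: otherwise `M, r` unchanged too and
  then the core is unchanged) and `sL g + sM g - sM δ = z 0 + κ z ≤ g 0 + κ z`: contradiction to
  `hlo1`. Otherwise `h12 z` gives `z (2c) = g (2c)`: only `0` changed.

`exist`: `lo` exists (`Nat.find`; bounded by `km + N + 1`, `E.bd`, `sM δ ≤ sU δ ≤ sU q ≤ N`);
apply `exist1` to `g = q` with the special stacks `D, k, x`, `0 ↦ sL + sM - lo`,
`c ↦ sM + sR - sU`.
-/

namespace Pool.Agent.W_30d1b9f_h31

variable {n c e : ℕ} [NeZero n]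

private theorem sm_diff {a b v : ℕ} {f g : ℕ → ℕ} (h : ∀ w, a ≤ w → w < b → f w ≤ g w)
    (ha : a ≤ v) (hb : v < b) : g v + sm a b f ≤ f v + sm a b g := by
  have h1 := sm_upd_in f (g v) ha hb
  have h2 : sm a b (Function.update f v (g v)) ≤ sm a b g := sm_le fun w h3 h4 => by
    by_cases hw : w = v
    · subst hw; rw [Function.update_self]
    · rw [Function.update_of_ne hw]; exact h w h3 h4
  omega

private theorem clt_of {q z : ℕ → ℕ} (hcle : Cle n c e z q) (h : ¬ Cr n c e z q) :
    Clt n c e z q := by
  unfold Cr at h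
  push Not at h
  obtain ⟨v, hv, hs, hne⟩ := h
  exact ⟨hcle, v, hv, hs, lt_of_le_of_ne (hcle v hv hs) hne⟩

private theorem w2_of {q : ℕ → ℕ} {κ : (ℕ → ℕ) → ℕ} {km N K : ℕ} {Θ : ℕ → ℕ}
    {Λ : ℕ → ℕ → ℕ} (E : Env n c e q κ km N K Θ Λ) (h12 : A12 n c e q K Θ Λ) {z : ℕ → ℕ}
    (hcle : Cle n c e z q) (hreg : Reg c e K Θ Λ z) (hz : PP n c z) :
    sM c e z + sR c e z = z c + sU c z := by
  by_cases h : Cr n c e z q
  · exact h12 z h hreg hz
  · exact ((E.low z (clt_of hcle h) hreg).1 hz).2

theorem exist1 (hp : Par n c e) {q : ℕ → ℕ} {κ : (ℕ → ℕ) → ℕ} {km N K : ℕ} {Θ : ℕ → ℕ}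
    {Λ : ℕ → ℕ → ℕ} (E : Env n c e q κ km N K Θ Λ) (h12 : A12 n c e q K Θ Λ) {lo : ℕ}
    (hlo1 : ∀ δ, Rem n c e q δ → κ (fun v => q v - δ v) + sM c e δ < lo)
    (hlo2 : 1 ≤ lo → ∃ δ, Rem n c e q δ ∧ lo ≤ κ (fun v => q v - δ v) + sM c e δ + 1)
    {g : ℕ → ℕ} (hcr : Cr n c e g q) (hK : K + lo + 4 * N ≤ g (2 * c))
    (hT : Θ (g (2 * c)) + lo ≤ g (c + e - 1))
    (hL : Λ (g (2 * c)) (g (c + e - 1)) + km + lo ≤ g (c + 1))
    (hw1 : sL c e g + sM c e g = g 0 + lo) (hw2 : sM c e g + sR c e g = g c + sU c g) :
    ∃ z, PP n c z ∧ ∀ v < n, v ≠ 0 → z v = g v := by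
  by_cases hg : PP n c g
  · exact ⟨g, hg, fun _ _ _ => rfl⟩
  obtain ⟨he, hec, hc, hn⟩ := hp
  obtain ⟨z, s, hs, hz, hle, hW, v0, hv0, hv0'⟩ := exP (by omega) hg
  have f1 := F1 ⟨he, hec, hc, hn⟩ hz
  have f2 := F2 ⟨he, hec, hc, hn⟩ hz
  have hcle : Cle n c e z q := fun v hv hsp => (hle v hv).trans (hcr v hv hsp).le
  have hgle : Cle n c e g q := fun v hv hsp => (hcr v hv hsp).le
  have sz := E.sum z hcle
  have sg := E.sum g hgle
  have h0 := hle 0 (by omega)
  have hcc := hle c (by omega)
  -- block inequalities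
  have lU : sU c z ≤ sU c g := sm_le fun w _ h2 => hle w (by omega)
  have lL : sL c e z ≤ sL c e g := sm_le fun w _ h2 => hle w (by omega)
  have lM : sM c e z ≤ sM c e g := sm_le fun w _ h2 => hle w (by omega)
  have lR : sR c e z ≤ sR c e g := sm_le fun w _ h2 => hle w (by omega)
  have dD : g (2 * c) + sM c e z ≤ z (2 * c) + sM c e g :=
    sm_diff (fun w _ h2 => hle w (by omega)) (by omega) (by omega)
  have dk : g (c + e - 1) + sL c e z ≤ z (c + e - 1) + sL c e g :=
    sm_diff (fun w _ h2 => hle w (by omega)) (by omega) (by omega)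
  have dx : g (c + 1) + sL c e z ≤ z (c + 1) + sL c e g :=
    sm_diff (fun w _ h2 => hle w (by omega)) (by omega) (by omega)
  have eU : sU c z = sU c g → ∀ v, 1 ≤ v → v < c → z v = g v := fun h =>
    sm_eq_of (fun w _ h2 => hle w (by omega)) h
  have eM : sM c e z = sM c e g → ∀ v, c + e ≤ v → v < 2 * c + 1 → z v = g v := fun h =>
    sm_eq_of (fun w _ h2 => hle w (by omega)) h
  have eR : sR c e z = sR c e g → ∀ v, 2 * c + 1 ≤ v → v < 2 * c + e → z v = g v := fun h =>
    sm_eq_of (fun w _ h2 => hle w (by omega)) h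
  have cU : (∀ v, 1 ≤ v → v < c → z v = g v) → sU c z = sU c g := fun h => sm_congr h
  have cL : (∀ v, c + 1 ≤ v → v < c + e → z v = g v) → sL c e z = sL c e g :=
    fun h => sm_congr h
  have cM : (∀ v, c + e ≤ v → v < 2 * c + 1 → z v = g v) → sM c e z = sM c e g :=
    fun h => sm_congr h
  have cR : (∀ v, 2 * c + 1 ≤ v → v < 2 * c + e → z v = g v) → sR c e z = sR c e g :=
    fun h => sm_congr h
  have tL : ∀ v, c + 1 ≤ v → v < c + e → z v < g v → sL c e z < sL c e g := fun v h1 h2 h3 =>
    sm_lt (fun w _ h2 => hle w (by omega)) h1 h2 h3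
  have tM : ∀ v, c + e ≤ v → v < 2 * c + 1 → z v < g v → sM c e z < sM c e g :=
    fun v h1 h2 h3 => sm_lt (fun w _ h2 => hle w (by omega)) h1 h2 h3
  have mT := E.monT (hle (2 * c) (by omega))
  have mL := E.monL (z (2 * c)) (g (2 * c)) (z (c + e - 1)) (g (c + e - 1))
    (hle (2 * c) (by omega)) (hle (c + e - 1) (by omega))
  have hcore : ∀ v < n, ¬ Sp c e v → g v = q v := hcr
  unfold InW at hW
  rcases Nat.lt_or_ge s (c + e) with hs1 | hs1
  · -- windows which do not contain `0`, or `s = 0`
    by_cases hs0 : s = 0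
    · -- case A
      subst hs0
      have a1 : ∀ v < n, c < v → z v = g v := fun v hv h1 => hW v hv (by omega)
      have rL := cL fun v h1 h2 => a1 v (by omega) (by omega)
      have rM := cM fun v h1 h2 => a1 v (by omega) (by omega)
      have rR := cR fun v h1 h2 => a1 v (by omega) (by omega)
      have hw := w2_of E h12 hcle ⟨by omega, by omega, by omega⟩ hz
      have u1 := eU (by omega)
      refine ⟨z, hz, fun v hv hv1 => ?_⟩
      rcases Nat.lt_trichotomy v c with h | h | h
      · exact u1 v (by omega) h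
      · subst h; omega
      · exact a1 v hv h
    · -- `z 0 = g 0`
      exfalso
      have z0 : z 0 = g 0 := hW 0 (by omega) (by omega)
      have b1 : sL c e g + sM c e g ≤ sL c e z + sM c e z + lo := by omega
      have hw := w2_of E h12 hcle ⟨by omega, by omega, by omega⟩ hz
      rcases Nat.lt_or_ge s e with hs2 | hs2
      · -- case B
        have a1 : ∀ v < n, c + e ≤ v → z v = g v := fun v hv h1 => hW v hv (by omega)
        have rM := cM fun v h1 h2 => a1 v (by omega) (by omega)
        have rR := cR fun v h1 h2 => a1 v (by omega) (by omega)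
        have u1 := eU (by omega)
        have v1 : c + 1 ≤ v0 ∧ v0 < c + e := by
          by_contra hcon
          rcases Nat.lt_or_ge v0 (c + e) with h | h
          · have h3 : v0 = 0 ∨ (1 ≤ v0 ∧ v0 < c) ∨ v0 = c := by omega
            rcases h3 with rfl | h3 | rfl
            · omega
            · have := u1 v0 h3.1 h3.2; omega
            · omega
          · have := a1 v0 hv0 h; omega
        have t1 := tL v0 v1.1 v1.2 hv0'
        refine killL ⟨he, hec, hc, hn⟩ E hlo2 hz hcle (fun v hv hsp hne => ?_) (by omega) hw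
          (by omega) (by omega) (by omega)
        rw [← hcore v hv hsp] at hne
        by_contra hcon
        unfold Sp at hsp
        rcases Nat.lt_or_ge v c with h | h
        · exact hne (u1 v (by omega) h)
        · exact hne (a1 v hv (by omega))
      rcases Nat.lt_or_ge c s with hs3 | hs3
      · -- case D
        have a1 : ∀ v < n, v ≤ c → z v = g v := fun v hv h1 => hW v hv (by omega)
        have rU := cU fun v h1 h2 => a1 v (by omega) (by omega)
        have zc := a1 c (by omega) le_rfl
        have u1 := eM (by omega)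
        have u2 := eR (by omega)
        have v1 : c + 1 ≤ v0 ∧ v0 < c + e := by
          by_contra hcon
          rcases Nat.lt_or_ge c v0 with h | h
          · rcases Nat.lt_or_ge v0 (2 * c + 1) with h' | h'
            · have := u1 v0 (by omega) h'; omega
            · have := u2 v0 h' (by omega); omega
          · have := a1 v0 hv0 h; omega
        have t1 := tL v0 v1.1 v1.2 hv0'
        refine killL ⟨he, hec, hc, hn⟩ E hlo2 hz hcle (fun v hv hsp hne => ?_) (by omega) hw
          (by omega) (by omega) (by omega)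
        rw [← hcore v hv hsp] at hne
        by_contra hcon
        unfold Sp at hsp
        rcases Nat.lt_or_ge c v with h | h
        · exact hne (u2 v (by omega) (by omega))
        · exact hne (a1 v hv h)
      · -- case C
        have a1 : ∀ v < n, v < c → z v = g v := fun v hv h1 => by
          by_cases h2 : s ≤ v
          · have h3 := E.flat v (by omega) h1
            have h4 := hcore v hv (by unfold Sp; omega)
            have h5 := hle v hv
            omega
          · exact hW v hv (by omega)
        have a2 : ∀ v < n, 2 * c < v → z v = g v := fun v hv h1 => hW v hv (by omega)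
        have rU := cU fun v h1 h2 => a1 v (by omega) (by omega)
        have rR := cR fun v h1 h2 => a2 v (by omega) (by omega)
        have t1 : sL c e z + sM c e z < sL c e g + sM c e g := by
          rcases Nat.lt_or_ge v0 (c + 1) with h | h
          · rcases Nat.lt_or_ge v0 c with h' | h'
            · have := a1 v0 hv0 h'; omega
            · have : v0 = c := by omega
              subst this
              omega
          · rcases Nat.lt_or_ge v0 (c + e) with h' | h'
            · have := tL v0 h h' hv0'; omega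
            · rcases Nat.lt_or_ge v0 (2 * c + 1) with h'' | h''
              · have := tM v0 h' h'' hv0'; omega
              · have := a2 v0 hv0 (by omega); omega
        refine killL ⟨he, hec, hc, hn⟩ E hlo2 hz hcle (fun v hv hsp hne => ?_) (by omega) hw
          (by omega) (by omega) (by omega)
        rw [← hcore v hv hsp] at hne
        by_contra hcon
        unfold Sp at hsp
        rcases Nat.lt_or_ge v c with h | h
        · exact hne (a1 v hv h)
        · exact hne (a2 v hv (by omega))
  · -- case E
    have a1 : ∀ v < n, c ≤ v → v < c + e → z v = g v := fun v hv h1 h2 => hW v hv (by omega)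
    have zc := a1 c (by omega) le_rfl (by omega)
    have rL := cL fun v h1 h2 => a1 v (by omega) (by omega) h2
    have hreg : Reg c e K Θ Λ z := ⟨by omega, by omega, by omega⟩
    have hw := w2_of E h12 hcle hreg hz
    by_cases hcz : Cr n c e z q
    · have rU := cU fun v h1 h2 => by
        rw [hcz v (by omega) (by unfold Sp; omega), hcore v (by omega) (by unfold Sp; omega)]
      have u1 := eM (by omega)
      have u2 := eR (by omega)
      refine ⟨z, hz, fun v hv hv1 => ?_⟩
      rcases Nat.lt_or_ge v c with h | h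
      · rw [hcz v hv (by unfold Sp; omega), hcore v hv (by unfold Sp; omega)]
      rcases Nat.lt_or_ge v (c + e) with h' | h'
      · exact a1 v hv h h'
      rcases Nat.lt_or_ge v (2 * c + 1) with h'' | h''
      · exact u1 v h' h''
      · exact u2 v h'' (by omega)
    · exfalso
      have hclt := clt_of hcle hcz
      have hfact := (E.low z hclt hreg).1 hz
      obtain ⟨δ, hδ⟩ : ∃ δ : ℕ → ℕ, ∀ v, δ v = if v = 0 then 0 else g v - z v := ⟨_, fun _ => rfl⟩
      have hδ0 : ∀ v, v ≠ 0 → δ v = g v - z v := fun v hv => by rw [hδ, if_neg hv]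
      have hsum : ∀ a b, 1 ≤ a → b ≤ n → sm a b δ + sm a b z = sm a b g := by
        intro a b ha hb
        unfold sm
        rw [← Finset.sum_add_distrib]
        refine Finset.sum_congr rfl fun v hv => ?_
        rw [Finset.mem_Ico] at hv
        have := hle v (by omega)
        rw [hδ0 v (by omega)]
        omega
      have sU' : sU c δ + sU c z = sU c g := hsum _ _ le_rfl (by omega)
      have sM' : sM c e δ + sM c e z = sM c e g := hsum _ _ (by omega) (by omega)
      have sR' : sR c e δ + sR c e z = sR c e g := hsum _ _ (by omega) (by omega)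
      have hR : Rem n c e q δ := by
        refine ⟨fun v hv hsp => ?_, fun v hv hne => ?_, ?_, by omega, s, hs1, hs,
          fun v hv hne => ?_⟩
        · have : v ≠ 0 := by unfold Sp at hsp; omega
          rw [hδ0 v this, ← hcore v hv hsp]
          omega
        · by_contra hcon
          have hv1 : v ≠ 0 := by
            rintro rfl
            rw [hδ] at hne
            simp at hne
          rw [hδ0 v hv1] at hne
          have := a1 v hv (by omega) (by omega)
          omega
        · by_contra hcon
          have u0 := eU (by omega)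
          have u1 := eM (by omega)
          have u2 := eR (by omega)
          apply hcz
          intro v hv hsp
          rw [← hcore v hv hsp]
          unfold Sp at hsp
          rcases Nat.lt_or_ge v c with h | h
          · exact u0 v (by omega) h
          rcases Nat.lt_or_ge v (c + e) with h' | h'
          · exact a1 v hv h h'
          rcases Nat.lt_or_ge v (2 * c + 1) with h'' | h''
          · exact u1 v h' h''
          · exact u2 v h'' (by omega)
        · by_contra hcon
          have hv1 : v ≠ 0 := by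
            rintro rfl
            rw [hδ] at hne
            simp at hne
          rw [hδ0 v hv1] at hne
          have := hW v hv hcon
          omega
      have h3 := hlo1 δ hR
      have h4 : κ z = κ (fun v => q v - δ v) := E.core _ _ fun v hv hsp => by
        have hv1 : v ≠ 0 := by unfold Sp at hsp; omega
        have h5 := hcore v hv hsp
        have h6 := hle v hv
        rw [hδ0 v hv1]
        omega
      rw [h4] at hfact
      have := hfact.1
      omega

theorem exist (hp : Par n c e) {q : ℕ → ℕ} {κ : (ℕ → ℕ) → ℕ} {km N K : ℕ} {Θ : ℕ → ℕ}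
    {Λ : ℕ → ℕ → ℕ} (E : Env n c e q κ km N K Θ Λ) (h12 : A12 n c e q K Θ Λ) :
    Ev fun D k x => ∃ g, At n c e q D k x g ∧ PP n c g := by
  classical
  obtain ⟨he, hec, hc, hn⟩ := hp
  have hsq := E.sum q fun v _ _ => le_rfl
  have hex : ∃ lo, ∀ δ, Rem n c e q δ → κ (fun v => q v - δ v) + sM c e δ < lo := by
    refine ⟨km + N + 1, fun δ hδ => ?_⟩
    obtain ⟨r1, r2, r3, r4, _⟩ := hδ
    have h1 : sU c δ ≤ sU c q := sm_le fun v h1 h2 => r1 v (by omega) (by unfold Sp; omega)
    have h2 : Clt n c e (fun v => q v - δ v) q := by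
      refine ⟨fun v _ _ => Nat.sub_le _ _, ?_⟩
      obtain ⟨v, h2, h3, h4⟩ := sm_pos (by unfold sU at r3; omega : 0 < sm 1 c δ)
      have h5 := r1 v (by omega) (by unfold Sp; omega)
      refine ⟨v, by omega, by unfold Sp; omega, ?_⟩
      change q v - δ v < q v
      omega
    have h3 := E.bd _ h2
    omega
  obtain ⟨lo, hlo1, hlo2⟩ : ∃ lo, (∀ δ, Rem n c e q δ → κ (fun v => q v - δ v) + sM c e δ < lo) ∧
      (1 ≤ lo → ∃ δ, Rem n c e q δ ∧ lo ≤ κ (fun v => q v - δ v) + sM c e δ + 1) := by
    refine ⟨Nat.find hex, Nat.find_spec hex, fun h1 => ?_⟩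
    have h2 := Nat.find_min hex (m := Nat.find hex - 1) (by omega)
    push Not at h2
    obtain ⟨δ, h3, h4⟩ := h2
    exact ⟨δ, h3, by omega⟩
  refine ⟨K + lo + 4 * N, fun D hD => ⟨Θ D + lo, fun k hk => ⟨Λ D k + km + lo, fun x hx => ?_⟩⟩⟩
  obtain ⟨g0, hg0⟩ : ∃ g0 : ℕ → ℕ, g0 = Function.update (Function.update
    (Function.update q (2 * c) D) (c + e - 1) k) (c + 1) x := ⟨_, rfl⟩
  have p1 : g0 (c + 1) = x := by rw [hg0, Function.update_self]
  have p2 : g0 (c + e - 1) = k := by
    rw [hg0, Function.update_of_ne (by omega), Function.update_self]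
  have p3 : g0 (2 * c) = D := by
    rw [hg0, Function.update_of_ne (by omega), Function.update_of_ne (by omega),
      Function.update_self]
  have p4 : ∀ v, v ≠ c + 1 → v ≠ c + e - 1 → v ≠ 2 * c → g0 v = q v := fun v h1 h2 h3 => by
    rw [hg0, Function.update_of_ne h1, Function.update_of_ne h2, Function.update_of_ne h3]
  obtain ⟨g, hg⟩ : ∃ g : ℕ → ℕ, g = Function.update (Function.update g0 0
    (sL c e g0 + sM c e g0 - lo)) c (sM c e g0 + sR c e g0 - sU c g0) := ⟨_, rfl⟩
  have q1 : g c = sM c e g0 + sR c e g0 - sU c g0 := by rw [hg, Function.update_self]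
  have q2 : g 0 = sL c e g0 + sM c e g0 - lo := by
    rw [hg, Function.update_of_ne (by omega), Function.update_self]
  have q3 : ∀ v, v ≠ 0 → v ≠ c → g v = g0 v := fun v h1 h2 => by
    rw [hg, Function.update_of_ne h2, Function.update_of_ne h1]
  have s1 : sL c e g = sL c e g0 := sm_congr fun v h1 h2 => q3 v (by omega) (by omega)
  have s2 : sM c e g = sM c e g0 := sm_congr fun v h1 h2 => q3 v (by omega) (by omega)
  have s3 : sR c e g = sR c e g0 := sm_congr fun v h1 h2 => q3 v (by omega) (by omega)
  have s4 : sU c g = sU c g0 := sm_congr fun v h1 h2 => q3 v (by omega) (by omega)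
  have hcr : Cr n c e g q := fun v hv hsp => by
    unfold Sp at hsp
    rw [q3 v (by omega) (by omega), p4 v (by omega) (by omega) (by omega)]
  have s5 := (E.sum g fun v hv hsp => (hcr v hv hsp).le).1
  have s6 : g0 (2 * c) ≤ sM c e g0 := sm_ge g0 (by omega) (by omega)
  have r1 : g (2 * c) = D := by rw [q3 _ (by omega) (by omega), p3]
  have r2 : g (c + e - 1) = k := by rw [q3 _ (by omega) (by omega), p2]
  have r3 : g (c + 1) = x := by rw [q3 _ (by omega) (by omega), p1]
  obtain ⟨z, hz, hzg⟩ := exist1 ⟨he, hec, hc, hn⟩ E h12 hlo1 hlo2 hcr (by omega)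
    (by rw [r1, r2]; exact hk) (by rw [r1, r2, r3]; exact hx) (by omega) (by omega)
  refine ⟨z, ⟨fun v hv hsp => ?_, ?_, ?_, ?_⟩, hz⟩
  · rw [hzg v hv (by unfold Sp at hsp; omega), hcr v hv hsp]
  · rw [hzg _ (by omega) (by omega), r1]
  · rw [hzg _ (by omega) (by omega), r2]
  · rw [hzg _ (by omega) (by omega), r3]

end Pool.Agent.W_30d1b9f_h31
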