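import Pool.Agent.W_30d1b9f_h31.Api
import Pool.Agent.W_30d1b9f_h31.Evl

/-!
# MP_30d1b9_co: lower bounds for `κ`

`lb1` (`x0 ∈ X = [1, c-e]`): thresholds of both. `g` = P-position of the level `q1`
(`g 0 = sL + sM - κ1`, `g c = sM + sR - sU`). `z = g` with `x0 ↦ g x0 - 1`, `2c ↦ D - 1`,
`0 ↦ sL g + sM g - 1 - κ2`: level `q2`, `w1 = κ2`, `w2 = sM + sR - 1 - g c = U - 1`. If
`κ1 ≤ κ2 + 1` it is an option of `g` (window `2c`): contradiction.

`lb2` (`x0 ∈ [1, c)`, uses one token of the stack `n-1 = 2c+e-1`): `z = g` with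
`x0 ↦ g x0 - 1`, `n-1 ↦ g (n-1) - 1`, `0 ↦ sL g + sM g - κ2`; window `n-1`.
-/

namespace Pool.Agent.W_30d1b9f_h31

variable {n c e : ℕ} [NeZero n]

/-- the position with `w1 = κ`, `w2 = U` -/
theorem LB_mk (hp : Par n c e) (q : ℕ → ℕ) (κ D k x : ℕ) (hx : κ ≤ x) (hD : sU c q ≤ D) :
    ∃ g, At n c e q D k x g ∧ sL c e g + sM c e g = g 0 + κ ∧
      sM c e g + sR c e g = g c + sU c g := by
  obtain ⟨he, hec, hc, hn⟩ := hp
  obtain ⟨g0, hg0⟩ : ∃ g0 : ℕ → ℕ, g0 = fun v =>
    if v = c + 1 then x else if v = c + e - 1 then k else if v = 2 * c then D else q v := ⟨_, rfl⟩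
  have e1 : g0 (c + 1) = x := by rw [hg0]; simp
  have e2 : g0 (c + e - 1) = k := by
    rw [hg0]
    have : c + e - 1 ≠ c + 1 := by omega
    simp [this]
  have e3 : g0 (2 * c) = D := by
    rw [hg0]
    have h1 : 2 * c ≠ c + 1 := by omega
    have h2 : 2 * c ≠ c + e - 1 := by omega
    simp [h1, h2]
  have e4 : ∀ v, v ≠ c + 1 → v ≠ c + e - 1 → v ≠ 2 * c → g0 v = q v := by
    intro v h1 h2 h3
    rw [hg0]
    simp [h1, h2, h3]
  have hU : sU c g0 = sU c q := sm_congr fun v h1 h2 => e4 v (by omega) (by omega) (by omega)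
  have hL : x ≤ sL c e g0 := by
    have := sm_ge (a := c + 1) (b := c + e) (v := c + 1) g0 le_rfl (by omega)
    rw [e1] at this
    exact this
  have hM : D ≤ sM c e g0 := by
    have := sm_ge (a := c + e) (b := 2 * c + 1) (v := 2 * c) g0 (by omega) (by omega)
    rw [e3] at this
    exact this
  obtain ⟨A, hA⟩ : ∃ A, A = sL c e g0 + sM c e g0 - κ := ⟨_, rfl⟩
  obtain ⟨B, hB⟩ : ∃ B, B = sM c e g0 + sR c e g0 - sU c g0 := ⟨_, rfl⟩
  refine ⟨Function.update (Function.update g0 0 A) c B, ?_, ?_, ?_⟩
  · refine ⟨?_, ?_, ?_, ?_⟩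
    · intro v _ hs
      unfold Sp at hs
      rw [Function.update_of_ne (by omega), Function.update_of_ne (by omega)]
      exact e4 v (by omega) (by omega) (by omega)
    · rw [Function.update_of_ne (by omega), Function.update_of_ne (by omega)]
      exact e3
    · rw [Function.update_of_ne (by omega), Function.update_of_ne (by omega)]
      exact e2
    · rw [Function.update_of_ne (by omega), Function.update_of_ne (by omega)]
      exact e1
  · have h1 : sL c e (Function.update (Function.update g0 0 A) c B) = sL c e g0 := by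
      unfold sL
      rw [sm_upd_out _ _ (by omega), sm_upd_out _ _ (by omega)]
    have h2 : sM c e (Function.update (Function.update g0 0 A) c B) = sM c e g0 := by
      unfold sM
      rw [sm_upd_out _ _ (by omega), sm_upd_out _ _ (by omega)]
    rw [h1, h2, Function.update_of_ne (by omega), Function.update_self]
    omega
  · have h2 : sM c e (Function.update (Function.update g0 0 A) c B) = sM c e g0 := by
      unfold sM
      rw [sm_upd_out _ _ (by omega), sm_upd_out _ _ (by omega)]
    have h3 : sR c e (Function.update (Function.update g0 0 A) c B) = sR c e g0 := by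
      unfold sR
      rw [sm_upd_out _ _ (by omega), sm_upd_out _ _ (by omega)]
    have h4 : sU c (Function.update (Function.update g0 0 A) c B) = sU c g0 := by
      unfold sU
      rw [sm_upd_out _ _ (by omega), sm_upd_out _ _ (by omega)]
    rw [h2, h3, h4, Function.update_self]
    omega

theorem lb1 (hp : Par n c e) {q1 q2 : ℕ → ℕ} {κ1 κ2 : ℕ} (h1 : S n c e q1 κ1)
    (h2 : S n c e q2 κ2) {x0 : ℕ} (hx1 : 1 ≤ x0) (hx2 : x0 + e ≤ c)
    (hx : q1 x0 = q2 x0 + 1) (hne : ∀ w < n, ¬ Sp c e w → w ≠ x0 → q1 w = q2 w) :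
    κ2 + 2 ≤ κ1 := by
  obtain ⟨K1, T1, L1, _, _, H1⟩ := Ev.thr h1
  obtain ⟨K2, T2, L2, _, _, H2⟩ := Ev.thr h2
  obtain ⟨D, hD⟩ : ∃ D, D = K1 + K2 + sU c q1 + 1 := ⟨_, rfl⟩
  obtain ⟨k, hk⟩ : ∃ k, k = T1 D + T2 (D - 1) := ⟨_, rfl⟩
  obtain ⟨x, hxx⟩ : ∃ x, x = L1 D k + L2 (D - 1) k + κ1 + κ2 + 1 := ⟨_, rfl⟩
  have F1 := H1 D k x (by omega) (by omega) (by omega)
  have F2 := H2 (D - 1) k x (by omega) (by omega) (by omega)
  obtain ⟨g, hAt, hw1, hw2⟩ := LB_mk hp q1 κ1 D k x (by omega) (by omega)
  have hPg : PP n c g := (F1 g hAt).2 ⟨hw1, hw2⟩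
  obtain ⟨hCr, gD, gk, gx⟩ := hAt
  obtain ⟨he, hec, hc, hn⟩ := hp
  by_contra hcon
  have hgx0 : g x0 = q2 x0 + 1 := by
    rw [hCr x0 (by omega) (by unfold Sp; omega), hx]
  have hLx : x ≤ sL c e g := by
    have := sm_ge (a := c + 1) (b := c + e) (v := c + 1) g le_rfl (by omega)
    rw [gx] at this
    exact this
  obtain ⟨Z, hZ⟩ : ∃ Z, Z = sL c e g + sM c e g - 1 - κ2 := ⟨_, rfl⟩
  obtain ⟨z, hz⟩ : ∃ z, z = Function.update (Function.update (Function.update g x0 (g x0 - 1))
    (2 * c) (D - 1)) 0 Z := ⟨_, rfl⟩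
  have z0 : z 0 = Z := by rw [hz, Function.update_self]
  have zD : z (2 * c) = D - 1 := by
    rw [hz, Function.update_of_ne (by omega), Function.update_self]
  have zx0 : z x0 = g x0 - 1 := by
    rw [hz, Function.update_of_ne (by omega), Function.update_of_ne (by omega),
      Function.update_self]
  have zo : ∀ v, v ≠ 0 → v ≠ 2 * c → v ≠ x0 → z v = g v := by
    intro v a1 a2 a3
    rw [hz, Function.update_of_ne a1, Function.update_of_ne a2, Function.update_of_ne a3]
  have hM1 : D ≤ sM c e g := by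
    have := sm_ge (a := c + e) (b := 2 * c + 1) (v := 2 * c) g (by omega) (by omega)
    rw [gD] at this
    exact this
  have sLz : sL c e z = sL c e g := by
    unfold sL
    exact sm_congr fun v a1 a2 => zo v (by omega) (by omega) (by omega)
  have sRz : sR c e z = sR c e g := by
    unfold sR
    exact sm_congr fun v a1 a2 => zo v (by omega) (by omega) (by omega)
  have sMz : sM c e z + 1 = sM c e g := by
    have := sm_one (f := z) (g := g) (a := c + e) (b := 2 * c + 1) (v := 2 * c) (by omega)
      (by omega) (fun w a1 a2 a3 => zo w (by omega) a3 (by omega))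
    rw [zD, gD] at this
    unfold sM
    omega
  have sUz : sU c z + 1 = sU c g := by
    have := sm_one (f := z) (g := g) (a := 1) (b := c) (v := x0) hx1
      (by omega) (fun w a1 a2 a3 => zo w (by omega) (by omega) a3)
    rw [zx0] at this
    unfold sU
    omega
  have hAz : At n c e q2 (D - 1) k x z := by
    refine ⟨?_, zD, ?_, ?_⟩
    · intro v hv hs
      by_cases hvx : v = x0
      · subst hvx
        rw [zx0]
        omega
      · have hs' := hs
        unfold Sp at hs'
        rw [zo v (by omega) (by omega) hvx, hCr v hv hs]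
        exact hne v hv hs hvx
    · rw [zo _ (by omega) (by omega) (by omega)]
      exact gk
    · rw [zo _ (by omega) (by omega) (by omega)]
      exact gx
  have hPz : PP n c z := by
    refine (F2 z hAz).2 ⟨?_, ?_⟩
    · rw [sLz, z0]
      omega
    · rw [sRz, zo c (by omega) (by omega) (by omega)]
      omega
  have hle : ∀ v < n, z v ≤ g v := by
    intro v _
    by_cases a1 : v = 0
    · subst a1
      rw [z0]
      omega
    · by_cases a2 : v = 2 * c
      · subst a2
        rw [zD, gD]
        omega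
      · by_cases a3 : v = x0
        · subst a3
          rw [zx0]
          omega
        · rw [zo v a1 a2 a3]
  have hend := noPP (by omega) hPg hPz hle (2 * c) (by omega) (by
    intro v hv hW
    unfold InW at hW
    exact zo v (by omega) (by omega) (by omega)) (2 * c) (by omega)
  rw [zD, gD] at hend
  omega

theorem lb2 (hp : Par n c e) {q1 q2 : ℕ → ℕ} {κ1 κ2 : ℕ} (h1 : S n c e q1 κ1)
    (h2 : S n c e q2 κ2) {x0 : ℕ} (hx1 : 1 ≤ x0) (hx2 : x0 < c)
    (hx : q1 x0 = q2 x0 + 1) (hx' : q1 (n - 1) = q2 (n - 1) + 1)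
    (hne : ∀ w < n, ¬ Sp c e w → w ≠ x0 → w ≠ n - 1 → q1 w = q2 w) :
    κ2 + 1 ≤ κ1 := by
  obtain ⟨K1, T1, L1, _, _, H1⟩ := Ev.thr h1
  obtain ⟨K2, T2, L2, _, _, H2⟩ := Ev.thr h2
  obtain ⟨D, hD⟩ : ∃ D, D = K1 + K2 + sU c q1 + 1 := ⟨_, rfl⟩
  obtain ⟨k, hk⟩ : ∃ k, k = T1 D + T2 D := ⟨_, rfl⟩
  obtain ⟨x, hxx⟩ : ∃ x, x = L1 D k + L2 D k + κ1 + κ2 + 1 := ⟨_, rfl⟩
  have F1 := H1 D k x (by omega) (by omega) (by omega)
  have F2 := H2 D k x (by omega) (by omega) (by omega)
  obtain ⟨g, hAt, hw1, hw2⟩ := LB_mk hp q1 κ1 D k x (by omega) (by omega)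
  have hPg : PP n c g := (F1 g hAt).2 ⟨hw1, hw2⟩
  obtain ⟨hCr, gD, gk, gx⟩ := hAt
  obtain ⟨he, hec, hc, hn⟩ := hp
  by_contra hcon
  have hgx0 : g x0 = q2 x0 + 1 := by
    rw [hCr x0 (by omega) (by unfold Sp; omega), hx]
  have hgn : g (n - 1) = q2 (n - 1) + 1 := by
    rw [hCr (n - 1) (by omega) (by unfold Sp; omega), hx']
  have hLx : x ≤ sL c e g := by
    have := sm_ge (a := c + 1) (b := c + e) (v := c + 1) g le_rfl (by omega)
    rw [gx] at this
    exact this
  obtain ⟨Z, hZ⟩ : ∃ Z, Z = sL c e g + sM c e g - κ2 := ⟨_, rfl⟩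
  obtain ⟨z, hz⟩ : ∃ z, z = Function.update (Function.update (Function.update g x0 (g x0 - 1))
    (n - 1) (g (n - 1) - 1)) 0 Z := ⟨_, rfl⟩
  have z0 : z 0 = Z := by rw [hz, Function.update_self]
  have zn : z (n - 1) = g (n - 1) - 1 := by
    rw [hz, Function.update_of_ne (by omega), Function.update_self]
  have zx0 : z x0 = g x0 - 1 := by
    rw [hz, Function.update_of_ne (by omega), Function.update_of_ne (by omega),
      Function.update_self]
  have zo : ∀ v, v ≠ 0 → v ≠ n - 1 → v ≠ x0 → z v = g v := by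
    intro v a1 a2 a3
    rw [hz, Function.update_of_ne a1, Function.update_of_ne a2, Function.update_of_ne a3]
  have sLz : sL c e z = sL c e g := by
    unfold sL
    exact sm_congr fun v a1 a2 => zo v (by omega) (by omega) (by omega)
  have sMz : sM c e z = sM c e g := by
    unfold sM
    exact sm_congr fun v a1 a2 => zo v (by omega) (by omega) (by omega)
  have sRz : sR c e z + 1 = sR c e g := by
    have := sm_one (f := z) (g := g) (a := 2 * c + 1) (b := 2 * c + e) (v := n - 1) (by omega)
      (by omega) (fun w a1 a2 a3 => zo w (by omega) a3 (by omega))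
    rw [zn] at this
    unfold sR
    omega
  have sUz : sU c z + 1 = sU c g := by
    have := sm_one (f := z) (g := g) (a := 1) (b := c) (v := x0) hx1
      (by omega) (fun w a1 a2 a3 => zo w (by omega) (by omega) a3)
    rw [zx0] at this
    unfold sU
    omega
  have hAz : At n c e q2 D k x z := by
    refine ⟨?_, ?_, ?_, ?_⟩
    · intro v hv hs
      by_cases hvx : v = x0
      · subst hvx
        rw [zx0]
        omega
      · by_cases hvn : v = n - 1
        · subst hvn
          rw [zn]
          omega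
        · have hs' := hs
          unfold Sp at hs'
          rw [zo v (by omega) hvn hvx, hCr v hv hs]
          exact hne v hv hs hvx hvn
    · rw [zo _ (by omega) (by omega) (by omega)]
      exact gD
    · rw [zo _ (by omega) (by omega) (by omega)]
      exact gk
    · rw [zo _ (by omega) (by omega) (by omega)]
      exact gx
  have hPz : PP n c z := by
    refine (F2 z hAz).2 ⟨?_, ?_⟩
    · rw [sLz, z0]
      omega
    · rw [sMz, zo c (by omega) (by omega) (by omega)]
      omega
  have hle : ∀ v < n, z v ≤ g v := by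
    intro v _
    by_cases a1 : v = 0
    · subst a1
      rw [z0]
      omega
    · by_cases a2 : v = n - 1
      · subst a2
        rw [zn]
        omega
      · by_cases a3 : v = x0
        · subst a3
          rw [zx0]
          omega
        · rw [zo v a1 a2 a3]
  have hend := noPP (by omega) hPg hPz hle (n - 1) (by omega) (by
    intro v hv hW
    unfold InW at hW
    exact zo v (by omega) (by omega) (by omega)) (n - 1) (by omega)
  rw [zn] at hend
  omega

/-- if all levels are known, `κ ≥ 2 U_X + U_G` -/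
theorem lb (hp : Par n c e) {κ : (ℕ → ℕ) → ℕ}
    (hcore : ∀ g g', Cr n c e g g' → κ g = κ g')
    (hS : ∀ q, (∀ v, e ≤ v → v < c → q v = 0) → S n c e q (κ q)) (q : ℕ → ℕ)
    (hq : ∀ v, e ≤ v → v < c → q v = 0) (hr : sm (c - e + 1) e q ≤ q (n - 1)) :
    2 * sm 1 (c - e + 1) q + sm (c - e + 1) e q ≤ κ q := by
  have key : ∀ (m : ℕ) (q : ℕ → ℕ), sm 1 (c - e + 1) q + sm (c - e + 1) e q = m →
      (∀ v, e ≤ v → v < c → q v = 0) → sm (c - e + 1) e q ≤ q (n - 1) →
      2 * sm 1 (c - e + 1) q + sm (c - e + 1) e q ≤ κ q := by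
    intro m
    induction m with
    | zero =>
      intro q hm _ _
      omega
    | succ m ih =>
      intro q hm hq hr
      have hp' := hp
      obtain ⟨he, hec, hc, hn⟩ := hp'
      by_cases hX : 0 < sm 1 (c - e + 1) q
      · obtain ⟨x0, a1, a2, a3⟩ := sm_pos hX
        have b1 := sm_upd_in (a := 1) (b := c - e + 1) (v := x0) q (q x0 - 1) a1 a2
        have b2 := sm_upd_out (a := c - e + 1) (b := e) (v := x0) q (q x0 - 1) (by omega)
        have hq' : ∀ v, e ≤ v → v < c → Function.update q x0 (q x0 - 1) v = 0 := by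
          intro v v1 v2
          rw [Function.update_of_ne (by omega)]
          exact hq v v1 v2
        have hn1 : Function.update q x0 (q x0 - 1) (n - 1) = q (n - 1) :=
          Function.update_of_ne (by omega) _ _
        have h3 := ih (Function.update q x0 (q x0 - 1)) (by omega) hq' (by omega)
        have h4 := lb1 hp (hS q hq) (hS _ hq') (x0 := x0) a1 (by omega)
          (by rw [Function.update_self]; omega)
          (fun w _ _ hw => (Function.update_of_ne hw _ _).symm)
        omega
      · have hG : 0 < sm (c - e + 1) e q := by omega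
        obtain ⟨x0, a1, a2, a3⟩ := sm_pos hG
        obtain ⟨q', hq'⟩ : ∃ q', q' = Function.update (Function.update q x0 (q x0 - 1)) (n - 1)
          (q (n - 1) - 1) := ⟨_, rfl⟩
        have c1 : q' (n - 1) = q (n - 1) - 1 := by rw [hq', Function.update_self]
        have c2 : q' x0 = q x0 - 1 := by
          rw [hq', Function.update_of_ne (by omega), Function.update_self]
        have c3 : ∀ v, v ≠ x0 → v ≠ n - 1 → q' v = q v := by
          intro v v1 v2
          rw [hq', Function.update_of_ne v2, Function.update_of_ne v1]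
        have b1 : sm 1 (c - e + 1) q' = sm 1 (c - e + 1) q :=
          sm_congr fun v v1 v2 => c3 v (by omega) (by omega)
        have b2 := sm_one (f := q') (g := q) (a := c - e + 1) (b := e) (v := x0) a1 a2
          (fun w w1 w2 w3 => c3 w w3 (by omega))
        have hflat : ∀ v, e ≤ v → v < c → q' v = 0 := by
          intro v v1 v2
          rw [c3 v (by omega) (by omega)]
          exact hq v v1 v2
        have h3 := ih q' (by omega) hflat (by omega)
        have h4 := lb2 hp (hS q hq) (hS q' hflat) (x0 := x0) (by omega) (by omega)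
          (by omega) (by omega) (fun w _ _ hw1 hw2 => (c3 w hw1 hw2).symm)
        omega
  exact key _ q rfl hq hr

end Pool.Agent.W_30d1b9f_h31
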