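import Pool.Agent.W_30d1b9f_h31.Step
import Pool.Agent.W_30d1b9f_h31.LB

/-!
# MP_30d1b9_co: `CN(2c+e, c+1)`, `3 ≤ e < c < 2e`, has no period `T`

Let `q v = 0` on `e..c-1`, `q (n-1) = e T`, and `q v = T` for all other `v < n`. By `main` and `lb`:
`(c-1) T ≤ κ q` (`2 (c-e) T + (2e-1-c) T`). Take `D, k, x` large, `y` the P-position of the level
`q` (`y 0 = sL + sM - κ q`, `y c = sM + sR - sU`, `sU = (e-1) T`), and `w` = `y` with the stacks
`e..c-1` raised to `T`, `n-1` raised by `(c-e) T`, `0` raised by `κ q - (c-1) T`. `w - T` is zero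
on `1..c-1` and satisfies the hypotheses of `zeroPP`, so it is P and `w` is P (`hinv`). `w → y`
is a move in the window `n-1`: `noPP`, contradiction at the stack `e` (`e < c`, `T ≥ 1`).
-/

namespace Pool.Agent.W_30d1b9f_h31

open Pool.Agent.W_30d1b9_h50

variable {n c e : ℕ} [NeZero n]

theorem fin_sm_add {a b : ℕ} (f g : ℕ → ℕ) (T : ℕ) (h : ∀ v, a ≤ v → v < b → f v = g v + T) :
    sm a b f = sm a b g + (b - a) * T := by
  rw [sm_congr h]
  unfold sm
  rw [Finset.sum_add_distrib, Finset.sum_const, Nat.card_Ico, smul_eq_mul]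

theorem no_period (hp : Par n c e) {T : ℕ} (hT : 1 ≤ T)
    (hinv : ∀ p : ZMod n → ℕ, IsP n (c + 1) p → IsP n (c + 1) fun x => p x + T) : False := by
  obtain ⟨κ, hcore, hS⟩ := main (n := n) hp
  obtain ⟨q, hqd⟩ : ∃ q : ℕ → ℕ, ∀ v, q v = if e ≤ v ∧ v < c then 0 else
      if v = n - 1 then e * T else T := ⟨_, fun _ => rfl⟩
  obtain ⟨he, hec, hc, hn⟩ := id hp
  have hflat : ∀ v, e ≤ v → v < c → q v = 0 := fun v h1 h2 => by rw [hqd, if_pos ⟨h1, h2⟩]
  have hqn : q (n - 1) = e * T := by
    rw [hqd, if_neg (by omega), if_pos rfl]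
  have hqT : ∀ v, v ≠ n - 1 → (v < e ∨ c ≤ v) → q v = T := fun v h1 h2 => by
    rw [hqd, if_neg (by omega), if_neg h1]
  -- the products
  have p1 : (e - 1) * T + T = e * T := by
    rw [← Nat.succ_mul]; congr 1; omega
  have p2 : (c - 1) * T + T = c * T := by
    rw [← Nat.succ_mul]; congr 1; omega
  have p3 : (c - e) * T + e * T = c * T := by
    rw [← Nat.add_mul]; congr 1; omega
  have p4 : (2 * c + 1 - (c + e)) * T = (c - e) * T + T := by
    rw [← Nat.succ_mul]; congr 1; omega
  have s1 : sm (c - e + 1) e q = (e - (c - e + 1)) * T :=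
    sm_const T fun v h1 h2 => hqT v (by omega) (by omega)
  have s2 : sm 1 (c - e + 1) q = (c - e) * T := by
    rw [sm_const T fun v h1 h2 => hqT v (by omega) (by omega)]
    congr 1
  have s3 : sm 1 c q = (e - 1) * T := by
    rw [sm_split q (show 1 ≤ e by omega) hec.le, sm_const T fun v h1 h2 => hqT v (by omega) (by omega),
      sm_const 0 fun v h1 h2 => hflat v h1 h2]
    omega
  have hlb := lb (n := n) hp hcore hS q hflat (by
    rw [s1, hqn]
    exact Nat.mul_le_mul_right _ (by omega))
  rw [s1, s2] at hlb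
  have p5 : 2 * ((c - e) * T) + (e - (c - e + 1)) * T = (c - 1) * T := by
    rw [← Nat.mul_assoc, ← Nat.add_mul]; congr 1; omega
  rw [p5] at hlb
  obtain ⟨K, hK⟩ := hS q hflat
  obtain ⟨t, ht⟩ := hK (K + e * T + T) (by omega)
  obtain ⟨l, hl⟩ := ht (t + T + sR c e q + (c - e) * T) (by omega)
  have hx := hl (l + κ q + T) (by omega)
  generalize κ q = κq at hlb hx
  obtain ⟨D, hD⟩ : ∃ D, D = K + e * T + T := ⟨_, rfl⟩
  obtain ⟨k, hk⟩ : ∃ k, k = t + T + sR c e q + (c - e) * T := ⟨_, rfl⟩
  obtain ⟨x, hxx⟩ : ∃ x, x = l + κq + T := ⟨_, rfl⟩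
  rw [← hD, ← hk, ← hxx] at hx
  obtain ⟨o, ho⟩ : ∃ o : ℕ → ℕ, ∀ v, o v = if v = c + 1 then x else if v = c + e - 1 then k else
      if v = 2 * c then D else q v := ⟨_, fun _ => rfl⟩
  obtain ⟨y, hy⟩ : ∃ y : ℕ → ℕ, ∀ v, y v = if v = 0 then sL c e o + sM c e o - κq else
      if v = c then sM c e o + sR c e o - (e - 1) * T else o v := ⟨_, fun _ => rfl⟩
  have oq : ∀ v, v ≠ c + 1 → v ≠ c + e - 1 → v ≠ 2 * c → o v = q v := fun v h1 h2 h3 => by
    rw [ho, if_neg h1, if_neg h2, if_neg h3]
  have yo : ∀ v, v ≠ 0 → v ≠ c → y v = o v := fun v h1 h2 => by rw [hy, if_neg h1, if_neg h2]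
  have ox : o (c + 1) = x := by rw [ho, if_pos rfl]
  have ok : o (c + e - 1) = k := by rw [ho, if_neg (by omega), if_pos rfl]
  have oD : o (2 * c) = D := by rw [ho, if_neg (by omega), if_neg (by omega), if_pos rfl]
  have y0 : y 0 = sL c e o + sM c e o - κq := by rw [hy, if_pos rfl]
  have yc : y c = sM c e o + sR c e o - (e - 1) * T := by rw [hy, if_neg (by omega), if_pos rfl]
  have hat : At n c e q D k x y := by
    refine ⟨fun v hv hsp => ?_, ?_, ?_, ?_⟩
    · unfold Sp at hsp
      rw [yo v (by omega) (by omega), oq v (by omega) (by omega) (by omega)]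
    · rw [yo _ (by omega) (by omega), oD]
    · rw [yo _ (by omega) (by omega), ok]
    · rw [yo _ (by omega) (by omega), ox]
  have eL : sL c e y = sL c e o := sm_congr fun v h1 h2 => yo v (by omega) (by omega)
  have eM : sM c e y = sM c e o := sm_congr fun v h1 h2 => yo v (by omega) (by omega)
  have eR : sR c e y = sR c e o := sm_congr fun v h1 h2 => yo v (by omega) (by omega)
  have eRq : sR c e o = sR c e q :=
    sm_congr fun v h1 h2 => oq v (by omega) (by omega) (by omega)
  have eU : sU c y = (e - 1) * T := by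
    rw [← s3]
    exact sm_congr fun v h1 h2 => by
      rw [yo v (by omega) (by omega), oq v (by omega) (by omega) (by omega)]
  have gL : x ≤ sL c e o := by
    rw [← ox]
    exact sm_ge o (by omega) (by omega)
  have gM : D ≤ sM c e o := by
    rw [← oD]
    exact sm_ge o (by omega) (by omega)
  have hPy : PP n c y := by
    have hF := hx y hat
    unfold Fact at hF
    rw [hF, eL, eM, eR, eU, y0, yc]
    omega
  -- the position `w`
  obtain ⟨w, hw⟩ : ∃ w : ℕ → ℕ, ∀ v, w v = if v = 0 then y 0 + (κq - (c - 1) * T) else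
      if e ≤ v ∧ v < c then T else if v = n - 1 then y (n - 1) + (c - e) * T else y v :=
    ⟨_, fun _ => rfl⟩
  have w0 : w 0 = y 0 + (κq - (c - 1) * T) := by rw [hw, if_pos rfl]
  have wY : ∀ v, e ≤ v → v < c → w v = T := fun v h1 h2 => by
    rw [hw, if_neg (by omega), if_pos ⟨h1, h2⟩]
  have wn : w (n - 1) = y (n - 1) + (c - e) * T := by
    rw [hw, if_neg (by omega), if_neg (by omega), if_pos rfl]
  have wy : ∀ v, v ≠ 0 → ¬ (e ≤ v ∧ v < c) → v ≠ n - 1 → w v = y v := fun v h1 h2 h3 => by
    rw [hw, if_neg h1, if_neg h2, if_neg h3]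
  have yn : y (n - 1) = e * T := by
    rw [yo _ (by omega) (by omega), oq _ (by omega) (by omega) (by omega), hqn]
  have hge : ∀ v < n, T ≤ w v := by
    intro v hv
    by_cases h0 : v = 0
    · subst h0
      rw [w0, y0]
      omega
    by_cases h1 : e ≤ v ∧ v < c
    · rw [wY v h1.1 h1.2]
    by_cases h2 : v = n - 1
    · rw [h2, wn, yn]
      have : T ≤ e * T := Nat.le_mul_of_pos_left T (by omega)
      omega
    rw [wy v h0 h1 h2]
    by_cases h3 : v = c
    · rw [h3, yc]
      omega
    rw [yo v h0 h3]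
    by_cases h4 : v = c + 1
    · rw [h4, ox]
      omega
    by_cases h5 : v = c + e - 1
    · rw [h5, ok]
      omega
    by_cases h6 : v = 2 * c
    · rw [h6, oD]
      omega
    rw [oq v h4 h5 h6, hqT v h2 (by omega)]
  obtain ⟨g, hg⟩ : ∃ g : ℕ → ℕ, ∀ v, g v = w v - T := ⟨_, fun _ => rfl⟩
  have hgw : ∀ v < n, w v = g v + T := fun v hv => by
    have := hge v hv
    rw [hg]
    omega
  have fL : sL c e w = sL c e g + (c + e - (c + 1)) * T :=
    fin_sm_add w g T fun v h1 h2 => hgw v (by omega)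
  have fM : sM c e w = sM c e g + (2 * c + 1 - (c + e)) * T :=
    fin_sm_add w g T fun v h1 h2 => hgw v (by omega)
  have fR : sR c e w = sR c e g + (2 * c + e - (2 * c + 1)) * T :=
    fin_sm_add w g T fun v h1 h2 => hgw v (by omega)
  have p6 : (c + e - (c + 1)) * T = (e - 1) * T := by congr 1; omega
  have p7 : (2 * c + e - (2 * c + 1)) * T = (e - 1) * T := by congr 1; omega
  have wL : sL c e w = sL c e y := sm_congr fun v h1 h2 => wy v (by omega) (by omega) (by omega)
  have wM : sM c e w = sM c e y := sm_congr fun v h1 h2 => wy v (by omega) (by omega) (by omega)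
  have wR : sR c e w + y (n - 1) = sR c e y + w (n - 1) :=
    sm_one (v := n - 1) (by omega) (by omega) fun v h1 h2 h3 => wy v (by omega) (by omega) h3
  rw [wn] at wR
  rw [wL, eL, p6] at fL
  rw [wM, eM, p4] at fM
  rw [p7] at fR
  rw [eR] at wR
  have hg0 : g 0 = sL c e g + sM c e g := by
    rw [hg, w0, y0]
    omega
  have hgc : g c = sM c e g + sR c e g := by
    rw [hg, wy c (by omega) (by omega) (by omega), yc]
    omega
  have hgr : sR c e g ≤ g (c + e - 1) := by
    rw [hg, wy (c + e - 1) (by omega) (by omega) (by omega), yo _ (by omega) (by omega), ok]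
    omega
  have hPg : PP n c g := by
    refine zeroPP hp g (fun v h1 h2 => ?_) hg0 hgc hgr
    rw [hg]
    by_cases h3 : e ≤ v
    · rw [wY v h3 h2]
      omega
    · rw [wy v (by omega) (by omega) (by omega), yo v (by omega) (by omega),
        oq v (by omega) (by omega) (by omega), hqT v (by omega) (by omega)]
      omega
  have hPw : PP n c w := by
    refine PP_congr (f := fun v => g v + T) (fun v hv => (hgw v hv).symm) ?_
    exact hinv _ hPg
  have hfin := noPP (n := n) (by omega) hPw hPy (fun v hv => ?_) (n - 1) (by omega)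
    (fun v hv hW => ?_) e (by omega)
  · rw [wY e le_rfl hec, yo e (by omega) (by omega), oq e (by omega) (by omega) (by omega),
      hflat e le_rfl hec] at hfin
    omega
  · by_cases h0 : v = 0
    · subst h0
      rw [w0]
      omega
    by_cases h1 : e ≤ v ∧ v < c
    · rw [yo v h0 (by omega), oq v (by omega) (by omega) (by omega), hflat v h1.1 h1.2]
      omega
    by_cases h2 : v = n - 1
    · rw [h2, wn]
      omega
    rw [wy v h0 h1 h2]
  · unfold InW at hW
    rw [wy v (by omega) (by omega) (by omega)]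

/-- No nonzero vector of nonnegative integers can be added to all P-positions. -/
theorem no_invariant (hp : Par n c e) (z : ZMod n → ℕ) (hz : z ≠ 0) :
    ∃ p : ZMod n → ℕ, IsP n (c + 1) p ∧ ¬ IsP n (c + 1) (p + z) := by
  by_contra hcon
  push Not at hcon
  refine no_period hp (T := ∑ a, z a) ?_ fun p hp => isP_add_trace hcon hp
  by_contra h
  apply hz
  funext x
  have h1 : ∑ a, z a = 0 := by omega
  exact (Finset.sum_eq_zero_iff.1 h1) x (Finset.mem_univ x)

end Pool.Agent.W_30d1b9f_h31
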