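import Pool.Agent.W_30d1b9t_h50.Top
import Pool.Agent.W_30d1b9s_h71.Half
import Pool.Agent.W_30d1b9_h71.Bridge
import Pool.Agent.W_30d1b9f_h31.Fin
import Pool.Agent.W_30d1b9e_h8.Main8

/-!
# MP_30d1b9_co, Question 1 for all `n/3 < k ≤ n`
-/

namespace Pool.Agent.W_30d1b9f_h31

open Pool.Agent.W_30d1b9_h50 Pool.Agent.W_30d1b9t_h50

/-- the family of Question 1 -/
def Fam (n k : ℕ) : Prop :=
  k + 1 = n ∨ ∃ m, 1 ≤ m ∧ k = m + 1 ∧ (n = 3 * m ∨ n = 3 * m + 1 ∨ n = 3 * m + 2)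

/-- outside the family there is no invariant vector (`n/3 < k ≤ n`) -/
theorem neg_half {n k : ℕ} [NeZero n] (h1 : n < 3 * k) (h2 : k ≤ n) (hF : ¬ Fam n k)
    (z : ZMod n → ℕ) (hz : z ≠ 0) : ∃ p : ZMod n → ℕ, IsP n k p ∧ ¬ IsP n k (p + z) := by
  have hn0 : n ≠ 0 := NeZero.ne n
  have hF1 : k + 1 ≠ n := fun h => hF (Or.inl h)
  have hF2 : ∀ m, 1 ≤ m → k = m + 1 → n ≠ 3 * m ∧ n ≠ 3 * m + 1 ∧ n ≠ 3 * m + 2 :=
    fun m h3 h4 => ⟨fun h => hF (Or.inr ⟨m, h3, h4, Or.inl h⟩),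
      fun h => hF (Or.inr ⟨m, h3, h4, Or.inr (Or.inl h)⟩),
      fun h => hF (Or.inr ⟨m, h3, h4, Or.inr (Or.inr h)⟩)⟩
  rcases Nat.lt_or_ge n (2 * k) with h3 | h3
  · exact (upper_half h3 h2).2.2 hF1 z hz
  obtain ⟨c, rfl⟩ : ∃ c, k = c + 1 := ⟨k - 1, by omega⟩
  rcases Nat.eq_zero_or_pos c with hc0 | hc0
  · omega
  have h4 := hF2 c hc0 rfl
  obtain ⟨e, he⟩ : ∃ e, e = n - 2 * c := ⟨_, rfl⟩
  have hec : e < c := by omega
  rcases Nat.lt_or_ge c (2 * e) with h5 | h5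
  · rcases Nat.lt_or_ge 2 e with h6 | h6
    · exact no_invariant (n := n) (c := c) (e := e) ⟨by omega, hec, h5, by omega⟩ z hz
    · obtain rfl : c = 3 := by omega
      obtain rfl : n = 8 := by omega
      exact Pool.Agent.W_30d1b9e_h8.no_invariant z hz
  · exact Pool.Agent.W_30d1b9s_h71.no_invariant (e := e) (by omega) (by omega) (by omega) z hz

/-- in the family `(1, ..., 1)` is invariant -/
theorem pos_half {n k : ℕ} [NeZero n] (hF : Fam n k) : Invariant n k fun _ => 1 := by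
  have hn0 : n ≠ 0 := NeZero.ne n
  rcases hF with h | ⟨m, hm, rfl, hn⟩
  · exact invariant_top h
  · exact Pool.Agent.W_30d1b9_h71.invariant_one hm (by omega) (by omega)

end Pool.Agent.W_30d1b9f_h31
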