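import Pool.Agent.W_30d1b9f_h31.Reply
import Pool.Agent.W_30d1b9f_h31.Evl

/-!
# MP_30d1b9_co: step H (the pigeonhole)

Thresholds (`Ev.of_thr`): `K + 3 N`; `k ≥ T1 D + C D + 1` with `T1 D = Θ D + Φ D + km + 3N + 1`
and `C D = (4 N + D + Φ D + 1) * (6 N + 1) * (3 N + 1)` (or larger);
`Λ D k + 4 N + D + k`. Suppose `g` is P at the level `q`, `g c + U ≤ sM + sR` and
`g 0 + k < sL + sM + Φ D`. For `1 ≤ s ≤ k - T1 D` apply `reply` and choose `z_s`. Then
`x ≤ z_s 0 + N` (F4, `E.sum`), `z_s 0 < g 0 ≤ x + 2N + D + Φ D`, `D ≤ z_s (2c) + 3 N`,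
`z_s (2c) ≤ D`, `z_s (2c) ≤ z_s c + N` (F3), `z_s c ≤ sM + sR ≤ D + 2N` (F2). So the triple
`(z_s 0 + N - x, z_s c + 4 N - D, z_s (2c) + 3 N - D)` has at most `C D` values;
`Finset.exists_ne_map_eq_of_card_lt_of_maps_to` gives `s < s'` with the same triple, so `z_s`
and `z_{s'}` differ only at the stack `c+e-1` (`k - s` and `k - s'`): `noPP` with the window
`c`. Contradiction.
-/

namespace Pool.Agent.W_30d1b9f_h31

variable {n c e : ℕ} [NeZero n]

theorem H (hp : Par n c e) {q : ℕ → ℕ} {κ : (ℕ → ℕ) → ℕ} {km N K : ℕ} {Θ : ℕ → ℕ}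
    {Λ : ℕ → ℕ → ℕ} (E : Env n c e q κ km N K Θ Λ) (Φ : ℕ → ℕ) :
    Ev fun D k x => ∀ g, At n c e q D k x g → PP n c g →
      g c + sU c g ≤ sM c e g + sR c e g → sL c e g + sM c e g + Φ D ≤ g 0 + k := by
  obtain ⟨he, hec, hc2, hn⟩ := id hp
  obtain ⟨T1, hT1⟩ : ∃ T1 : ℕ → ℕ, ∀ D, T1 D = Θ D + Φ D + km + 3 * N + 1 := ⟨_, fun _ => rfl⟩
  obtain ⟨C, hC⟩ : ∃ C : ℕ → ℕ, ∀ D, C D = (4 * N + D + Φ D + 1) * ((6 * N + 1) * (3 * N + 1)) :=
    ⟨_, fun _ => rfl⟩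
  refine Ev.of_thr (K + 3 * N) (fun D => T1 D + C D + 1)
    (fun D k => Λ D k + 4 * N + D + k) fun D k x hD hk hx g hat hg hw => ?_
  obtain ⟨hcr, rfl, rfl, rfl⟩ := hat
  by_contra hcon
  push Not at hcon
  have sumg := E.sum g fun v hv hs => (hcr v hv hs).le
  have f2g := F2 hp hg
  have f4g := F4 hp hg
  have hT1' := hT1 (g (2 * c))
  have hrep : ∀ s, 1 ≤ s → s ≤ C (g (2 * c)) + 1 → ∃ z : ℕ → ℕ, PP n c z ∧
      (∀ v < n, v ≠ 0 → v ≠ c → v ≠ c + e - 1 → v ≠ 2 * c → z v = g v) ∧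
      z (c + e - 1) = g (c + e - 1) - s ∧ z 0 < g 0 ∧ z c ≤ g c ∧ z (2 * c) ≤ g (2 * c) ∧
      g (2 * c) ≤ z (2 * c) + 3 * N := fun s h1 h2 =>
    reply hp E hcr hg hw h1 (by omega) (by omega) (by omega) (by omega) (by omega)
  obtain ⟨Z, hZ⟩ : ∃ Z : ℕ → ℕ → ℕ, ∀ s, 1 ≤ s → s ≤ C (g (2 * c)) + 1 → PP n c (Z s) ∧
      (∀ v < n, v ≠ 0 → v ≠ c → v ≠ c + e - 1 → v ≠ 2 * c → Z s v = g v) ∧
      Z s (c + e - 1) = g (c + e - 1) - s ∧ Z s 0 < g 0 ∧ Z s c ≤ g c ∧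
      Z s (2 * c) ≤ g (2 * c) ∧ g (2 * c) ≤ Z s (2 * c) + 3 * N := by
    classical
    refine ⟨fun s => if h : 1 ≤ s ∧ s ≤ C (g (2 * c)) + 1 then
      (hrep s h.1 h.2).choose else g, fun s h1 h2 => ?_⟩
    beta_reduce
    rw [dif_pos ⟨h1, h2⟩]
    exact (hrep s h1 h2).choose_spec
  -- bounds
  have hbd : ∀ s, 1 ≤ s → s ≤ C (g (2 * c)) + 1 →
      g (c + 1) ≤ Z s 0 + N ∧ Z s 0 + N - g (c + 1) < 4 * N + g (2 * c) + Φ (g (2 * c)) + 1 ∧
      g (2 * c) ≤ Z s c + 4 * N ∧ Z s c + 4 * N - g (2 * c) < 6 * N + 1 ∧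
      Z s (2 * c) + 3 * N - g (2 * c) < 3 * N + 1 := by
    intro s h1 h2
    obtain ⟨hz, ho, hk', ha, hb, hd, hd'⟩ := hZ s h1 h2
    have hcz : Cle n c e (Z s) q := fun v hv hs => by
      rw [← hcr v hv hs, ho v hv (by unfold Sp at hs; omega) (by unfold Sp at hs; omega)
        (by unfold Sp at hs; omega) (by unfold Sp at hs; omega)]
    have sumz := E.sum _ hcz
    have f3z := F3 hp hz
    have f4z := F4 hp hz
    have ex := ho (c + 1) (by omega) (by omega) (by omega) (by omega) (by omega)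
    omega
  have hpig := Finset.exists_ne_map_eq_of_card_lt_of_maps_to
    (s := Finset.Icc 1 (C (g (2 * c)) + 1))
    (t := Finset.range (4 * N + g (2 * c) + Φ (g (2 * c)) + 1) ×ˢ
      (Finset.range (6 * N + 1) ×ˢ Finset.range (3 * N + 1)))
    (f := fun s => (Z s 0 + N - g (c + 1), (Z s c + 4 * N - g (2 * c),
      Z s (2 * c) + 3 * N - g (2 * c)))) ?_ ?_
  · obtain ⟨s, hs, s', hs', hne, heq⟩ := hpig
    rw [Finset.mem_Icc] at hs hs'
    simp only [Prod.mk.injEq] at heq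
    have key : ∀ s s', (1 ≤ s ∧ s ≤ C (g (2 * c)) + 1) → (1 ≤ s' ∧ s' ≤ C (g (2 * c)) + 1) →
        s < s' → Z s 0 + N - g (c + 1) = Z s' 0 + N - g (c + 1) ∧
        Z s c + 4 * N - g (2 * c) = Z s' c + 4 * N - g (2 * c) ∧
        Z s (2 * c) + 3 * N - g (2 * c) = Z s' (2 * c) + 3 * N - g (2 * c) → False := by
      intro s s' hs hs' hlt heq
      have b1 := hbd s hs.1 hs.2
      have b2 := hbd s' hs'.1 hs'.2
      obtain ⟨hz, ho, hk', ha, hb, hd, hd'⟩ := hZ s hs.1 hs.2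
      obtain ⟨hz2, ho2, hk2, ha2, hb2, hd2, hd2'⟩ := hZ s' hs'.1 hs'.2
      have e0 : Z s' 0 = Z s 0 := by omega
      have ec : Z s' c = Z s c := by omega
      have eD : Z s' (2 * c) = Z s (2 * c) := by omega
      have eo : ∀ v < n, v ≠ c + e - 1 → Z s' v = Z s v := by
        intro v hv h1
        by_cases h2 : v = 0
        · rw [h2, e0]
        by_cases h3 : v = c
        · rw [h3, ec]
        by_cases h4 : v = 2 * c
        · rw [h4, eD]
        rw [ho v hv h2 h3 h1 h4, ho2 v hv h2 h3 h1 h4]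
      have h1 := noPP (by omega) hz hz2 (fun v hv => by
        by_cases h2 : v = c + e - 1
        · rw [h2]
          omega
        · exact (eo v hv h2).le) c (by omega) (fun v hv hW => eo v hv (by
          rintro rfl
          apply hW
          unfold InW
          omega)) (c + e - 1) (by omega)
      omega
    rcases lt_or_gt_of_ne hne with h | h
    · exact key s s' hs hs' h ⟨heq.1, heq.2.1, heq.2.2⟩
    · exact key s' s hs' hs h ⟨heq.1.symm, heq.2.1.symm, heq.2.2.symm⟩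
  · rw [Finset.card_product, Finset.card_product, Finset.card_range, Finset.card_range,
      Finset.card_range, Nat.card_Icc, ← hC]
    omega
  · intro s hs
    rw [Finset.mem_coe, Finset.mem_Icc] at hs
    have b := hbd s hs.1 hs.2
    simp only [Finset.coe_product, Set.mem_prod, Finset.mem_coe, Finset.mem_range]
    omega

end Pool.Agent.W_30d1b9f_h31
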