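import Pool.Agent.W_30d1b9f_h31.H

/-!
# MP_30d1b9_co: for fixed `D, k` the P-position moves up with `x`

Thresholds `K1, Θ1, Λ1` for `H hp E Θ` (`Ev.thr`), and then `max K1 (K + 2 N)`,
`max (Θ1 D) (Θ D)`, `max (Λ1 D k) (Λ D k)` (`Ev.of_thr`). Both `g`, `h` have `w2 = U` (`h12`),
so `g c = h c`. `g 0 = h 0` contradicts `noPP` (`g → h`, window `c`). Suppose `g 0 < h 0`. Let
`h'` be `h` with `0 ↦ g 0`; it is an option of `h` (window `0`), so not P; `exP` gives a
P-position `z ≤ h'`, window `s`. If `InW s 0`: `noPP` for `h, z`, window `s`. If `InW s (c+1)`: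
`noPP` for `g, z` and the window `s` (`h'` is `g` with `c+1 ↦ x`). So `c + 2 ≤ s ≤ c + e - 1`.
`z 0 = g 0`, `z c = h c`, `u` unchanged, `z (c+1) = x`.
If `sM z + sR z = sM h + sR h` then `M, r` are unchanged and all changes `g → z` are in
`c+1..c+e-1`: `noPP` for `g, z` and the window `e-1`. So `sM z + sR z < h c + sU h` and
`z c + sU z = h c + sU h`. By `H` for `g`: `sL g + sM g + Θ D ≤ g 0 + k`, and F1 for `z`:
`g 0 ≤ sL z + sM z`, so `k - z (c+e-1) ≤ k - Θ D`; F2 for `z`: `D - z (2c) ≤ sU ≤ N`. So
`Reg z` (`E.monT`, `E.monL`) and `E.low z` (if `Clt z q`) or `h12 z` (if `Cr z q`) gives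
`sM z + sR z = z c + sU z`: contradiction.
-/

namespace Pool.Agent.W_30d1b9f_h31

variable {n c e : ℕ} [NeZero n]

theorem incX (hp : Par n c e) {q : ℕ → ℕ} {κ : (ℕ → ℕ) → ℕ} {km N K : ℕ} {Θ : ℕ → ℕ}
    {Λ : ℕ → ℕ → ℕ} (E : Env n c e q κ km N K Θ Λ) (h12 : A12 n c e q K Θ Λ) :
    Ev fun D k x => ∀ g h, At n c e q D k (x + 1) g → PP n c g → At n c e q D k x h →
      PP n c h → h 0 + 1 ≤ g 0 := by
  obtain ⟨he, hec, hc, hn⟩ := id hp
  obtain ⟨K1, Θ1, Λ1, _, _, hH⟩ := (H hp E Θ).thr
  refine Ev.of_thr (max K1 (K + 2 * N)) (fun D => max (Θ1 D) (Θ D))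
    (fun D k => max (Λ1 D k) (Λ D k)) ?_
  intro D k x hDK hk1 hx1 g h hg hPg hh hPh
  have hDK1 : K1 ≤ D := le_trans (le_max_left _ _) hDK
  have hDK2 : K + 2 * N ≤ D := le_trans (le_max_right _ _) hDK
  have hk2 : Θ1 D ≤ k := le_trans (le_max_left _ _) hk1
  have hk3 : Θ D ≤ k := le_trans (le_max_right _ _) hk1
  have hx2 : Λ1 D k ≤ x := le_trans (le_max_left _ _) hx1
  have hx3 : Λ D k ≤ x := le_trans (le_max_right _ _) hx1
  have hHg := hH D k (x + 1) hDK1 hk2 (by omega) g hg hPg
  obtain ⟨gcr, gD, gk, gx⟩ := hg
  obtain ⟨hcr, hD, hk, hx⟩ := hh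
  have hcore : ∀ v < n, ¬ Sp c e v → g v = h v := fun v hv hs => by
    rw [gcr v hv hs, hcr v hv hs]
  have Rg : Reg c e K Θ Λ g := by
    unfold Reg
    rw [gD, gk, gx]
    exact ⟨by omega, hk3, by omega⟩
  have Rh : Reg c e K Θ Λ h := by
    unfold Reg
    rw [hD, hk, hx]
    exact ⟨by omega, hk3, hx3⟩
  have eg := h12 g gcr Rg hPg
  have eh := h12 h hcr Rh hPh
  have hHg2 := hHg (by omega)
  have eU : sU c g = sU c h := sm_congr fun v h1 h2 => hcore v (by omega) (by unfold Sp; omega)
  have eR : sR c e g = sR c e h := sm_congr fun v h1 h2 =>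
    hcore v (by omega) (by unfold Sp; omega)
  have eM : sM c e g = sM c e h := sm_congr fun v h1 h2 => by
    by_cases hv : v = 2 * c
    · rw [hv, gD, hD]
    · exact hcore v (by omega) (by unfold Sp; omega)
  have ec : g c = h c := by omega
  -- `g` and `h` agree outside `0` and `c + 1`
  have hgh : ∀ v < n, v ≠ 0 → v ≠ c + 1 → g v = h v := by
    intro v hv h0 h1
    by_cases h2 : v = c
    · rw [h2, ec]
    by_cases h3 : v = c + e - 1
    · rw [h3, gk, hk]
    by_cases h4 : v = 2 * c
    · rw [h4, gD, hD]
    · exact hcore v hv (by unfold Sp; omega)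
  by_contra hcon
  have hle0 : g 0 ≤ h 0 := by omega
  rcases Nat.lt_or_ge (g 0) (h 0) with hlt | hge
  · -- the position `h'`
    have hn0 : 0 < n := by omega
    have hu0 : Function.update h 0 (g 0) 0 = g 0 := Function.update_self _ _ _
    have hu1 : ∀ v, v ≠ 0 → Function.update h 0 (g 0) v = h v := fun v hv =>
      Function.update_of_ne hv _ _
    have hule : ∀ v, Function.update h 0 (g 0) v ≤ h v := by
      intro v
      by_cases hv : v = 0
      · rw [hv, hu0]
        exact hle0
      · rw [hu1 v hv]
    have hnP : ¬ PP n c (Function.update h 0 (g 0)) := by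
      intro hP
      have h1 := noPP (by omega) hPh hP (fun v _ => hule v) 0 hn0 (fun v _ hW => by
        apply hu1
        intro hv
        apply hW
        rw [hv]
        unfold InW
        omega) 0 hn0
      rw [hu0] at h1
      omega
    obtain ⟨z, s, hs, hPz, hzle, hzW, _⟩ := exP (by omega) hnP
    have hzh : ∀ v < n, z v ≤ h v := fun v hv => (hzle v hv).trans (hule v)
    have hz0 : z 0 ≤ g 0 := by
      have h1 := hzle 0 hn0
      rwa [hu0] at h1
    have hug : ∀ v < n, v ≠ c + 1 → Function.update h 0 (g 0) v = g v := by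
      intro v hv h1
      by_cases h2 : v = 0
      · rw [h2, hu0]
      · rw [hu1 v h2, hgh v hv h2 h1]
    have hzg : ∀ v < n, z v ≤ g v := by
      intro v hv
      by_cases h1 : v = c + 1
      · have h2 := hzh v hv
        rw [h1] at h2 ⊢
        omega
      · rw [← hug v hv h1]
        exact hzle v hv
    have hzx : z (c + 1) ≤ x := by
      have h1 := hzh (c + 1) (by omega)
      omega
    -- the window `s` does not contain `0`
    have hW0 : ¬ InW n c s 0 := by
      intro hin
      have h1 := noPP (by omega) hPh hPz hzh s hs (fun v hv hW => by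
        rw [hzW v hv hW]
        apply hu1
        intro h2
        exact hW (h2 ▸ hin)) 0 hn0
      omega
    -- nor `c + 1`
    have hW1 : ¬ InW n c s (c + 1) := by
      intro hin
      have h1 := noPP (by omega) hPg hPz hzg s hs (fun v hv hW => by
        rw [hzW v hv hW]
        apply hug v hv
        intro h2
        exact hW (h2 ▸ hin)) (c + 1) (by omega)
      omega
    have hs1 : c + 2 ≤ s ∧ s ≤ c + e - 1 := by
      unfold InW at hW0 hW1
      omega
    obtain ⟨hs1, hs2⟩ := hs1
    -- the stacks below `s` are unchanged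
    have hlow : ∀ v < s, z v = Function.update h 0 (g 0) v := by
      intro v hv
      refine hzW v (by omega) ?_
      unfold InW
      omega
    have hz0' : z 0 = g 0 := by rw [hlow 0 (by omega), hu0]
    have hzlow : ∀ v < s, v ≠ 0 → z v = h v := fun v hv h0 => by rw [hlow v hv, hu1 v h0]
    have hzx' : z (c + 1) = x := by rw [hzlow (c + 1) (by omega) (by omega), hx]
    have hzc : z c = h c := hzlow c (by omega) (by omega)
    have hzU : sU c z = sU c h := sm_congr fun v h1 h2 => hzlow v (by omega) (by omega)
    have hMle : sM c e z ≤ sM c e h := sm_le fun v _ _ => hzh v (by omega)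
    have hRle : sR c e z ≤ sR c e h := sm_le fun v _ _ => hzh v (by omega)
    -- something in `M` or `r` is changed
    have hMR : sM c e z + sR c e z < sM c e h + sR c e h := by
      by_contra hnot
      have e1 : sM c e z = sM c e h := by omega
      have e2 : sR c e z = sR c e h := by omega
      have e3 := sm_eq_of (fun v _ _ => hzh v (by omega)) e1
      have e4 := sm_eq_of (fun v _ _ => hzh v (by omega)) e2
      have h1 := noPP (by omega) hPg hPz hzg (e - 1) (by omega) (fun v hv hW => by
        have h2 : v < e - 1 ∨ c + e ≤ v := by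
          unfold InW at hW
          omega
        have h3 : v ≠ c + 1 := by omega
        rw [← hug v hv h3]
        rcases h2 with h2 | h2
        · exact hlow v (by omega)
        · rw [hu1 v (by omega)]
          by_cases h4 : v < 2 * c + 1
          · exact e3 v h2 h4
          · exact e4 v (by omega) (by omega)) (c + 1) (by omega)
      omega
    -- the stack `c + e - 1` of `z` is large
    have hF1 := F1 hp hPz
    have hkz : Θ D ≤ z (c + e - 1) := by
      have h1 : sL c e z + z (c + e - 1 ) ≤ sL c e z + z (c + e - 1) := le_rfl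
      have h2 : sL c e z + k ≤ sL c e g + z (c + e - 1) := by
        -- compare `z` with `g` where the stack `c+e-1` is replaced
        have h3 : sm (c + 1) (c + e) z ≤
            sm (c + 1) (c + e) (Function.update g (c + e - 1) (z (c + e - 1))) := by
          refine sm_le fun v h4 h5 => ?_
          by_cases h6 : v = c + e - 1
          · rw [h6, Function.update_self]
          · rw [Function.update_of_ne h6]
            exact hzg v (by omega)
        have h4 := sm_upd_in (a := c + 1) (b := c + e) (v := c + e - 1) g (z (c + e - 1))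
          (by omega) (by omega)
        have h5 : sL c e z = sm (c + 1) (c + e) z := rfl
        have h6 : sL c e g = sm (c + 1) (c + e) g := rfl
        omega
      omega
    -- the stack `2 c` of `z` is large
    have hCh : Cle n c e h q := fun v hv hs => le_of_eq (hcr v hv hs)
    have hN := (E.sum h hCh).1
    have hF2 := F2 hp hPz
    have hM2 : sM c e z + D ≤ sM c e h + z (2 * c) := by
      have h3 : sm (c + e) (2 * c + 1) z ≤
          sm (c + e) (2 * c + 1) (Function.update h (2 * c) (z (2 * c))) := by
        refine sm_le fun v h4 h5 => ?_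
        by_cases h6 : v = 2 * c
        · rw [h6, Function.update_self]
        · rw [Function.update_of_ne h6]
          exact hzh v (by omega)
      have h4 := sm_upd_in (a := c + e) (b := 2 * c + 1) (v := 2 * c) h (z (2 * c))
        (by omega) (by omega)
      have h5 : sM c e z = sm (c + e) (2 * c + 1) z := rfl
      have h6 : sM c e h = sm (c + e) (2 * c + 1) h := rfl
      omega
    have hDz : D ≤ z (2 * c) + N := by omega
    have hDz2 : z (2 * c) ≤ D := by
      have h1 := hzh (2 * c) (by omega)
      omega
    have hkz2 : z (c + e - 1) ≤ k := by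
      have h1 := hzh (c + e - 1) (by omega)
      omega
    have Rz : Reg c e K Θ Λ z := by
      refine ⟨by omega, (E.monT hDz2).trans hkz, ?_⟩
      rw [hzx']
      exact (E.monL _ _ _ _ hDz2 hkz2).trans hx3
    have hCz : Cle n c e z q := fun v hv hs => by
      rw [← hcr v hv hs]
      exact hzh v hv
    have hfin : sM c e z + sR c e z = z c + sU c z := by
      by_cases hex : ∃ v < n, ¬ Sp c e v ∧ z v < q v
      · exact ((E.low z ⟨hCz, hex⟩ Rz).1 hPz).2
      · refine h12 z ?_ Rz hPz
        intro v hv hs
        by_contra hne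
        exact hex ⟨v, hv, hs, lt_of_le_of_ne (hCz v hv hs) hne⟩
    omega
  · -- `g 0 = h 0`
    have h0 : g 0 = h 0 := by omega
    have h1 := noPP (by omega) hPg hPh (fun v hv => by
      by_cases h2 : v = 0
      · rw [h2, h0]
      by_cases h3 : v = c + 1
      · rw [h3, gx, hx]
        omega
      · rw [hgh v hv h2 h3]) c (by omega) (fun v hv hW => by
      by_cases h2 : v = 0
      · rw [h2, h0]
      by_cases h3 : v = c + 1
      · exfalso
        apply hW
        unfold InW
        omega
      · rw [hgh v hv h2 h3]) (c + 1) (by omega)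
    omega

end Pool.Agent.W_30d1b9f_h31
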