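import Pool.Agent.W_30d1b9f_h31.Api

/-!
# MP_30d1b9_co: positions with `w2 = U`, `w1 < lo` are killed from a lower level

`Rem n c e q δ`: `δ` tokens are removed from `u`, `M`, `r` inside one of the windows
`s = c+e, ..., n-1` (all contain the stack `0`), as many from `u` as from `M ∪ r`.

Proof of `killL`: F1 gives `lo ≥ 1`, so `hlo2` gives `δ` and the window `s`. Let
`y v = z v - δ v` (truncated) for `v ≠ 0, 2c`,
`y (2c) = z (2c) - (sM δ - (sm (c+e) (2c) z - sm (c+e) (2c) y))` (so that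
`sM y = sM z - sM δ`), and `y 0 = sL z + sM z - sM δ - κ y`. On `1..c-1` and on `r` we have
`z = q` (`hd`), so `sU y = sU z - sU δ`, `sR y = sR z - sR δ`; `δ = 0` on `l`. The core of `y`
is at most the core of `q - δ` and differs from it only in `(c, 2c)`, so
`κ (q - δ) ≤ κ y` (`E.mono` with `g = q - δ`), hence `y 0 ≤ z 0`. `Clt y q` because
`1 ≤ sU δ`. `E.low y` gives `PP y` (`sM δ ≤ sU δ ≤ N`, thresholds by `E.monT`, `E.monL`).
All changed stacks are in the window `s` (if `y (2c) < z (2c)` then `δ (2c) ≠ 0` or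
`δ v ≠ 0` for some `c+e ≤ v < 2c`, then `s ≤ v`): `noPP`, contradiction to `1 ≤ sU δ`.
-/

namespace Pool.Agent.W_30d1b9f_h31

variable {n c e : ℕ} [NeZero n]

/-- an R-removal of the level `q` -/
def Rem (n c e : ℕ) (q δ : ℕ → ℕ) : Prop :=
  (∀ v < n, ¬ Sp c e v → δ v ≤ q v) ∧
  (∀ v < n, δ v ≠ 0 → (1 ≤ v ∧ v < c) ∨ c + e ≤ v) ∧
  1 ≤ sU c δ ∧ sU c δ = sM c e δ + sR c e δ ∧
  ∃ s, c + e ≤ s ∧ s < n ∧ ∀ v < n, δ v ≠ 0 → InW n c s v

theorem killL (hp : Par n c e) {q : ℕ → ℕ} {κ : (ℕ → ℕ) → ℕ} {km N K : ℕ} {Θ : ℕ → ℕ}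
    {Λ : ℕ → ℕ → ℕ} (E : Env n c e q κ km N K Θ Λ) {lo : ℕ}
    (hlo2 : 1 ≤ lo → ∃ δ, Rem n c e q δ ∧ lo ≤ κ (fun v => q v - δ v) + sM c e δ + 1)
    {z : ℕ → ℕ} (hz : PP n c z) (hc : Cle n c e z q)
    (hd : ∀ v < n, ¬ Sp c e v → z v ≠ q v → c < v ∧ v < 2 * c)
    (hw1 : sL c e z + sM c e z < z 0 + lo) (hw2 : sM c e z + sR c e z = z c + sU c z)
    (hK : K + 2 * N ≤ z (2 * c)) (hT : Θ (z (2 * c)) ≤ z (c + e - 1))
    (hL : Λ (z (2 * c)) (z (c + e - 1)) + km ≤ z (c + 1)) : False := by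
  obtain ⟨he, hec, hc2, hn⟩ := id hp
  have hF1 := F1 hp hz
  obtain ⟨δ, ⟨R1, R2, R3, R4, s, hs1, hs2, hsW⟩, hlo⟩ := hlo2 (by omega)
  -- simple facts on `δ` and `z`
  have hzq : ∀ v < n, ¬ Sp c e v → ¬ (c < v ∧ v < 2 * c) → z v = q v := by
    intro v hv hsp h
    by_contra hne
    exact h (hd v hv hsp hne)
  have hspU : ∀ v, 1 ≤ v → v < c → ¬ Sp c e v := by
    intro v h1 h2 h3
    unfold Sp at h3
    omega
  have hspR : ∀ v, 2 * c + 1 ≤ v → v < 2 * c + e → ¬ Sp c e v := by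
    intro v h1 h2 h3
    unfold Sp at h3
    omega
  have hδ0 : ∀ v < n, ¬ ((1 ≤ v ∧ v < c) ∨ c + e ≤ v) → δ v = 0 := by
    intro v hv h
    by_contra hne
    exact h (R2 v hv hne)
  have hδz : ∀ v < n, ¬ Sp c e v → ¬ (c < v ∧ v < 2 * c) → δ v ≤ z v := by
    intro v hv h1 h2
    rw [hzq v hv h1 h2]
    exact R1 v hv h1
  have hNδ := (E.sum δ R1).1
  have hMδN : sM c e δ ≤ N := by omega
  obtain ⟨v0, hv01, hv02, hv0⟩ := sm_pos (f := δ) (a := 1) (b := c) (by unfold sU at R3; omega)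
  have hv0n : v0 < n := by omega
  have hv0z : z v0 = q v0 := hzq v0 hv0n (hspU v0 hv01 hv02) (by omega)
  have hv0δ : δ v0 ≤ q v0 := R1 v0 hv0n (hspU v0 hv01 hv02)
  -- the position `y`
  obtain ⟨y', hy'⟩ : ∃ y' : ℕ → ℕ, ∀ v, y' v = z v - δ v := ⟨_, fun _ => rfl⟩
  obtain ⟨P1, hP1⟩ : ∃ P1, P1 = sm (c + e) (2 * c) z := ⟨_, rfl⟩
  obtain ⟨P2, hP2⟩ : ∃ P2, P2 = sm (c + e) (2 * c) y' := ⟨_, rfl⟩
  obtain ⟨PD, hPD⟩ : ∃ PD, PD = sm (c + e) (2 * c) δ := ⟨_, rfl⟩
  have hP21 : P2 ≤ P1 := by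
    rw [hP1, hP2]
    exact sm_le fun v _ _ => by rw [hy']; omega
  have hP12 : P1 ≤ P2 + PD := by
    rw [hP1, hP2, hPD]
    unfold sm
    rw [← Finset.sum_add_distrib]
    exact Finset.sum_le_sum fun v _ => by rw [hy']; omega
  have hMz : sM c e z = P1 + z (2 * c) := by
    unfold sM
    rw [sm_succ z (by omega), hP1]
  have hMδ : sM c e δ = PD + δ (2 * c) := by
    unfold sM
    rw [sm_succ δ (by omega), hPD]
  obtain ⟨Y, hY⟩ : ∃ Y, Y = z (2 * c) - (sM c e δ - (P1 - P2)) := ⟨_, rfl⟩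
  obtain ⟨A, hA⟩ : ∃ A, A = sL c e z + sM c e z - sM c e δ - κ y' := ⟨_, rfl⟩
  obtain ⟨y, hy⟩ : ∃ y, y = Function.update (Function.update y' (2 * c) Y) 0 A := ⟨_, rfl⟩
  have hy0 : y 0 = A := by rw [hy, Function.update_self]
  have hy2c : y (2 * c) = Y := by
    rw [hy, Function.update_of_ne (by omega), Function.update_self]
  have hyv : ∀ v, v ≠ 0 → v ≠ 2 * c → y v = z v - δ v := by
    intro v h1 h2
    rw [hy, Function.update_of_ne h1, Function.update_of_ne h2, hy']
  have hsp0 : Sp c e 0 := Or.inl rfl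
  have hsp2c : Sp c e (2 * c) := Or.inr (Or.inr (Or.inr (Or.inr rfl)))
  have hyc : ∀ v, ¬ Sp c e v → y v = z v - δ v := by
    intro v h
    exact hyv v (fun h' => h (h' ▸ hsp0)) (fun h' => h (h' ▸ hsp2c))
  have hκ : κ y = κ y' := E.core _ _ fun v _ h => by rw [hyc v h, hy']
  -- sums
  have hyU : sU c y + sU c δ = sU c z := by
    unfold sU sm
    rw [← Finset.sum_add_distrib]
    refine Finset.sum_congr rfl fun v hv => ?_
    rw [Finset.mem_Ico] at hv
    rw [hyv v (by omega) (by omega)]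
    have := hδz v (by omega) (hspU v hv.1 hv.2) (by omega)
    omega
  have hyR : sR c e y + sR c e δ = sR c e z := by
    unfold sR sm
    rw [← Finset.sum_add_distrib]
    refine Finset.sum_congr rfl fun v hv => ?_
    rw [Finset.mem_Ico] at hv
    rw [hyv v (by omega) (by omega)]
    have := hδz v (by omega) (hspR v hv.1 hv.2) (by omega)
    omega
  have hyL : sL c e y = sL c e z := by
    unfold sL
    refine sm_congr fun v h1 h2 => ?_
    rw [hyv v (by omega) (by omega), hδ0 v (by omega) (by omega)]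
    omega
  have hyM : sM c e y + sM c e δ = sM c e z := by
    have h1 : sM c e y = P2 + Y := by
      unfold sM
      rw [sm_succ y (by omega), hy2c, hP2]
      congr 1
      exact sm_congr fun v h1 h2 => by rw [hyv v (by omega) (by omega), hy']
    omega
  have hy_c : y c = z c := by
    rw [hyv c (by omega) (by omega), hδ0 c (by omega) (by omega)]
    omega
  have hy_c1 : y (c + 1) = z (c + 1) := by
    rw [hyv (c + 1) (by omega) (by omega), hδ0 (c + 1) (by omega) (by omega)]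
    omega
  have hy_k : y (c + e - 1) = z (c + e - 1) := by
    rw [hyv (c + e - 1) (by omega) (by omega), hδ0 (c + e - 1) (by omega) (by omega)]
    omega
  -- levels
  have hyq : Clt n c e y q := by
    refine ⟨fun v hv h => ?_, v0, hv0n, hspU v0 hv01 hv02, ?_⟩
    · rw [hyc v h]
      have := hc v hv h
      omega
    · rw [hyc v0 (hspU v0 hv01 hv02)]
      omega
  have hqδ : Clt n c e (fun v => q v - δ v) q := by
    refine ⟨fun v hv h => Nat.sub_le _ _, v0, hv0n, hspU v0 hv01 hv02, ?_⟩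
    change q v0 - δ v0 < q v0
    omega
  have hκle : κ (fun v => q v - δ v) ≤ κ y := by
    refine E.mono _ _ hqδ (fun v hv h => ?_) fun v hv h hne => ?_
    · rw [hyc v h]
      have := hc v hv h
      omega
    · by_contra hcon
      apply hne
      rw [hyc v h, hzq v hv h hcon]
  have hκkm := E.bd y hyq
  have hL1 : z (c + 1) ≤ sL c e z := sm_ge z (by omega) (by omega)
  have hw1y : sL c e y + sM c e y = y 0 + κ y := by
    rw [hy0, hA, hκ] at *
    omega
  have hw2y : sM c e y + sR c e y = y c + sU c y := by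
    rw [hy_c]
    omega
  have hY1 : Y ≤ z (2 * c) := by omega
  have hY2 : z (2 * c) ≤ Y + N := by omega
  have hreg : Reg c e K Θ Λ y := by
    refine ⟨?_, ?_, ?_⟩
    · rw [hy2c]; omega
    · rw [hy2c, hy_k]
      exact (E.monT hY1).trans hT
    · rw [hy2c, hy_k, hy_c1]
      have := E.monL Y (z (2 * c)) (z (c + e - 1)) (z (c + e - 1)) hY1 le_rfl
      omega
  have hPPy : PP n c y := (E.low y hyq hreg).2 ⟨hw1y, hw2y⟩
  have hle : ∀ v < n, y v ≤ z v := by
    intro v hv
    rcases eq_or_ne v 0 with h | h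
    · rw [h, hy0, hA]
      rw [hκ] at hκle
      omega
    rcases eq_or_ne v (2 * c) with h' | h'
    · rw [h', hy2c]; exact hY1
    · rw [hyv v h h']; exact Nat.sub_le _ _
  have hfin := noPP (by omega) hz hPPy hle s hs2 fun v hv hW => by
    rcases eq_or_ne v 0 with h | h
    · exfalso
      apply hW
      rw [h]
      unfold InW
      omega
    rcases eq_or_ne v (2 * c) with h' | h'
    · rw [h', hy2c]
      have hs3 : 2 * c < s := by
        by_contra hcon
        apply hW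
        rw [h']
        unfold InW
        omega
      have hz0 : ∀ w, c + e ≤ w → w < 2 * c + 1 → δ w = 0 := by
        intro w h1 h2
        by_contra hne
        have := hsW w (by omega) hne
        unfold InW at this
        omega
      have h3 : sM c e δ = 0 := by
        unfold sM
        rw [sm_const 0 hz0, mul_zero]
      omega
    · rw [hyv v h h']
      have : δ v = 0 := by
        by_contra hne
        exact hW (hsW v hv hne)
      omega
  have h1 := hfin v0 hv0n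
  rw [hyv v0 (by omega) (by omega)] at h1
  omega

end Pool.Agent.W_30d1b9f_h31
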