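import Pool.Agent.W_30d1b9f_h31.Api
import Pool.Agent.W_30d1b9f_h31.Evl

/-!
# MP_30d1b9_co: `κ` does not increase when tokens are added to `l` or `M`

`mono1`: thresholds of both statements. Suppose `κ2 < κ1`. Take `D, k, x` large,
`g` the position of the level `q1` with special stacks `D, k, x`, `g 0 = sL + sM - κ1`,
`g c = sM + sR - sU` (so `PP g`), and `z = g` with `v ↦ g v - 1`, `c ↦ g c - 1` if `c + e ≤ v`
(`c ↦ g c` if `v < c + e`), `c+1 ↦ x - (κ1 - 1 - κ2)`: `z` is at the level `q2` with `w1 = κ2`,
`w2 = U`: `PP z`. All changes are in the window `c`: `noPP`.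

`mono`: induction on the number of tokens in `g` minus `g'` (change one stack `v` with
`g' v < g v` by one token, `mono1`, `hcore`).
-/

namespace Pool.Agent.W_30d1b9f_h31

variable {n c e : ℕ} [NeZero n]

theorem mono1 (hp : Par n c e) {q1 q2 : ℕ → ℕ} {κ1 κ2 : ℕ} (h1 : S n c e q1 κ1)
    (h2 : S n c e q2 κ2) {v : ℕ} (hv1 : c < v) (hv2 : v < 2 * c) (hsp : ¬ Sp c e v)
    (hv : q1 v = q2 v + 1) (hne : ∀ w < n, ¬ Sp c e w → w ≠ v → q1 w = q2 w) : κ1 ≤ κ2 := by
  obtain ⟨he, hec, hc, hn⟩ := hp
  by_contra hcon
  push Not at hcon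
  unfold Sp at hsp
  obtain ⟨K, hK⟩ := Ev.and h1 h2
  obtain ⟨t, ht⟩ := hK (max K (sU c q1 + 1)) (le_max_left _ _)
  obtain ⟨l, hl⟩ := ht t le_rfl
  have hD1 : sU c q1 + 1 ≤ max K (sU c q1 + 1) := le_max_right _ _
  generalize hDD : max K (sU c q1 + 1) = D at *
  obtain ⟨x, hx⟩ : ∃ x, x = l + κ1 + 1 := ⟨_, rfl⟩
  -- the position without the stacks `0` and `c`
  obtain ⟨g0, hg0⟩ : ∃ g0 : ℕ → ℕ, ∀ w, g0 w = if w = 2 * c then D else if w = c + e - 1 then t
      else if w = c + 1 then x else q1 w := ⟨_, fun _ => rfl⟩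
  have hU0 : sU c g0 = sU c q1 := sm_congr fun w hw1 hw2 => by
    rw [hg0, if_neg (by omega), if_neg (by omega), if_neg (by omega)]
  have hL0 : x ≤ sL c e g0 := by
    have := sm_ge g0 (a := c + 1) (b := c + e) (v := c + 1) le_rfl (by omega)
    rw [hg0 (c + 1), if_neg (by omega), if_neg (by omega), if_pos rfl] at this
    exact this
  have hM0 : D ≤ sM c e g0 := by
    have := sm_ge g0 (a := c + e) (b := 2 * c + 1) (v := 2 * c) (by omega) (by omega)
    rw [hg0 (2 * c), if_pos rfl] at this
    exact this
  obtain ⟨g, hg⟩ : ∃ g : ℕ → ℕ, g = Function.update (Function.update g0 0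
      (sL c e g0 + sM c e g0 - κ1)) c (sM c e g0 + sR c e g0 - sU c g0) := ⟨_, rfl⟩
  have hgne : ∀ w, w ≠ 0 → w ≠ c → g w = g0 w := fun w hw hwc => by
    rw [hg, Function.update_of_ne hwc, Function.update_of_ne hw]
  have hgc : g c = sM c e g0 + sR c e g0 - sU c g0 := by rw [hg, Function.update_self]
  have hg00 : g 0 = sL c e g0 + sM c e g0 - κ1 := by
    rw [hg, Function.update_of_ne (by omega), Function.update_self]
  have hgU : sU c g = sU c g0 := sm_congr fun w _ _ => hgne w (by omega) (by omega)
  have hgL : sL c e g = sL c e g0 := sm_congr fun w _ _ => hgne w (by omega) (by omega)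
  have hgM : sM c e g = sM c e g0 := sm_congr fun w _ _ => hgne w (by omega) (by omega)
  have hgR : sR c e g = sR c e g0 := sm_congr fun w _ _ => hgne w (by omega) (by omega)
  have hcore : ∀ w, w < n → ¬ Sp c e w → g w = q1 w := fun w hw hws => by
    unfold Sp at hws
    rw [hgne w (by omega) (by omega), hg0, if_neg (by omega), if_neg (by omega),
      if_neg (by omega)]
  have hgv : g v = q2 v + 1 := by
    rw [hcore v (by omega) (by unfold Sp; omega), hv]
  have hgx : g (c + 1) = x := by
    rw [hgne _ (by omega) (by omega), hg0, if_neg (by omega), if_neg (by omega), if_pos rfl]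
  have hAt1 : At n c e q1 D t x g := by
    refine ⟨hcore, ?_, ?_, hgx⟩
    · rw [hgne _ (by omega) (by omega), hg0, if_pos rfl]
    · rw [hgne _ (by omega) (by omega), hg0, if_neg (by omega), if_pos rfl]
  have hPg : PP n c g := by
    refine ((hl x (by omega)).1 g hAt1).2 ⟨?_, ?_⟩
    · rw [hgL, hgM, hg00]
      omega
    · rw [hgM, hgR, hgU, hgc]
      omega
  -- the option
  obtain ⟨z, hz⟩ : ∃ z : ℕ → ℕ, z = Function.update (Function.update (Function.update g v (q2 v))
      (c + 1) (x - (κ1 - 1 - κ2))) c (if c + e ≤ v then g c - 1 else g c) := ⟨_, rfl⟩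
  have hzc : z c = if c + e ≤ v then g c - 1 else g c := by rw [hz, Function.update_self]
  have hzx : z (c + 1) = x - (κ1 - 1 - κ2) := by
    rw [hz, Function.update_of_ne (by omega), Function.update_self]
  have hzv : z v = q2 v := by
    rw [hz, Function.update_of_ne (by omega), Function.update_of_ne (by omega),
      Function.update_self]
  have hzne : ∀ w, w ≠ c → w ≠ c + 1 → w ≠ v → z w = g w := fun w h3 h4 h5 => by
    rw [hz, Function.update_of_ne h3, Function.update_of_ne h4, Function.update_of_ne h5]
  have hzU : sU c z = sU c g := sm_congr fun w _ _ => hzne w (by omega) (by omega) (by omega)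
  have hzR : sR c e z = sR c e g := sm_congr fun w _ _ => hzne w (by omega) (by omega) (by omega)
  have hgc1 : 1 ≤ g c := by omega
  have hsum : sL c e z + sM c e z + 1 + (κ1 - 1 - κ2) = sL c e g + sM c e g ∧
      sM c e z + (if c + e ≤ v then 1 else 0) = sM c e g := by
    by_cases hve : c + e ≤ v
    · have h3 : sL c e z + x = sL c e g + (x - (κ1 - 1 - κ2)) := by
        have := sm_one (f := z) (g := g) (a := c + 1) (b := c + e) (v := c + 1) le_rfl (by omega)
          fun w _ _ _ => hzne w (by omega) (by omega) (by omega)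
        rw [hgx, hzx] at this
        exact this
      have h4 : sM c e z + (q2 v + 1) = sM c e g + q2 v := by
        have := sm_one (f := z) (g := g) (a := c + e) (b := 2 * c + 1) (v := v) hve (by omega)
          fun w _ _ _ => hzne w (by omega) (by omega) (by omega)
        rw [hgv, hzv] at this
        exact this
      rw [if_pos hve]
      constructor <;> omega
    · have h4 : sM c e z = sM c e g :=
        sm_congr fun w _ _ => hzne w (by omega) (by omega) (by omega)
      have h5 : sL c e z + x + (q2 v + 1) = sL c e g + (x - (κ1 - 1 - κ2)) + q2 v := by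
        have h6 := sm_one (f := z) (g := Function.update g v (q2 v)) (a := c + 1) (b := c + e)
          (v := c + 1) le_rfl (by omega) fun w _ _ hw => by
            by_cases hwv : w = v
            · rw [hwv, hzv, Function.update_self]
            · rw [Function.update_of_ne hwv, hzne w (by omega) hw hwv]
        have h7 := sm_upd_in (a := c + 1) (b := c + e) (v := v) g (q2 v) (by omega) (by omega)
        rw [hzx, Function.update_of_ne (by omega), hgx] at h6
        rw [hgv] at h7
        unfold sL
        omega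
      rw [if_neg hve]
      constructor <;> omega
  have hAt2 : At n c e q2 D t (x - (κ1 - 1 - κ2)) z := by
    refine ⟨fun w hw hws => ?_, ?_, ?_, hzx⟩
    · by_cases hwv : w = v
      · rw [hwv, hzv]
      · have hws' := hws
        unfold Sp at hws'
        rw [hzne w (by omega) (by omega) hwv, hcore w hw hws, hne w hw hws hwv]
    · rw [hzne _ (by omega) (by omega) (by omega)]
      exact hAt1.2.1
    · rw [hzne _ (by omega) (by omega) (by omega)]
      exact hAt1.2.2.1
  have hz0 : z 0 = g 0 := hzne 0 (by omega) (by omega) (by omega)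
  have hPz : PP n c z := by
    refine ((hl _ (by omega)).2 z hAt2).2 ⟨?_, ?_⟩
    · rw [hz0]
      have := hsum.1
      omega
    · rw [hzR, hzU, hzc]
      have := hsum.2
      split_ifs at this ⊢ <;> omega
  have hfin := noPP (by omega) hPg hPz (fun w hw => by
      by_cases h3 : w = c
      · rw [h3, hzc]
        split_ifs <;> omega
      by_cases h4 : w = c + 1
      · rw [h4, hzx, hgx]
        omega
      by_cases h5 : w = v
      · rw [h5, hzv, hgv]
        omega
      rw [hzne w h3 h4 h5]) c (by omega) (fun w hw hW => by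
        unfold InW at hW
        exact hzne w (by omega) (by omega) (by omega)) v (by omega)
  omega

theorem mono (hp : Par n c e) {κ : (ℕ → ℕ) → ℕ}
    (hcore : ∀ g g', Cr n c e g g' → κ g = κ g') {q : ℕ → ℕ}
    (hS : ∀ g, Clt n c e g q → S n c e g (κ g)) :
    ∀ g g', Clt n c e g q → Cle n c e g' g →
      (∀ v < n, ¬ Sp c e v → g' v ≠ g v → c < v ∧ v < 2 * c) → κ g ≤ κ g' := by
  obtain ⟨m, hm⟩ : ∃ m : (ℕ → ℕ) → (ℕ → ℕ) → ℕ, ∀ g g',
      m g g' = sm (c + 1) (2 * c) (fun v => g v - g' v) := ⟨_, fun _ _ => rfl⟩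
  suffices H : ∀ (k : ℕ) (g g' : ℕ → ℕ), m g g' ≤ k → Clt n c e g q → Cle n c e g' g →
      (∀ v < n, ¬ Sp c e v → g' v ≠ g v → c < v ∧ v < 2 * c) → κ g ≤ κ g' from
    fun g g' h1 h2 h3 => H _ g g' le_rfl h1 h2 h3
  intro k
  induction k with
  | zero =>
    intro g g' hk h1 h2 h3
    refine le_of_eq (hcore g g' fun v hv hs => ?_)
    by_contra hne
    obtain ⟨h4, h5⟩ := h3 v hv hs fun h => hne h.symm
    have h6 := h2 v hv hs
    have h7 := sm_ge (fun v => g v - g' v) (a := c + 1) (b := 2 * c) (v := v) (by omega) h5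
    rw [hm] at hk
    have h8 : g v - g' v ≤ 0 := h7.trans hk
    omega
  | succ k ih =>
    intro g g' hk h1 h2 h3
    by_cases hall : ∀ v < n, ¬ Sp c e v → g v = g' v
    · exact le_of_eq (hcore g g' hall)
    · push Not at hall
      obtain ⟨v, hv, hs, hne⟩ := hall
      obtain ⟨h4, h5⟩ := h3 v hv hs fun h => hne h.symm
      have h6 := h2 v hv hs
      obtain ⟨g1, hg1⟩ : ∃ g1 : ℕ → ℕ, g1 = Function.update g v (g v - 1) := ⟨_, rfl⟩
      have hg1v : g1 v = g v - 1 := by rw [hg1, Function.update_self]
      have hg1ne : ∀ w, w ≠ v → g1 w = g w := fun w hw => by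
        rw [hg1, Function.update_of_ne hw]
      have hg1le : ∀ w, g1 w ≤ g w := fun w => by
        by_cases hw : w = v
        · rw [hw, hg1v]
          omega
        · rw [hg1ne w hw]
      have hlt : Clt n c e g1 q := by
        obtain ⟨h7, w, hw, hws, h8⟩ := h1
        exact ⟨fun u hu hus => (hg1le u).trans (h7 u hu hus), w, hw, hws,
          lt_of_le_of_lt (hg1le w) h8⟩
      have hle1 : κ g ≤ κ g1 := by
        refine mono1 hp (hS g h1) (hS g1 hlt) h4 h5 hs ?_ fun w hw hws hwv => ?_
        · rw [hg1v]
          omega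
        · exact (hg1ne w hwv).symm
      have hle2 : κ g1 ≤ κ g' := by
        refine ih g1 g' ?_ hlt (fun w hw hws => ?_) fun w hw hws hwne => ?_
        · rw [hm] at hk ⊢
          have h9 : sm (c + 1) (2 * c) (fun v => g1 v - g' v) <
              sm (c + 1) (2 * c) (fun v => g v - g' v) :=
            sm_lt (v := v) (fun w _ _ => Nat.sub_le_sub_right (hg1le w) _) (by omega) h5 (by
              rw [hg1v]
              omega)
          omega
        · by_cases hwv : w = v
          · rw [hwv, hg1v]
            omega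
          · rw [hg1ne w hwv]
            exact h2 w hw hws
        · by_cases hwv : w = v
          · exact hwv ▸ ⟨h4, h5⟩
          · rw [hg1ne w hwv] at hwne
            exact h3 w hw hws hwne
      exact hle1.trans hle2

end Pool.Agent.W_30d1b9f_h31
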