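import Pool.Agent.W_30d1b9f_h31.Api

/-!
# MP_30d1b9_co: the reply lemma (the case analysis in step H)

Let `G = g` with `c+e-1 ↦ g (c+e-1) - s`. `G` is an option of `g` (any window containing
`c+e-1`), so `G` is not P (`noPP`); `exP` gives a P-position `z ≤ G` and a window `w < n`.

* `InW w (c+e-1)`: then `z` is an option of `g` in the window `w`: `noPP`, contradiction
  (`z (c+e-1) < g (c+e-1)`).
* `1 ≤ w ≤ e-2` (window `{u_{≥w}, b, l_{≤w}}`): `z 0 = g 0`, `M, r` unchanged. If `z = g` on
  `1..c-1`: `noPP` for `g, z` and the window `e-1`. Otherwise `Clt z q`, `Reg z` (by F1 for `z`,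
  F4 for `g` the stack `c+1` of `z` is `≥ x - 3N - D - k`), so `E.low z`:
  `sM z + sR z = z c + U z`, `z c ≤ g c`, `U z < U g` (`sm_lt`): contradiction to `hw`.
* `w = 0` (window `{a, u, b}`): `L` (except `k`), `M`, `r` unchanged. `u` changed: `Clt z q`,
  `E.low z`: same contradiction. `u` unchanged: if `z 0 = g 0` then `noPP` for `g, z` and the
  window `e-1`; so `z 0 < g 0`: done.
* `c+e ≤ w` (window `{M_.., r, a, u_..}`): `z c = g c`, `z (c+1) = g (c+1)`,
  `sL z = sL g - s`. F2 for `z` and F3 for `g`: everything removed from `M, r` is `≤ 3N`.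
  If `Clt z q`: `E.low z` and `E.bd z`: `sL z + sM z ≤ z 0 + km`: contradiction to `hbig`.
  Otherwise only `0, 2c, c+e-1` changed; `z 0 = g 0` contradicts `noPP` for `g, z` and the
  window `c`; so `z 0 < g 0`: done.
-/

namespace Pool.Agent.W_30d1b9f_h31

variable {n c e : ℕ} [NeZero n]

theorem reply (hp : Par n c e) {q : ℕ → ℕ} {κ : (ℕ → ℕ) → ℕ} {km N K : ℕ} {Θ : ℕ → ℕ}
    {Λ : ℕ → ℕ → ℕ} (E : Env n c e q κ km N K Θ Λ) {g : ℕ → ℕ} (hcr : Cr n c e g q)
    (hg : PP n c g) (hw : g c + sU c g ≤ sM c e g + sR c e g) {s : ℕ} (hs : 1 ≤ s)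
    (hsk : s ≤ g (c + e - 1)) (hK : K + 3 * N ≤ g (2 * c))
    (hT : Θ (g (2 * c)) ≤ g (c + e - 1) - s)
    (hL : Λ (g (2 * c)) (g (c + e - 1)) + 4 * N + g (2 * c) + g (c + e - 1) ≤ g (c + 1))
    (hbig : g 0 + km + s + 3 * N < sL c e g + sM c e g) :
    ∃ z : ℕ → ℕ, PP n c z ∧
      (∀ v < n, v ≠ 0 → v ≠ c → v ≠ c + e - 1 → v ≠ 2 * c → z v = g v) ∧
      z (c + e - 1) = g (c + e - 1) - s ∧ z 0 < g 0 ∧ z c ≤ g c ∧ z (2 * c) ≤ g (2 * c) ∧
      g (2 * c) ≤ z (2 * c) + 3 * N := by
  have hp' := hp
  obtain ⟨he, hec, hc2, hn⟩ := hp'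
  obtain ⟨G, hG⟩ : ∃ G : ℕ → ℕ, G = Function.update g (c + e - 1) (g (c + e - 1) - s) :=
    ⟨_, rfl⟩
  have hGk : G (c + e - 1) = g (c + e - 1) - s := by rw [hG, Function.update_self]
  have hGo : ∀ v, v ≠ c + e - 1 → G v = g v := fun v hv => by
    rw [hG, Function.update_of_ne hv]
  have hGle : ∀ v < n, G v ≤ g v := fun v _ => by
    by_cases hv : v = c + e - 1
    · rw [hv, hGk]
      omega
    · rw [hGo v hv]
  have hGN : ¬ PP n c G := fun h => by
    have := noPP (by omega) hg h hGle c (by omega) (fun v hv hW => hGo v (by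
      rintro rfl
      apply hW
      unfold InW
      omega)) (c + e - 1) (by omega)
    omega
  obtain ⟨z, w, hwn, hz, hzG, hzo, -⟩ := exP (by omega) hGN
  have hzg : ∀ v < n, z v ≤ g v := fun v hv => (hzG v hv).trans (hGle v hv)
  by_cases hwk : InW n c w (c + e - 1)
  · exfalso
    have h1 := noPP (by omega) hg hz hzg w hwn (fun v hv hW => by
      rw [hzo v hv hW, hGo v (by rintro rfl; exact hW hwk)]) (c + e - 1) (by omega)
    have h2 := hzG (c + e - 1) (by omega)
    omega
  have hzk : z (c + e - 1) = g (c + e - 1) - s := by rw [hzo _ (by omega) hwk, hGk]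
  have hkeep : ∀ v < n, ¬ InW n c w v → v ≠ c + e - 1 → z v = g v := fun v hv h1 h2 => by
    rw [hzo v hv h1, hGo v h2]
  have hCle : Cle n c e z q := fun v hv hs => by
    rw [← hcr v hv hs]
    exact hzg v hv
  have sumz := E.sum z hCle
  have sumg := E.sum g fun v hv hs => (hcr v hv hs).le
  have f1z := F1 hp hz
  have f2z := F2 hp hz
  have f3g := F3 hp hg
  have f4g := F4 hp hg
  have leL : sL c e z ≤ sL c e g := sm_le fun v h1 h2 => hzg v (by omega)
  have leM : sM c e z ≤ sM c e g := sm_le fun v h1 h2 => hzg v (by omega)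
  have leR : sR c e z ≤ sR c e g := sm_le fun v h1 h2 => hzg v (by omega)
  have leU : sU c z ≤ sU c g := sm_le fun v h1 h2 => hzg v (by omega)
  have hflat : ∀ v, e ≤ v → v < c → g v = 0 := fun v h1 h2 => by
    rw [hcr v (by omega) (by unfold Sp; omega)]
    exact E.flat v h1 h2
  have hmL := E.monL (g (2 * c)) (g (2 * c)) (g (c + e - 1) - s) (g (c + e - 1)) le_rfl
    (Nat.sub_le _ _)
  -- a changed stack among `u` gives a lower level
  have hlow : ∀ v, 1 ≤ v → v < c → z v ≠ g v → Clt n c e z q ∧ sU c z < sU c g := by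
    intro v h1 h2 h3
    have h4 := hzg v (by omega)
    have h5 : v < e := by
      by_contra hcon
      have := hflat v (by omega) h2
      omega
    refine ⟨⟨hCle, v, by omega, by unfold Sp; omega, ?_⟩, ?_⟩
    · rw [← hcr v (by omega) (by unfold Sp; omega)]
      omega
    · exact sm_lt (fun w h1 h2 => hzg w (by omega)) h1 h2 (by omega)
  unfold InW at hwk
  rcases Nat.lt_or_ge w (c + e) with hw1 | hw1
  · rcases Nat.eq_zero_or_pos w with hw0 | hw0
    · -- window `0`
      subst hw0
      have hout : ∀ v, c < v → v < n → v ≠ c + e - 1 → z v = g v := fun v h1 h2 h3 =>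
        hkeep v h2 (by unfold InW; omega) h3
      have eM : sM c e z = sM c e g := sm_congr fun v h1 h2 => hout v (by omega) (by omega)
        (by omega)
      have eR : sR c e z = sR c e g := sm_congr fun v h1 h2 => hout v (by omega) (by omega)
        (by omega)
      have ex := hout (c + 1) (by omega) (by omega) (by omega)
      have eD := hout (2 * c) (by omega) (by omega) (by omega)
      have hcz := hzg c (by omega)
      by_cases hu : ∀ v, 1 ≤ v → v < c → z v = g v
      · have h0 := hzg 0 (by omega)
        by_cases ha : z 0 = g 0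
        · exfalso
          have h1 := noPP (by omega) hg hz hzg (e - 1) (by omega) (fun v hv hW => by
            unfold InW at hW
            rcases Nat.eq_zero_or_pos v with h2 | h2
            · rw [h2, ha]
            rcases Nat.lt_or_ge v c with h3 | h3
            · exact hu v h2 h3
            · exact hout v (by omega) hv (by omega)) (c + e - 1) (by omega)
          omega
        · refine ⟨z, hz, fun v hv h1 h2 h3 h4 => ?_, hzk, by omega, hcz, by omega, by omega⟩
          rcases Nat.lt_or_ge v c with h5 | h5
          · exact hu v (by omega) h5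
          · exact hout v (by omega) hv h3
      · exfalso
        push Not at hu
        obtain ⟨v, h1, h2, h3⟩ := hu
        obtain ⟨hclt, hUlt⟩ := hlow v h1 h2 h3
        have hf := ((E.low z hclt ⟨by omega, by rw [eD, hzk]; exact hT,
          by rw [eD, hzk, ex]; omega⟩).1 hz).2
        omega
    · -- windows `1, ..., e-2`
      exfalso
      have hw2 : w + 2 ≤ e := by omega
      have hout : ∀ v, w + c < v → v < n → v ≠ c + e - 1 → z v = g v := fun v h1 h2 h3 =>
        hkeep v h2 (by unfold InW; omega) h3
      have ea : z 0 = g 0 := hkeep 0 (by omega) (by unfold InW; omega) (by omega)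
      have eM : sM c e z = sM c e g := sm_congr fun v h1 h2 => hout v (by omega) (by omega)
        (by omega)
      have eR : sR c e z = sR c e g := sm_congr fun v h1 h2 => hout v (by omega) (by omega)
        (by omega)
      have eD := hout (2 * c) (by omega) (by omega) (by omega)
      have hcz := hzg c (by omega)
      by_cases hu : ∀ v, 1 ≤ v → v < c → z v = g v
      · have h1 := noPP (by omega) hg hz hzg (e - 1) (by omega) (fun v hv hW => by
          unfold InW at hW
          rcases Nat.eq_zero_or_pos v with h2 | h2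
          · rw [h2, ea]
          rcases Nat.lt_or_ge v c with h3 | h3
          · exact hu v h2 h3
          · exact hout v (by omega) hv (by omega)) (c + e - 1) (by omega)
        omega
      · push Not at hu
        obtain ⟨v, h1, h2, h3⟩ := hu
        obtain ⟨hclt, hUlt⟩ := hlow v h1 h2 h3
        have hf := ((E.low z hclt ⟨by omega, by rw [eD, hzk]; exact hT,
          by rw [eD, hzk]; omega⟩).1 hz).2
        omega
  · -- windows `c+e, ..., n-1`
    have hout : ∀ v, c ≤ v → v < c + e → v ≠ c + e - 1 → z v = g v := fun v h1 h2 h3 =>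
      hkeep v (by omega) (by unfold InW; omega) h3
    have ec := hout c le_rfl (by omega) (by omega)
    have ex := hout (c + 1) (by omega) (by omega) (by omega)
    have eL : sL c e z + g (c + e - 1) = sL c e g + z (c + e - 1) :=
      sm_one (by omega) (by omega) fun v h1 h2 h3 => hout v (by omega) (by omega) h3
    have hD := hzg (2 * c) (by omega)
    have eMD : sM c e z + g (2 * c) ≤ sM c e g + z (2 * c) := by
      have h1 := sm_one (a := c + e) (b := 2 * c + 1) (v := 2 * c)
        (f := Function.update g (2 * c) (z (2 * c))) (g := g) (by omega) (by omega)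
        fun v h1 h2 h3 => Function.update_of_ne h3 _ _
      rw [Function.update_self] at h1
      have h2 : sm (c + e) (2 * c + 1) z ≤
          sm (c + e) (2 * c + 1) (Function.update g (2 * c) (z (2 * c))) :=
        sm_le fun v h1 h2 => by
          by_cases h3 : v = 2 * c
          · rw [h3, Function.update_self]
          · rw [Function.update_of_ne h3]
            exact hzg v (by omega)
      unfold sM
      omega
    have hmD := E.monT hD
    have hmL2 := E.monL (z (2 * c)) (g (2 * c)) (z (c + e - 1)) (g (c + e - 1)) hD (by omega)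
    by_cases hcr2 : Cr n c e z g
    · have hsp : ∀ v < n, v ≠ 0 → v ≠ c → v ≠ c + e - 1 → v ≠ 2 * c → z v = g v := by
        intro v hv h1 h2 h3 h4
        by_cases h5 : v = c + 1
        · rw [h5, ex]
        · exact hcr2 v hv (by unfold Sp; omega)
      have h0 := hzg 0 (by omega)
      by_cases ha : z 0 = g 0
      · exfalso
        have h1 := noPP (by omega) hg hz hzg c (by omega) (fun v hv hW => by
          unfold InW at hW
          by_cases h0' : v = 0
          · rw [h0', ha]
          · exact hsp v hv h0' (by omega) (by omega) (by omega)) (c + e - 1) (by omega)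
        omega
      · refine ⟨z, hz, hsp, hzk, by omega, by omega, hD, ?_⟩
        omega
    · exfalso
      have hclt : Clt n c e z q := by
        refine ⟨hCle, ?_⟩
        by_contra hcon
        push Not at hcon
        apply hcr2
        intro v hv hs
        have h1 := hcon v hv hs
        rw [← hcr v hv hs] at h1
        exact le_antisymm (hzg v hv) h1
      have hf := ((E.low z hclt ⟨by omega, by omega, by omega⟩).1 hz).1
      have hb := E.bd z hclt
      have h0 := hzg 0 (by omega)
      omega

end Pool.Agent.W_30d1b9f_h31
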