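import Pool.Agent.W_30d1b9f_h31.Base
import Pool.Agent.W_30d1b9f_h31.A1
import Pool.Agent.W_30d1b9f_h31.A2
import Pool.Agent.W_30d1b9f_h31.Mono
import Pool.Agent.W_30d1b9f_h31.Exist
import Pool.Agent.W_30d1b9f_h31.IncX
import Pool.Agent.W_30d1b9f_h31.Const

/-!
# MP_30d1b9_co: the induction

`Env.weaken`: larger thresholds. `env`: finitely many cores below `q` (representatives
`g` with `g v = 0` for `v ≥ n` and for special `v`; `Finset` of functions `ℕ → ℕ` with
`g v ≤ q v`, e.g. the image of `Fintype.piFinset`/`Finset.pi` over `Finset.range n`), so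
`Ev.all` and `Ev.thr` give common monotone thresholds; `km` = sup of `κ` on the representatives;
`N = ∑ v ∈ Finset.range n, q v` (for the sums: split off the special stacks, `sm_split`,
`sm_le`); `mono` from Mono.lean. `S` depends on the core of `q` only (`S_congr`).

`step`: `env`, then `A1`, `A2` (`Ev.and`, `Ev.thr`), `Env.weaken` to the maximum of the
thresholds, `A12`, then `exist`, `incX`, `const`.

`main`: strong induction on `∑ v ∈ Finset.range n, (if Sp then 0 else q v)`; `base` if `q = 0`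
on `1..c-1`, otherwise `step`.
-/

namespace Pool.Agent.W_30d1b9f_h31

variable {n c e : ℕ} [NeZero n]

theorem Env.weaken {q : ℕ → ℕ} {κ : (ℕ → ℕ) → ℕ} {km N K K' : ℕ} {Θ Θ' : ℕ → ℕ}
    {Λ Λ' : ℕ → ℕ → ℕ} (E : Env n c e q κ km N K Θ Λ) (hK : K ≤ K') (hT : ∀ D, Θ D ≤ Θ' D)
    (hL : ∀ D k, Λ D k ≤ Λ' D k) (hT' : Monotone Θ')
    (hL' : ∀ D D' k k', D ≤ D' → k ≤ k' → Λ' D k ≤ Λ' D' k') :
    Env n c e q κ km N K' Θ' Λ' where
  flat := E.flat
  core := E.core
  bd := E.bd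
  sum := E.sum
  monT := hT'
  monL := hL'
  low := fun g hg hR => E.low g hg
    ⟨hK.trans hR.1, (hT _).trans hR.2.1, (hL _ _).trans hR.2.2⟩
  mono := E.mono

theorem S_congr {q q' : ℕ → ℕ} {κ : ℕ} (h : Cr n c e q q') (hS : S n c e q κ) :
    S n c e q' κ :=
  Ev.imp hS fun _ _ _ hh g hg =>
    hh g ⟨fun v hv hs => (hg.1 v hv hs).trans (h v hv hs).symm, hg.2⟩

open Classical in
/-- the core of a position, as a function -/
private noncomputable def nrm (n c e : ℕ) (g : ℕ → ℕ) : ℕ → ℕ :=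
  fun v => if v < n ∧ ¬ Sp c e v then g v else 0

omit [NeZero n] in
private theorem nrm_of {g : ℕ → ℕ} {v : ℕ} (hv : v < n) (hs : ¬ Sp c e v) :
    nrm n c e g v = g v := if_pos ⟨hv, hs⟩

omit [NeZero n] in
private theorem nrm_not {g : ℕ → ℕ} {v : ℕ} (h : ¬ (v < n ∧ ¬ Sp c e v)) :
    nrm n c e g v = 0 := if_neg h

omit [NeZero n] in
private theorem cr_nrm (g : ℕ → ℕ) : Cr n c e g (nrm n c e g) :=
  fun _ hv hs => (nrm_of hv hs).symm

omit [NeZero n] in
private theorem nrm_cr (g : ℕ → ℕ) : Cr n c e (nrm n c e g) g :=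
  fun _ hv hs => nrm_of hv hs

omit [NeZero n] in
private theorem nrm_congr {g g' : ℕ → ℕ} (h : Cr n c e g g') : nrm n c e g = nrm n c e g' := by
  funext v
  by_cases hv : v < n ∧ ¬ Sp c e v
  · rw [nrm_of hv.1 hv.2, nrm_of hv.1 hv.2, h v hv.1 hv.2]
  · rw [nrm_not hv, nrm_not hv]

/-- finitely many cores below `q` -/
private theorem fin_cores (n c e : ℕ) (q : ℕ → ℕ) :
    ∃ F : Finset (ℕ → ℕ), ∀ g, Cle n c e g q → nrm n c e g ∈ F := by
  classical
  refine ⟨(Fintype.piFinset fun v : Fin n => Finset.range (q v + 1)).image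
    fun f v => if h : v < n then f ⟨v, h⟩ else 0, fun g hg => ?_⟩
  rw [Finset.mem_image]
  refine ⟨fun v => nrm n c e g v, ?_, ?_⟩
  · rw [Fintype.mem_piFinset]
    intro v
    rw [Finset.mem_range]
    by_cases hv : (v : ℕ) < n ∧ ¬ Sp c e v
    · rw [nrm_of hv.1 hv.2]
      have := hg v hv.1 hv.2
      omega
    · rw [nrm_not hv]
      omega
  · funext v
    by_cases hv : v < n
    · simp only [hv, dite_true]
    · simp only [hv, dite_false]
      exact (nrm_not fun h => hv h.1).symm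

theorem env (hp : Par n c e) {q : ℕ → ℕ} (hq : ∀ v, e ≤ v → v < c → q v = 0)
    {κ : (ℕ → ℕ) → ℕ} (hcore : ∀ g g', Cr n c e g g' → κ g = κ g')
    (hS : ∀ g, Clt n c e g q → S n c e g (κ g)) :
    ∃ km N K Θ Λ, Env n c e q κ km N K Θ Λ := by
  classical
  obtain ⟨F, hF⟩ := fin_cores n c e q
  have hF' : ∀ g, Clt n c e g q → nrm n c e g ∈ F.filter fun g => Clt n c e g q := by
    intro g hg
    rw [Finset.mem_filter]
    refine ⟨hF g hg.1, fun v hv hs => ?_, ?_⟩
    · rw [nrm_of hv hs]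
      exact hg.1 v hv hs
    · obtain ⟨v, hv, hs, hlt⟩ := hg.2
      exact ⟨v, hv, hs, by rw [nrm_of hv hs]; exact hlt⟩
  obtain ⟨K, Θ, Λ, hΘ, hΛ, hall⟩ := Ev.thr (Ev.all (F.filter fun g => Clt n c e g q)
    (Q := fun g D k x => ∀ g', At n c e g D k x g' → Fact n c e (κ g) g')
    fun g hg => hS g (Finset.mem_filter.1 hg).2)
  obtain ⟨he, hec, hc, hn⟩ := id hp
  refine ⟨(F.filter fun g => Clt n c e g q).sup κ, sm 0 n q, K, Θ, Λ,
    { flat := hq, core := hcore, bd := ?_, sum := ?_, monT := hΘ, monL := hΛ, low := ?_,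
      mono := mono hp hcore hS }⟩
  · intro g hg
    rw [hcore g _ (cr_nrm g)]
    exact Finset.le_sup (f := κ) (hF' g hg)
  · intro g hg
    have hns : ∀ v, (1 ≤ v ∧ v < c) ∨ (c + 2 ≤ v ∧ v < c + e - 1) ∨ (c + e ≤ v ∧ v < 2 * c) ∨
        (2 * c + 1 ≤ v ∧ v < 2 * c + e) → g v ≤ q v := by
      intro v hv
      refine hg v (by omega) ?_
      unfold Sp
      omega
    have h1 : sU c g ≤ sm 1 c q := sm_le fun v h1 h2 => hns v (by omega)
    have h2 : sR c e g ≤ sm (2 * c + 1) (2 * c + e) q := sm_le fun v h1 h2 => hns v (by omega)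
    have h3 : sm (c + 2) (c + e - 1) g ≤ sm (c + 2) (c + e - 1) q :=
      sm_le fun v h1 h2 => hns v (by omega)
    have h4 : sm (c + e) (2 * c) g ≤ sm (c + e) (2 * c) q :=
      sm_le fun v h1 h2 => hns v (by omega)
    have e1 : sL c e g = g (c + 1) + sm (c + 2) (c + e) g := sm_head g (by omega)
    have e2 : sm (c + 2) (c + e) g = sm (c + 2) (c + e - 1) g + g (c + e - 1) := by
      have := sm_succ g (by omega : c + 2 ≤ c + e - 1)
      rwa [show c + e - 1 + 1 = c + e by omega] at this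
    have e3 : sM c e g = sm (c + e) (2 * c) g + g (2 * c) := sm_succ g (by omega)
    have t1 := sm_split q (by omega : 0 ≤ 1) (by omega : 1 ≤ n)
    have t2 := sm_split q (by omega : 1 ≤ c) (by omega : c ≤ n)
    have t3 := sm_split q (by omega : c ≤ c + 2) (by omega : c + 2 ≤ n)
    have t4 := sm_split q (by omega : c + 2 ≤ c + e - 1) (by omega : c + e - 1 ≤ n)
    have t5 := sm_split q (by omega : c + e - 1 ≤ c + e) (by omega : c + e ≤ n)
    have t6 := sm_split q (by omega : c + e ≤ 2 * c) (by omega : 2 * c ≤ n)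
    have t7 := sm_split q (by omega : 2 * c ≤ 2 * c + 1) (by omega : 2 * c + 1 ≤ n)
    have hn' : sm (2 * c + 1) (2 * c + e) q = sm (2 * c + 1) n q := by rw [hn]
    refine ⟨?_, ?_, ?_⟩ <;> omega
  · intro g hg hR
    rw [hcore g _ (cr_nrm g)]
    exact hall _ _ _ hR.1 hR.2.1 hR.2.2 _ (hF' g hg) g ⟨cr_nrm g, rfl, rfl, rfl⟩

theorem step (hp : Par n c e) {q : ℕ → ℕ} (hq : ∀ v, e ≤ v → v < c → q v = 0)
    {x0 : ℕ} (hx1 : 1 ≤ x0) (hx2 : x0 < c) (hx3 : 1 ≤ q x0)
    {κ : (ℕ → ℕ) → ℕ} (hcore : ∀ g g', Cr n c e g g' → κ g = κ g')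
    (hS : ∀ g, Clt n c e g q → S n c e g (κ g)) : ∃ κ', S n c e q κ' := by
  obtain ⟨km, N, K, Θ, Λ, E⟩ := env hp hq hcore hS
  obtain ⟨K', Θ', Λ', hT', hL', hall⟩ := Ev.thr (Ev.and (A1 hp E hx1 hx2 hx3) (A2 hp E))
  have hT : Monotone fun D => max (Θ D) (Θ' D) := fun a b h =>
    max_le_max (E.monT h) (hT' h)
  have hL : ∀ D D' k k', D ≤ D' → k ≤ k' →
      max (Λ D k) (Λ' D k) ≤ max (Λ D' k') (Λ' D' k') := fun D D' k k' h1 h2 =>
    max_le_max (E.monL _ _ _ _ h1 h2) (hL' _ _ _ _ h1 h2)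
  have E' : Env n c e q κ km N (max K K') (fun D => max (Θ D) (Θ' D))
      (fun D k => max (Λ D k) (Λ' D k)) :=
    E.weaken (le_max_left _ _) (fun D => le_max_left _ _) (fun D k => le_max_left _ _) hT hL
  have h12 : A12 n c e q (max K K') (fun D => max (Θ D) (Θ' D))
      (fun D k => max (Λ D k) (Λ' D k)) := by
    intro g hg hR hP
    have h := hall (g (2 * c)) (g (c + e - 1)) (g (c + 1)) ((le_max_right _ _).trans hR.1)
      ((le_max_right _ _).trans hR.2.1) ((le_max_right _ _).trans hR.2.2)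
    have hat : At n c e q (g (2 * c)) (g (c + e - 1)) (g (c + 1)) g := ⟨hg, rfl, rfl, rfl⟩
    exact le_antisymm (h.2 g hat hP) (h.1 g hat hP)
  exact const hp h12 hT hL (exist hp E' h12) (incX hp E' h12)

/-- all levels are known -/
theorem main (hp : Par n c e) : ∃ κ : (ℕ → ℕ) → ℕ, (∀ g g', Cr n c e g g' → κ g = κ g') ∧
    ∀ q, (∀ v, e ≤ v → v < c → q v = 0) → S n c e q (κ q) := by
  classical
  let κ : (ℕ → ℕ) → ℕ := fun g =>
    if h : ∃ κ', S n c e (nrm n c e g) κ' then h.choose else 0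
  have hκ : ∀ g, κ g = if h : ∃ κ', S n c e (nrm n c e g) κ' then h.choose else 0 :=
    fun _ => rfl
  have hcore : ∀ g g', Cr n c e g g' → κ g = κ g' := by
    intro g g' h
    rw [hκ, hκ, nrm_congr h]
  have hch : ∀ g, (∃ κ', S n c e g κ') → S n c e g (κ g) := by
    rintro g ⟨κ', h⟩
    have hex : ∃ κ', S n c e (nrm n c e g) κ' := ⟨κ', S_congr (cr_nrm g) h⟩
    rw [hκ, dif_pos hex]
    exact S_congr (nrm_cr g) hex.choose_spec
  obtain ⟨he, hec, hc, hn⟩ := id hp
  have hmain : ∀ m : ℕ, ∀ q, (∀ v, e ≤ v → v < c → q v = 0) →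
      sm 0 n (nrm n c e q) = m → ∃ κ', S n c e q κ' := by
    intro m
    induction m using Nat.strong_induction_on with
    | _ m ih =>
      intro q hq hm
      by_cases hz : ∀ v, 1 ≤ v → v < c → q v = 0
      · exact ⟨0, base hp q hz⟩
      · push Not at hz
        obtain ⟨x0, hx1, hx2, hx3⟩ := hz
        refine step hp hq hx1 hx2 (by omega) hcore fun g hg => hch g ?_
        have hgf : ∀ v, e ≤ v → v < c → g v = 0 := by
          intro v h1 h2
          have h3 := hg.1 v (by omega) (by unfold Sp; omega)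
          have h4 := hq v h1 h2
          omega
        refine ih _ ?_ g hgf rfl
        rw [← hm]
        obtain ⟨v, hv, hs, hlt⟩ := hg.2
        refine sm_lt (v := v) (fun w _ hw => ?_) (Nat.zero_le _) hv ?_
        · by_cases hsw : Sp c e w
          · rw [nrm_not fun h => h.2 hsw]
            exact Nat.zero_le _
          · rw [nrm_of hw hsw, nrm_of hw hsw]
            exact hg.1 w hw hsw
        · rw [nrm_of hv hs, nrm_of hv hs]
          exact hlt
  exact ⟨κ, hcore, fun q hq => hch q (hmain _ q hq rfl)⟩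

end Pool.Agent.W_30d1b9f_h31
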